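import Pool.Agent.P.MP_6c0067_an.Defs

/-! Area under Lipschitz maps. `μH[2] = volume` on `ℝ × ℝ` (`hausdorffMeasure_prod_real`, sup
norm); `Complex.equivRealProd` (or `measurableEquivRealProd`) preserves the volume, is 1-Lipschitz
and its inverse is 2-Lipschitz; use `LipschitzOnWith.hausdorffMeasure_image_le`.
`lintegral_comp_anti`: the inverse of `Φ` on its range is 2-Lipschitz, so
`volume (Φ ⁻¹' E) ≤ C * volume E`; hence `volume.map Φ ≤ C • volume`, then `lintegral_map` and
`lintegral_mono'`. -/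

open Set MeasureTheory Metric
open scoped ENNReal NNReal

namespace Pool.Agent.P.MP_6c0067_an

open Classical

variable {D : Set ℂ}

theorem Lip_prod {f : ℝ × ℝ → ℝ × ℝ} {S : Set (ℝ × ℝ)} {L : ℝ≥0} (h : LipschitzOnWith L f S) :
    volume (f '' S) ≤ (L : ℝ≥0∞) ^ 2 * volume S := by
  have := h.hausdorffMeasure_image_le (d := 2) zero_le_two
  rwa [hausdorffMeasure_prod_real, ENNReal.rpow_two] at this

theorem Lip_vol (E : Set ℂ) : volume (Complex.equivRealProd '' E) = volume E := by
  have := Complex.volume_preserving_equiv_real_prod.measure_preimage_equiv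
    (Complex.equivRealProd '' E)
  rw [← this]
  exact congrArg _ (Complex.equivRealProd.injective.preimage_image E)

theorem Lip_symm : LipschitzWith 2 Complex.equivRealProd.symm :=
  (Complex.antilipschitz_equivRealProd.to_rightInverse
    Complex.equivRealProd.apply_symm_apply).weaken (NNReal.sqrt_le_iff_le_sq.2 (by norm_num))

theorem vol_image_le {Φ : ℂ → ℝ × ℝ} {E : Set ℂ} {L : ℝ≥0} (hΦ : LipschitzOnWith L Φ E) :
    volume (Φ '' E) ≤ 4 * (L : ℝ≥0∞) ^ 2 * volume E := by
  have h := hΦ.comp (Lip_symm.lipschitzOnWith (s := Complex.equivRealProd '' E)) (by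
    rintro _ ⟨z, hz, rfl⟩
    rwa [Equiv.symm_apply_apply])
  have h1 := Lip_prod h
  rw [Lip_vol, image_comp, Equiv.symm_image_image] at h1
  refine h1.trans_eq ?_
  push_cast
  ring

theorem vol_image_le' {Ψ : ℝ × ℝ → ℂ} {S : Set (ℝ × ℝ)} {L : ℝ≥0} (hΨ : LipschitzOnWith L Ψ S) :
    volume (Ψ '' S) ≤ (L : ℝ≥0∞) ^ 2 * volume S := by
  have h1 := Lip_prod (Complex.lipschitz_equivRealProd.comp_lipschitzOnWith hΨ)
  rwa [image_comp, Lip_vol, one_mul] at h1

theorem lintegral_comp_anti {Φ : ℂ → ℂ} (hm : Measurable Φ)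
    (hΦ : ∀ z w, ‖z - w‖ ≤ 2 * ‖Φ z - Φ w‖) {F : ℂ → ℝ≥0∞} (hF : Measurable F) :
    ∫⁻ z, F (Φ z) ≤ 16 * ∫⁻ z, F z := by
  have hi : Function.Injective Φ := fun z w h => by
    have := hΦ z w
    rwa [h, sub_self, norm_zero, mul_zero, norm_le_zero_iff, sub_eq_zero] at this
  have hl := Function.leftInverse_invFun hi
  have key : volume.map Φ ≤ (16 : ℝ≥0∞) • (volume : Measure ℂ) := by
    refine Measure.le_iff.2 fun E hE => ?_
    rw [Measure.map_apply hm hE, Measure.smul_apply, smul_eq_mul]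
    have h1 : LipschitzOnWith 2 (Function.invFun Φ) (Φ '' (Φ ⁻¹' E)) := by
      refine LipschitzOnWith.of_dist_le_mul ?_
      rintro _ ⟨z, -, rfl⟩ _ ⟨w, -, rfl⟩
      rw [hl, hl, dist_eq_norm, dist_eq_norm]
      exact hΦ z w
    have h2 := vol_image_le (Complex.lipschitz_equivRealProd.comp_lipschitzOnWith h1)
    rw [image_comp, Lip_vol, hl.image_image] at h2
    refine h2.trans (mul_le_mul' (le_of_eq ?_) (measure_mono (image_preimage_subset _ _)))
    push_cast
    norm_num
  rw [← lintegral_map hF hm, ← smul_eq_mul, ← lintegral_smul_measure]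
  exact lintegral_mono' key le_rfl

end Pool.Agent.P.MP_6c0067_an
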