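import Pool.Agent.P.MP_6c0067_an.Dist
import Pool.Agent.P.MP_6c0067_an.Lip

/-! Averaging the upper gradient inequality. Write `g a = G (φ a) * ‖deriv φ a‖ₑ`. For `w` in
the disc and `‖ξ‖ < κ` let `w' = w + (1 - ‖w‖) ξ`. The hypothesis along the segment from `ξ` to
`w'`, whose points are `s w + (1 - s ‖w‖) ξ` and whose length is `≤ 2 ‖w‖`, and along the segment
from `w'` to `w`, whose points are `w + (1 - s) (1 - ‖w‖) ξ` and whose length is `≤ 1 - ‖w‖`, gives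
`u (φ w) ≤ A w ξ + B w ξ`. Integrate over `ξ ∈ ball 0 κ`. `avg_far`: for fixed `s` substitute
`a = s w + (1 - s ‖w‖) ξ` (`lintegral_image_eq_lintegral_abs_det_fderiv_mul`, or
`Measure.addHaar` scaling lemmas such as `lintegral_comp_smul` and translation invariance), then
`ker_bound`. `avg_near`: for fixed `s`, `ξ` the map `Φ w = w + (1 - s) (1 - ‖w‖) ξ` satisfies the
hypothesis of `lintegral_comp_anti`, maps the disc to itself, and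
`‖deriv φ w‖ ^ 2 (1 - ‖w‖) ≤ 64 R * 384 exp 128 * ‖deriv φ (Φ w)‖` (`RM.lower`, `RM.deriv_near`);
apply it to the indicator of the disc times `G (φ a) ‖deriv φ a‖ ^ 2`, then `RM.cv`.
`averaging`: divide by the area `π κ ^ 2`, integrate over `E` with `w = ψ z`, and use `RM.cv` for
the second term. -/

open Set MeasureTheory Metric
open scoped ENNReal NNReal

namespace Pool.Agent.P.MP_6c0067_an

open Classical

variable {D : Set ℂ} {φ ψ : ℂ → ℂ}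

theorem avg_subst {g : ℂ → ℝ≥0∞} (hg : Measurable g) (c : ℂ) {τ : ℝ} (hτ : 0 < τ) (κ : ℝ) :
    ∫⁻ ξ in ball (0 : ℂ) κ, g (c + (τ : ℂ) * ξ) =
      ENNReal.ofReal (τ ^ 2)⁻¹ * ∫⁻ a in ball c (κ * τ), g a := by
  set F : ℂ → ℝ≥0∞ := (ball c (κ * τ)).indicator g with hF
  have hFm : Measurable F := hg.indicator measurableSet_ball
  have h1 : ∫⁻ ξ in ball (0 : ℂ) κ, g (c + (τ : ℂ) * ξ) = ∫⁻ ξ, F (c + τ • ξ) := by
    rw [← lintegral_indicator measurableSet_ball]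
    refine lintegral_congr fun ξ => ?_
    have hiff : ξ ∈ ball (0 : ℂ) κ ↔ c + τ • ξ ∈ ball c (κ * τ) := by
      rw [mem_ball_zero_iff, mem_ball, dist_eq_norm, add_sub_cancel_left, norm_smul,
        Real.norm_eq_abs, abs_of_pos hτ, mul_comm τ]
      exact (mul_lt_mul_iff_left₀ hτ).symm
    by_cases hξ : ξ ∈ ball (0 : ℂ) κ
    · rw [indicator_of_mem hξ, hF, indicator_of_mem (hiff.1 hξ), Complex.real_smul]
    · rw [indicator_of_notMem hξ, hF, indicator_of_notMem (fun h => hξ (hiff.2 h))]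
  have h2 : ∫⁻ ξ, F (c + τ • ξ) = ∫⁻ ξ, F (c + ξ) ∂(Measure.map (τ • ·) volume) := by
    exact (lintegral_map (f := fun ξ => F (c + ξ)) (hFm.comp (measurable_const_add c))
      (measurable_const_smul τ)).symm
  rw [h1, h2, Measure.map_addHaar_smul volume hτ.ne', lintegral_smul_measure,
    lintegral_add_left_eq_self F c, Complex.finrank_real_complex,
    abs_of_pos (inv_pos.2 (pow_pos hτ 2)), hF, lintegral_indicator measurableSet_ball, smul_eq_mul]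

theorem avg_far {g : ℂ → ℝ≥0∞} (hg : Measurable g) {w : ℂ} (hw : w ∈ ball (0 : ℂ) 1) {κ : ℝ}
    (h1 : κ ≤ 1 / 2) :
    ∫⁻ ξ in ball (0 : ℂ) κ, ∫⁻ s in Icc (0 : ℝ) 1,
      g ((s : ℂ) * w + ((1 - s * ‖w‖ : ℝ) : ℂ) * ξ) * ENNReal.ofReal (2 * ‖w‖) ≤ 6 * T g w := by
  have hw1 : ‖w‖ < 1 := mem_ball_zero_iff.1 hw
  have hm : Measurable (Function.uncurry fun (ξ : ℂ) (s : ℝ) =>
      g ((s : ℂ) * w + ((1 - s * ‖w‖ : ℝ) : ℂ) * ξ) * ENNReal.ofReal (2 * ‖w‖)) := by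
    refine Measurable.mul_const (hg.comp ?_) _
    fun_prop
  rw [lintegral_lintegral_swap hm.aemeasurable]
  have h2 : ∫⁻ s in Icc (0 : ℝ) 1, ∫⁻ ξ in ball (0 : ℂ) κ,
      g ((s : ℂ) * w + ((1 - s * ‖w‖ : ℝ) : ℂ) * ξ) * ENNReal.ofReal (2 * ‖w‖) =
      ∫⁻ s in Icc (0 : ℝ) 1, 2 * (ENNReal.ofReal (‖w‖ / (1 - s * ‖w‖) ^ 2) *
        ∫⁻ a in ball ((s : ℂ) * w) (κ * (1 - s * ‖w‖)), g a) := by
    refine setLIntegral_congr_fun measurableSet_Icc fun s hs => ?_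
    have hτ : 0 < 1 - s * ‖w‖ := by
      have := mul_le_of_le_one_left (norm_nonneg w) hs.2
      linarith
    rw [lintegral_mul_const' _ _ ENNReal.ofReal_ne_top, avg_subst hg _ hτ,
      ENNReal.ofReal_mul (by norm_num : (0 : ℝ) ≤ 2), ENNReal.ofReal_ofNat, div_eq_mul_inv,
      ENNReal.ofReal_mul (norm_nonneg w)]
    ring
  rw [h2, lintegral_const_mul' _ _ (by norm_num)]
  calc _ ≤ 2 * (3 * T g w) := by
        gcongr
        exact ker_bound hg hw h1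
    _ = 6 * T g w := by rw [← mul_assoc]; norm_num

theorem avg_mem {w ξ : ℂ} (hw : w ∈ ball (0 : ℂ) 1) (hξ : ‖ξ‖ ≤ 1 / 2) :
    ‖w + ((1 - ‖w‖ : ℝ) : ℂ) * ξ - w‖ ≤ (1 - ‖w‖) / 2 ∧
      w + ((1 - ‖w‖ : ℝ) : ℂ) * ξ ∈ ball (0 : ℂ) 1 := by
  have hw1 : ‖w‖ < 1 := mem_ball_zero_iff.1 hw
  have h1 : ‖((1 - ‖w‖ : ℝ) : ℂ) * ξ‖ ≤ (1 - ‖w‖) / 2 := by
    rw [norm_mul, Complex.norm_real, Real.norm_eq_abs, abs_of_pos (by linarith)]
    nlinarith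
  refine ⟨by rwa [add_sub_cancel_left], ?_⟩
  rw [mem_ball_zero_iff]
  have := norm_add_le w (((1 - ‖w‖ : ℝ) : ℂ) * ξ)
  linarith

theorem avg_near (h : Dom D) (r : RM D φ ψ) {R : ℝ} (hR : ∀ x, dl D x ≤ R) {G : ℂ → ℝ≥0∞}
    (hG : Measurable G) {ξ : ℂ} (hξ : ‖ξ‖ ≤ 1 / 2) :
    ∫⁻ w in ball (0 : ℂ) 1, (G (φ (w + ((1 - ‖w‖ : ℝ) : ℂ) * ξ)) *
        ‖deriv φ (w + ((1 - ‖w‖ : ℝ) : ℂ) * ξ)‖ₑ * ENNReal.ofReal (1 - ‖w‖)) * ‖deriv φ w‖ₑ ^ 2 ≤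
      ENNReal.ofReal (16 * (64 * R * (384 * Real.exp 128))) * ∫⁻ y in D, G y := by
  have hR0 : 0 ≤ R := le_trans infDist_nonneg (hR 0)
  set K : ℝ := 64 * R * (384 * Real.exp 128) with hK
  have hK0 : 0 ≤ K := by positivity
  set Φ : ℂ → ℂ := fun w => w + ((1 - ‖w‖ : ℝ) : ℂ) * ξ with hΦ
  have hΦm : Measurable Φ := by
    simp only [hΦ]
    fun_prop
  have hanti : ∀ z w, ‖z - w‖ ≤ 2 * ‖Φ z - Φ w‖ := by
    intro z w
    have e : z - w = (Φ z - Φ w) + ((‖z‖ - ‖w‖ : ℝ) : ℂ) * ξ := by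
      simp only [hΦ]
      push_cast
      ring
    have h1 : ‖((‖z‖ - ‖w‖ : ℝ) : ℂ) * ξ‖ ≤ ‖z - w‖ * (1 / 2) := by
      rw [norm_mul, Complex.norm_real, Real.norm_eq_abs]
      exact mul_le_mul (abs_norm_sub_norm_le z w) hξ (norm_nonneg _) (norm_nonneg _)
    have h2 := norm_add_le (Φ z - Φ w) (((‖z‖ - ‖w‖ : ℝ) : ℂ) * ξ)
    rw [← e] at h2
    linarith
  set F : ℂ → ℝ≥0∞ := (ball (0 : ℂ) 1).indicator fun a => G (φ a) * ‖deriv φ a‖ₑ ^ 2 with hF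
  have hFm : Measurable F :=
    ((hG.comp r.mφ).mul ((measurable_deriv φ).enorm.pow_const 2)).indicator measurableSet_ball
  have hpt : ∀ w ∈ ball (0 : ℂ) 1, (G (φ (Φ w)) * ‖deriv φ (Φ w)‖ₑ * ENNReal.ofReal (1 - ‖w‖)) *
      ‖deriv φ w‖ₑ ^ 2 ≤ ENNReal.ofReal K * F (Φ w) := by
    intro w hw
    have hw1 : ‖w‖ < 1 := mem_ball_zero_iff.1 hw
    obtain ⟨h1, h2⟩ := avg_mem hw hξ
    have h3 := r.deriv_near h hw h1
    have h4 := r.lower w hw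
    have h5 : (1 - ‖w‖) * ‖deriv φ w‖ ^ 2 ≤ K * ‖deriv φ (Φ w)‖ := by
      have h6 : (1 - ‖w‖) * ‖deriv φ w‖ ≤ 64 * R := h4.trans (by linarith [hR (φ w)])
      calc (1 - ‖w‖) * ‖deriv φ w‖ ^ 2 = ((1 - ‖w‖) * ‖deriv φ w‖) * ‖deriv φ w‖ := by ring
        _ ≤ (64 * R) * (384 * Real.exp 128 * ‖deriv φ (Φ w)‖) :=
          mul_le_mul h6 h3 (norm_nonneg _) (by positivity)
        _ = K * ‖deriv φ (Φ w)‖ := by rw [hK]; ring
    have h7 : ENNReal.ofReal (1 - ‖w‖) * ‖deriv φ w‖ₑ ^ 2 ≤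
        ENNReal.ofReal K * ‖deriv φ (Φ w)‖ₑ := by
      rw [← ofReal_norm, ← ofReal_norm, ← ENNReal.ofReal_pow (norm_nonneg _),
        ← ENNReal.ofReal_mul (by linarith), ← ENNReal.ofReal_mul hK0]
      exact ENNReal.ofReal_le_ofReal h5
    have h8 : F (Φ w) = G (φ (Φ w)) * ‖deriv φ (Φ w)‖ₑ ^ 2 := by
      rw [hF, indicator_of_mem h2]
    rw [h8]
    calc (G (φ (Φ w)) * ‖deriv φ (Φ w)‖ₑ * ENNReal.ofReal (1 - ‖w‖)) * ‖deriv φ w‖ₑ ^ 2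
        = (G (φ (Φ w)) * ‖deriv φ (Φ w)‖ₑ) * (ENNReal.ofReal (1 - ‖w‖) * ‖deriv φ w‖ₑ ^ 2) := by
          ring
      _ ≤ (G (φ (Φ w)) * ‖deriv φ (Φ w)‖ₑ) * (ENNReal.ofReal K * ‖deriv φ (Φ w)‖ₑ) := by
          gcongr
      _ = _ := by ring
  calc _ ≤ ∫⁻ w in ball (0 : ℂ) 1, ENNReal.ofReal K * F (Φ w) :=
        setLIntegral_mono' measurableSet_ball hpt
    _ ≤ ∫⁻ w, ENNReal.ofReal K * F (Φ w) := setLIntegral_le_lintegral _ _
    _ = ENNReal.ofReal K * ∫⁻ w, F (Φ w) := lintegral_const_mul' _ _ ENNReal.ofReal_ne_top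
    _ ≤ ENNReal.ofReal K * (16 * ∫⁻ w, F w) := by
        gcongr
        exact lintegral_comp_anti hΦm hanti hFm
    _ = _ := by
        rw [hF, lintegral_indicator measurableSet_ball, ← r.cv G,
          ENNReal.ofReal_mul (by norm_num : (0 : ℝ) ≤ 16), ENNReal.ofReal_ofNat]
        ring

theorem avg_point {u G : ℂ → ℝ≥0∞} {κ : ℝ} (h1 : κ ≤ 1 / 2)
    (hu0 : ∀ ξ ∈ ball (0 : ℂ) κ, u (φ ξ) = 0)
    (hug : ∀ ζ ∈ ball (0 : ℂ) 1, ∀ ζ' ∈ ball (0 : ℂ) 1, u (φ ζ') ≤ u (φ ζ) +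
        ∫⁻ s in Icc (0 : ℝ) 1, G (φ (ζ + s * (ζ' - ζ))) *
          ENNReal.ofReal (‖deriv φ (ζ + s * (ζ' - ζ))‖ * ‖ζ' - ζ‖))
    {w : ℂ} (hw : w ∈ ball (0 : ℂ) 1) {ξ : ℂ} (hξ : ξ ∈ ball (0 : ℂ) κ) :
    u (φ w) ≤ (∫⁻ s in Icc (0 : ℝ) 1,
        (G (φ ((s : ℂ) * w + ((1 - s * ‖w‖ : ℝ) : ℂ) * ξ)) *
          ‖deriv φ ((s : ℂ) * w + ((1 - s * ‖w‖ : ℝ) : ℂ) * ξ)‖ₑ) * ENNReal.ofReal (2 * ‖w‖)) +
      ∫⁻ s in Icc (0 : ℝ) 1, G (φ (w + ((1 - ‖w‖ : ℝ) : ℂ) * (((1 - s : ℝ) : ℂ) * ξ))) *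
        ‖deriv φ (w + ((1 - ‖w‖ : ℝ) : ℂ) * (((1 - s : ℝ) : ℂ) * ξ))‖ₑ *
          ENNReal.ofReal (1 - ‖w‖) := by
  have hw1 : ‖w‖ < 1 := mem_ball_zero_iff.1 hw
  have hξ1 : ‖ξ‖ ≤ 1 / 2 := (mem_ball_zero_iff.1 hξ).le.trans h1
  have hξ2 : ξ ∈ ball (0 : ℂ) 1 := mem_ball_zero_iff.2 (by linarith)
  obtain ⟨h2, h3⟩ := avg_mem hw hξ1
  set w' : ℂ := w + ((1 - ‖w‖ : ℝ) : ℂ) * ξ with hw'
  have hA := hug ξ hξ2 w' h3
  have hB := hug w' h3 w hw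
  rw [hu0 ξ hξ, zero_add] at hA
  refine hB.trans (add_le_add (hA.trans ?_) ?_)
  · refine lintegral_mono fun s => ?_
    have e : ξ + s * (w' - ξ) = (s : ℂ) * w + ((1 - s * ‖w‖ : ℝ) : ℂ) * ξ := by
      rw [hw']
      push_cast
      ring
    have hn : ‖w' - ξ‖ ≤ 2 * ‖w‖ := by
      have e2 : w' - ξ = w - ((‖w‖ : ℝ) : ℂ) * ξ := by
        rw [hw']
        push_cast
        ring
      have h4 := norm_sub_le w (((‖w‖ : ℝ) : ℂ) * ξ)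
      rw [norm_mul, Complex.norm_real, norm_norm] at h4
      rw [e2]
      nlinarith [norm_nonneg w]
    simp only
    rw [e, ENNReal.ofReal_mul (norm_nonneg _), ofReal_norm, ← mul_assoc]
    gcongr
  · refine lintegral_mono fun s => ?_
    have e : w' + s * (w - w') = w + ((1 - ‖w‖ : ℝ) : ℂ) * (((1 - s : ℝ) : ℂ) * ξ) := by
      rw [hw']
      push_cast
      ring
    have hn : ‖w - w'‖ ≤ 1 - ‖w‖ := by
      rw [norm_sub_rev]
      linarith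
    simp only
    rw [e, ENNReal.ofReal_mul (norm_nonneg _), ofReal_norm, ← mul_assoc]
    gcongr

theorem averaging (h : Dom D) (r : RM D φ ψ) (hv : volume D ≠ ⊤) {κ : ℝ} (h0 : 0 < κ)
    (h1 : κ ≤ 1 / 2) : ∃ C : ℝ≥0, ∀ u G : ℂ → ℝ≥0∞, Measurable u → Measurable G →
      (∀ ξ ∈ ball (0 : ℂ) κ, u (φ ξ) = 0) →
      (∀ ζ ∈ ball (0 : ℂ) 1, ∀ ζ' ∈ ball (0 : ℂ) 1, u (φ ζ') ≤ u (φ ζ) +
        ∫⁻ s in Icc (0 : ℝ) 1, G (φ (ζ + s * (ζ' - ζ))) *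
          ENNReal.ofReal (‖deriv φ (ζ + s * (ζ' - ζ))‖ * ‖ζ' - ζ‖)) →
      ∀ E, MeasurableSet E → E ⊆ D → ∫⁻ z in E, u z ≤
        C * (∫⁻ z in E, T (fun a => G (φ a) * ‖deriv φ a‖ₑ) (ψ z)) + C * ∫⁻ y in D, G y := by
  obtain ⟨R, -, hR⟩ := dl_bdd hv
  set V : ℝ≥0∞ := volume (ball (0 : ℂ) κ) with hV
  have hV0 : V ≠ 0 := (measure_ball_pos volume 0 h0).ne'
  have hVt : V ≠ ⊤ := measure_ball_lt_top.ne
  set K : ℝ≥0∞ := ENNReal.ofReal (16 * (64 * R * (384 * Real.exp 128))) with hK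
  have hKt : K ≠ ⊤ := ENNReal.ofReal_ne_top
  have hCt : 6 * V⁻¹ + K ≠ ⊤ :=
    ENNReal.add_ne_top.2 ⟨ENNReal.mul_ne_top (by norm_num) (ENNReal.inv_ne_top.2 hV0), hKt⟩
  refine ⟨(6 * V⁻¹ + K).toNNReal, fun u G hu hG hu0 hug E hE hED => ?_⟩
  have _ := hu
  rw [ENNReal.coe_toNNReal hCt]
  set g : ℂ → ℝ≥0∞ := fun a => G (φ a) * ‖deriv φ a‖ₑ with hg
  have hgm : Measurable g := (hG.comp r.mφ).mul (measurable_deriv φ).enorm
  set B : ℂ → ℂ → ℝ → ℝ≥0∞ := fun w ξ s =>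
    g (w + ((1 - ‖w‖ : ℝ) : ℂ) * (((1 - s : ℝ) : ℂ) * ξ)) * ENNReal.ofReal (1 - ‖w‖) with hB
  have hBm : Measurable fun p : (ℂ × ℂ) × ℝ => B p.1.1 p.1.2 p.2 := by
    refine Measurable.mul (hgm.comp ?_) (ENNReal.measurable_ofReal.comp ?_)
    · fun_prop
    · fun_prop
  set Bt : ℂ → ℝ≥0∞ := fun w => ∫⁻ ξ in ball (0 : ℂ) κ, ∫⁻ s in Icc (0 : ℝ) 1, B w ξ s with hBt
  have hpt : ∀ w ∈ ball (0 : ℂ) 1, V * u (φ w) ≤ 6 * T g w + Bt w := by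
    intro w hw
    have hAm : Measurable fun ξ : ℂ => ∫⁻ s in Icc (0 : ℝ) 1,
        g ((s : ℂ) * w + ((1 - s * ‖w‖ : ℝ) : ℂ) * ξ) * ENNReal.ofReal (2 * ‖w‖) := by
      refine Measurable.lintegral_prod_right ?_
      refine Measurable.mul_const (hgm.comp ?_) _
      fun_prop
    calc V * u (φ w) = ∫⁻ _ in ball (0 : ℂ) κ, u (φ w) := by
          rw [setLIntegral_const, mul_comm]
      _ ≤ ∫⁻ ξ in ball (0 : ℂ) κ, ((∫⁻ s in Icc (0 : ℝ) 1,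
          g ((s : ℂ) * w + ((1 - s * ‖w‖ : ℝ) : ℂ) * ξ) * ENNReal.ofReal (2 * ‖w‖)) +
            ∫⁻ s in Icc (0 : ℝ) 1, B w ξ s) :=
          setLIntegral_mono' measurableSet_ball fun ξ hξ => avg_point h1 hu0 hug hw hξ
      _ = _ + Bt w := lintegral_add_left hAm _
      _ ≤ 6 * T g w + Bt w := by
          gcongr
          exact avg_far hgm hw h1
  have hdm : Measurable fun a : ℂ => ‖deriv φ a‖ₑ ^ 2 := (measurable_deriv φ).enorm.pow_const 2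
  have hsecond : ∫⁻ z in D, Bt (ψ z) ≤ V * (K * ∫⁻ y in D, G y) := by
    rw [r.cv]
    have hm1 : Measurable fun p : (ℂ × ℂ) × ℝ => B p.1.1 p.1.2 p.2 * ‖deriv φ p.1.1‖ₑ ^ 2 :=
      hBm.mul (hdm.comp (measurable_fst.comp measurable_fst))
    calc ∫⁻ a in ball (0 : ℂ) 1, Bt (ψ (φ a)) * ‖deriv φ a‖ₑ ^ 2
        = ∫⁻ a in ball (0 : ℂ) 1, ∫⁻ ξ in ball (0 : ℂ) κ, ∫⁻ s in Icc (0 : ℝ) 1,
            B a ξ s * ‖deriv φ a‖ₑ ^ 2 := by
          refine setLIntegral_congr_fun measurableSet_ball fun a ha => ?_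
          have hne : ‖deriv φ a‖ₑ ^ 2 ≠ ⊤ := ENNReal.pow_ne_top enorm_ne_top
          rw [r.left a ha, hBt]
          simp only
          rw [← lintegral_mul_const' _ _ hne]
          refine lintegral_congr fun ξ => ?_
          rw [← lintegral_mul_const' _ _ hne]
      _ = ∫⁻ ξ in ball (0 : ℂ) κ, ∫⁻ a in ball (0 : ℂ) 1, ∫⁻ s in Icc (0 : ℝ) 1,
            B a ξ s * ‖deriv φ a‖ₑ ^ 2 := by
          refine lintegral_lintegral_swap (Measurable.aemeasurable ?_)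
          exact hm1.lintegral_prod_right'
      _ ≤ ∫⁻ _ in ball (0 : ℂ) κ, K * ∫⁻ y in D, G y := by
          refine setLIntegral_mono' measurableSet_ball fun ξ hξ => ?_
          have hξ1 : ‖ξ‖ ≤ 1 / 2 := (mem_ball_zero_iff.1 hξ).le.trans h1
          have hm2 : Measurable (Function.uncurry fun (a : ℂ) (s : ℝ) =>
              B a ξ s * ‖deriv φ a‖ₑ ^ 2) :=
            hm1.comp ((measurable_fst.prodMk measurable_const).prodMk measurable_snd)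
          rw [lintegral_lintegral_swap hm2.aemeasurable]
          calc _ ≤ ∫⁻ _ in Icc (0 : ℝ) 1, K * ∫⁻ y in D, G y := by
                refine setLIntegral_mono' measurableSet_Icc fun s hs => ?_
                have hξ2 : ‖((1 - s : ℝ) : ℂ) * ξ‖ ≤ 1 / 2 := by
                  rw [norm_mul, Complex.norm_real, Real.norm_eq_abs,
                    abs_of_nonneg (by linarith [hs.2])]
                  nlinarith [hs.1, hs.2, norm_nonneg ξ]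
                exact avg_near h r hR hG hξ2
            _ = _ := by simp
      _ = V * (K * ∫⁻ y in D, G y) := by rw [setLIntegral_const, mul_comm]
  have hTm : Measurable fun z => 6 * T g (ψ z) := ((meas_T hgm).comp r.mψ).const_mul 6
  have hmain : V * ∫⁻ z in E, u z ≤
      6 * (∫⁻ z in E, T g (ψ z)) + V * (K * ∫⁻ y in D, G y) := by
    calc V * ∫⁻ z in E, u z = ∫⁻ z in E, V * u z := (lintegral_const_mul' _ _ hVt).symm
      _ ≤ ∫⁻ z in E, (6 * T g (ψ z) + Bt (ψ z)) := by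
          refine setLIntegral_mono' hE fun z hz => ?_
          have := hpt (ψ z) (r.maps' (hED hz))
          rwa [r.right z (hED hz)] at this
      _ = (∫⁻ z in E, 6 * T g (ψ z)) + ∫⁻ z in E, Bt (ψ z) := lintegral_add_left hTm _
      _ ≤ 6 * (∫⁻ z in E, T g (ψ z)) + V * (K * ∫⁻ y in D, G y) := by
          rw [lintegral_const_mul' _ _ (by norm_num)]
          gcongr
          exact (lintegral_mono_set hED).trans hsecond
  calc ∫⁻ z in E, u z = V⁻¹ * (V * ∫⁻ z in E, u z) := by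
        rw [← mul_assoc, ENNReal.inv_mul_cancel hV0 hVt, one_mul]
    _ ≤ V⁻¹ * (6 * (∫⁻ z in E, T g (ψ z)) + V * (K * ∫⁻ y in D, G y)) := by gcongr
    _ = 6 * V⁻¹ * (∫⁻ z in E, T g (ψ z)) + K * ∫⁻ y in D, G y := by
        rw [mul_add, ← mul_assoc V⁻¹ V, ENNReal.inv_mul_cancel hV0 hVt, one_mul]
        ring
    _ ≤ _ := by
        gcongr
        · exact le_self_add
        · exact le_add_self

end Pool.Agent.P.MP_6c0067_an
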