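import Pool.Agent.P.MP_6c0067_an.Defs

/-! Orthogonality of the monomials on the unit disc (polar coordinates,
`Complex.integral_comp_polarCoord_symm`): the integral of `a ^ n * conj a ^ m` is `π / (n + 1)` if
`n = m` and `0` otherwise. `sq_poly` follows by expanding the square. `bessel`: let `c n` be the
moments, `S` the left side, `Q a = ∑ (n + 1) c n a ^ n`; then the integral of `g * conj Q` is `S`
and the integral of `‖Q‖ ^ 2` is `π S`; use `2 π |g| ‖Q‖ ≤ π ^ 2 g ^ 2 + ‖Q‖ ^ 2`. -/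

open Set MeasureTheory Metric
open scoped ENNReal NNReal

namespace Pool.Agent.P.MP_6c0067_an

open Classical

variable {D : Set ℂ} {φ ψ : ℂ → ℂ}

theorem Mono_int {E : Type*} [NormedAddCommGroup E] {F : ℂ → E} (hF : Continuous F) :
    IntegrableOn F (ball (0 : ℂ) 1) :=
  (hF.continuousOn.integrableOn_compact (isCompact_closedBall 0 1)).mono_set ball_subset_closedBall

theorem Mono_rad (n : ℕ) : ∫ a in ball (0 : ℂ) 1, ‖a‖ ^ (2 * n) = Real.pi / (n + 1) := by
  have h := integral_fun_norm_addHaar (volume : Measure ℂ)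
    ((Iio (1 : ℝ)).indicator fun y : ℝ => y ^ (2 * n))
  have e1 : (fun x : ℂ => (Iio (1 : ℝ)).indicator (fun y : ℝ => y ^ (2 * n)) ‖x‖) =
      (ball (0 : ℂ) 1).indicator fun a => ‖a‖ ^ (2 * n) := by
    funext x
    by_cases hx : ‖x‖ < 1 <;> simp [indicator, hx]
  have e2 : (fun y : ℝ => y ^ (Module.finrank ℝ ℂ - 1) •
      (Iio (1 : ℝ)).indicator (fun y : ℝ => y ^ (2 * n)) y) =
      (Iio (1 : ℝ)).indicator fun y => y ^ (2 * n + 1) := by
    funext y
    by_cases hy : y < 1 <;> simp [indicator, hy, pow_succ']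
  rw [e1, e2, integral_indicator measurableSet_ball, setIntegral_indicator measurableSet_Iio,
    Ioi_inter_Iio, ← integral_Ioc_eq_integral_Ioo, ← intervalIntegral.integral_of_le zero_le_one,
    integral_pow] at h
  rw [h]
  simp [Measure.real]
  field_simp
  ring

theorem Mono_rot (F : ℂ → ℂ) (u : Circle) :
    ∫ a in ball (0 : ℂ) 1, F (u * a) = ∫ a in ball (0 : ℂ) 1, F a := by
  have h := (rotation u).measurePreserving.setIntegral_preimage_emb
    (rotation u).toHomeomorph.measurableEmbedding F (ball (0 : ℂ) 1)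
  have e : rotation u ⁻¹' ball (0 : ℂ) 1 = ball (0 : ℂ) 1 := by
    ext a
    rw [mem_preimage, mem_ball_zero_iff, mem_ball_zero_iff, LinearIsometryEquiv.norm_map]
  rwa [e] at h

theorem mono_orth (n m : ℕ) : ∫ a in ball (0 : ℂ) 1, a ^ n * (starRingEnd ℂ) a ^ m =
    if n = m then ((Real.pi / (n + 1) : ℝ) : ℂ) else 0 := by
  split_ifs with h
  · subst h
    rw [← Mono_rad, ← integral_complex_ofReal]
    refine congrArg _ (funext fun a => ?_)
    rw [← mul_pow, Complex.mul_conj', pow_mul]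
    push_cast
    rfl
  · have h0 : (n : ℝ) - m ≠ 0 := sub_ne_zero.2 (by exact_mod_cast h)
    have h1 := Mono_rot (fun a => a ^ n * (starRingEnd ℂ) a ^ m) (Circle.exp (Real.pi / (n - m)))
    have h2 : ((Circle.exp (Real.pi / (n - m)) : Circle) : ℂ) ^ n *
        (starRingEnd ℂ) ((Circle.exp (Real.pi / (n - m)) : Circle) : ℂ) ^ m = -1 := by
      have h3 : (n : ℂ) - m ≠ 0 := by exact_mod_cast h0
      rw [Circle.coe_exp, ← Complex.exp_conj, ← Complex.exp_nat_mul, ← Complex.exp_nat_mul,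
        ← Complex.exp_add, ← Complex.exp_pi_mul_I, map_mul, Complex.conj_ofReal, Complex.conj_I]
      congr 1
      push_cast
      field_simp
      ring
    have h3 : ∀ u a : ℂ, (u * a) ^ n * (starRingEnd ℂ) (u * a) ^ m =
        (u ^ n * (starRingEnd ℂ) u ^ m) * (a ^ n * (starRingEnd ℂ) a ^ m) := fun u a => by
      rw [map_mul]
      ring
    simp only [h3, h2, integral_const_mul] at h1
    linear_combination (-1 / 2 : ℂ) * h1

theorem Mono_sq (c : ℕ → ℂ) (N : ℕ) :
    ∫ a in ball (0 : ℂ) 1, ‖∑ n ∈ Finset.range N, c n * a ^ n‖ ^ 2 =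
      ∑ n ∈ Finset.range N, Real.pi / (n + 1) * ‖c n‖ ^ 2 := by
  apply Complex.ofReal_injective
  rw [← integral_complex_ofReal]
  have e : ∀ a : ℂ, ((‖∑ n ∈ Finset.range N, c n * a ^ n‖ ^ 2 : ℝ) : ℂ) =
      ∑ n ∈ Finset.range N, ∑ m ∈ Finset.range N,
        c n * (starRingEnd ℂ) (c m) * (a ^ n * (starRingEnd ℂ) a ^ m) := fun a => by
    rw [Complex.ofReal_pow, ← Complex.mul_conj', map_sum, Finset.sum_mul_sum]
    refine Finset.sum_congr rfl fun n _ => Finset.sum_congr rfl fun m _ => ?_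
    rw [map_mul, map_pow]
    ring
  simp only [e]
  rw [integral_finsetSum _ fun n _ => Mono_int (by fun_prop), Complex.ofReal_sum]
  refine Finset.sum_congr rfl fun n hn => ?_
  rw [integral_finsetSum _ fun m _ => Mono_int (by fun_prop)]
  simp only [integral_const_mul, mono_orth, mul_ite, mul_zero, Finset.sum_ite_eq, hn, if_true]
  rw [Complex.mul_conj']
  push_cast
  ring

theorem sq_poly (c : ℕ → ℂ) (N : ℕ) :
    ∫⁻ a in ball (0 : ℂ) 1, ‖∑ n ∈ Finset.range N, c n * a ^ n‖ₑ ^ 2 =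
      ENNReal.ofReal (∑ n ∈ Finset.range N, Real.pi / (n + 1) * ‖c n‖ ^ 2) := by
  rw [← Mono_sq, ofReal_integral_eq_lintegral_ofReal (Mono_int (by fun_prop))
    (ae_of_all _ fun a => by positivity)]
  refine lintegral_congr fun a => ?_
  rw [ENNReal.ofReal_pow (norm_nonneg _), ofReal_norm]

theorem bessel {g : ℂ → ℝ} (hg : MemLp g 2 (volume.restrict (ball (0 : ℂ) 1))) (N : ℕ) :
    ∑ n ∈ Finset.range N, ((n : ℝ) + 1) *
        ‖∫ a in ball (0 : ℂ) 1, (g a : ℂ) * (starRingEnd ℂ) a ^ n‖ ^ 2 ≤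
      Real.pi * ∫ a in ball (0 : ℂ) 1, g a ^ 2 := by
  have : IsFiniteMeasure (volume.restrict (ball (0 : ℂ) 1)) :=
    isFiniteMeasure_restrict.2 measure_ball_lt_top.ne
  set c : ℕ → ℂ := fun n => ∫ a in ball (0 : ℂ) 1, (g a : ℂ) * (starRingEnd ℂ) a ^ n with hc
  set S := ∑ n ∈ Finset.range N, ((n : ℝ) + 1) * ‖c n‖ ^ 2 with hS
  set Q : ℂ → ℂ := fun a => ∑ n ∈ Finset.range N, ((n : ℂ) + 1) * c n * a ^ n with hQ
  have cQ : Continuous Q := by fun_prop
  have g1 : IntegrableOn (fun a => (g a : ℂ)) (ball (0 : ℂ) 1) :=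
    (hg.integrable one_le_two).ofReal
  have gi : ∀ {F : ℂ → ℂ}, Continuous F →
      IntegrableOn (fun a => (g a : ℂ) * F a) (ball (0 : ℂ) 1) := fun hF =>
    g1.mul_continuousOn_of_subset hF.continuousOn measurableSet_ball (isCompact_closedBall 0 1)
      ball_subset_closedBall
  have h1 : ∫ a in ball (0 : ℂ) 1, (g a : ℂ) * (starRingEnd ℂ) (Q a) = S := by
    have e : ∀ a, (g a : ℂ) * (starRingEnd ℂ) (Q a) = ∑ n ∈ Finset.range N,
        ((n : ℂ) + 1) * (starRingEnd ℂ) (c n) * ((g a : ℂ) * (starRingEnd ℂ) a ^ n) := fun a => by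
      rw [hQ, map_sum, Finset.mul_sum]
      refine Finset.sum_congr rfl fun n _ => ?_
      simp only [map_mul, map_add, map_natCast, map_one, map_pow]
      ring
    simp only [e]
    rw [integral_finsetSum _ fun n _ => (gi (by fun_prop)).const_mul _, hS, Complex.ofReal_sum]
    refine Finset.sum_congr rfl fun n _ => ?_
    rw [integral_const_mul, mul_assoc]
    change _ * (_ * c n) = _
    rw [Complex.conj_mul']
    push_cast
    ring
  have h2 : ∫ a in ball (0 : ℂ) 1, ‖Q a‖ ^ 2 = Real.pi * S := by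
    rw [hQ, Mono_sq (fun n => ((n : ℂ) + 1) * c n), hS, Finset.mul_sum]
    refine Finset.sum_congr rfl fun n _ => ?_
    have : ‖(n : ℂ) + 1‖ = n + 1 := by exact_mod_cast Complex.norm_natCast (n + 1)
    rw [norm_mul, this]
    field_simp
  have q2 : IntegrableOn (fun a => ‖Q a‖ ^ 2) (ball (0 : ℂ) 1) := Mono_int (by fun_prop)
  have h3 : 2 * Real.pi * S ≤ Real.pi ^ 2 * (∫ a in ball (0 : ℂ) 1, g a ^ 2) + Real.pi * S := by
    have h4 := norm_integral_le_integral_norm (μ := volume.restrict (ball (0 : ℂ) 1))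
      fun a => (g a : ℂ) * (starRingEnd ℂ) (Q a)
    rw [h1, Complex.norm_real] at h4
    refine (mul_le_mul_of_nonneg_left ((le_abs_self S).trans h4) (by positivity)).trans ?_
    rw [← h2, ← integral_const_mul, ← integral_const_mul,
      ← integral_add (hg.integrable_sq.const_mul _) q2]
    refine integral_mono ((gi (by fun_prop)).norm.const_mul _)
      ((hg.integrable_sq.const_mul _).add q2) fun a => ?_
    simp only [norm_mul, Complex.norm_real, Complex.norm_conj, Real.norm_eq_abs]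
    nlinarith [sq_nonneg (Real.pi * |g a| - ‖Q a‖), sq_abs (g a), sq_nonneg Real.pi]
  refine le_of_mul_le_mul_left ?_ Real.pi_pos
  nlinarith

end Pool.Agent.P.MP_6c0067_an
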