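import Pool.Agent.P.MP_6c0067_an.CV
import Pool.Agent.P.MP_6c0067_an.Mono

/-! The analytic inequality bounds the Hardy operator. Let `g` have finite square integral
`I` on the disc (otherwise trivial, take `K ≥ 1`), `g₀ = toReal ∘ g`, `c n` the moments of
`bessel`, `F w = ∫ g₀ a / (1 - conj a * w)` over the disc. For `‖a‖, ‖w‖ < 1` the real part of
`1 / (1 - conj a * w)` is `≥ 0`, and `≥ 1 / (25 (1 - ‖a‖))` for `a ∈ cone w`
(`re (1 - conj a * w) ≥ 1 - ‖a‖` and `‖1 - conj a * w‖ ≤ 1 - ‖a‖ ^ 2 + ‖a - w‖ ≤ 5 (1 - ‖a‖)` by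
`cone_near`). So `T g w ≤ 25 ‖F w‖`. The polynomials `P N w = ∑ n < N, c (n + 1) w ^ (n + 1)`
converge to `F w - c 0` for `‖w‖ < 1` (geometric series, dominated convergence, `g₀` is
integrable). The inequality for `P N ∘ ψ`, whose Dirichlet integral over `D` is that of `P N` over
the disc (`RM.cv`, `RM.deriv_mul`), at most `π ^ 2 I` by `sq_poly` and `bessel`, and Fatou
(`lintegral_liminf_le`) bound the integral of `‖F (ψ z) - c 0‖ ^ 2` over `D` by `K π ^ 2 I`; and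
`‖c 0‖ ^ 2 ≤ π I`, `volume D < ⊤`. -/

open Set MeasureTheory Metric
open scoped ENNReal NNReal

namespace Pool.Agent.P.MP_6c0067_an

open Classical

variable {D : Set ℂ} {φ ψ : ℂ → ℂ}

theorem Berg_add_sq (x y : ℂ) : ‖x + y‖ₑ ^ 2 ≤ 2 * ‖x‖ₑ ^ 2 + 2 * ‖y‖ₑ ^ 2 := by
  have h : ‖x + y‖₊ ^ 2 ≤ 2 * ‖x‖₊ ^ 2 + 2 * ‖y‖₊ ^ 2 :=
    calc ‖x + y‖₊ ^ 2 ≤ (‖x‖₊ + ‖y‖₊) ^ 2 := pow_le_pow_left' (nnnorm_add_le x y) 2
      _ ≤ 2 * (‖x‖₊ ^ 2 + ‖y‖₊ ^ 2) := add_sq_le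
      _ = _ := mul_add _ _ _
  simp only [enorm_eq_nnnorm]
  exact_mod_cast h

theorem Berg_re (a w : ℂ) :
    1 - ‖a‖ * ‖w‖ ≤ (1 - (starRingEnd ℂ) a * w).re := by
  have h := Complex.re_le_norm ((starRingEnd ℂ) a * w)
  rw [norm_mul, Complex.norm_conj] at h
  rw [Complex.sub_re, Complex.one_re]
  linarith

theorem Berg_re_inv {a w : ℂ} (ha : ‖a‖ < 1) (hw : ‖w‖ < 1) :
    0 ≤ ((1 - (starRingEnd ℂ) a * w)⁻¹).re := by
  rw [Complex.inv_re]
  refine div_nonneg ?_ (Complex.normSq_nonneg _)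
  have h1 := Berg_re a w
  have h2 : ‖a‖ * ‖w‖ ≤ 1 := mul_le_one₀ ha.le (norm_nonneg _) hw.le
  linarith

theorem Berg_norm_inv {a w : ℂ} (ha : ‖a‖ < 1) (hw : ‖w‖ < 1) :
    ‖(1 - (starRingEnd ℂ) a * w)⁻¹‖ ≤ (1 - ‖w‖)⁻¹ := by
  rw [norm_inv]
  refine inv_anti₀ (by linarith) ?_
  have h1 := Berg_re a w
  have h2 := Complex.re_le_norm (1 - (starRingEnd ℂ) a * w)
  have h3 : ‖a‖ * ‖w‖ ≤ ‖w‖ := mul_le_of_le_one_left (norm_nonneg _) ha.le
  linarith

theorem Berg_cone {a w : ℂ} (ha : ‖a‖ < 1) (hw : ‖w‖ < 1) (h : ‖a - w‖ ≤ 3 * (1 - ‖a‖)) :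
    (1 - ‖a‖)⁻¹ ≤ 25 * ((1 - (starRingEnd ℂ) a * w)⁻¹).re := by
  have h1 := Berg_re a w
  have h2 := Complex.re_le_norm (1 - (starRingEnd ℂ) a * w)
  have h3 : ‖a‖ * ‖w‖ ≤ ‖a‖ := mul_le_of_le_one_right (norm_nonneg _) hw.le
  have h4 : 0 < 1 - ‖a‖ := by linarith
  have h5 : ‖1 - (starRingEnd ℂ) a * w‖ ≤ 5 * (1 - ‖a‖) := by
    have e : 1 - (starRingEnd ℂ) a * w =
        ((1 - ‖a‖ ^ 2 : ℝ) : ℂ) + (starRingEnd ℂ) a * (a - w) := by
      have := Complex.conj_mul' a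
      push_cast
      linear_combination -this
    have h6 : 0 ≤ 1 - ‖a‖ ^ 2 := by nlinarith [norm_nonneg a]
    have h7 := norm_add_le ((1 - ‖a‖ ^ 2 : ℝ) : ℂ) ((starRingEnd ℂ) a * (a - w))
    rw [← e, Complex.norm_real, Real.norm_of_nonneg h6, norm_mul, Complex.norm_conj] at h7
    have h8 : ‖a‖ * ‖a - w‖ ≤ ‖a - w‖ := mul_le_of_le_one_left (norm_nonneg _) ha.le
    nlinarith [sq_nonneg (1 - ‖a‖)]
  have h9 : 0 < ‖1 - (starRingEnd ℂ) a * w‖ := by linarith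
  rw [Complex.inv_re, Complex.normSq_eq_norm_sq, ← mul_div_assoc, inv_eq_one_div,
    div_le_div_iff₀ h4 (by positivity)]
  have h10 : ‖1 - (starRingEnd ℂ) a * w‖ ^ 2 ≤ (5 * (1 - ‖a‖)) ^ 2 :=
    pow_le_pow_left₀ h9.le h5 2
  have h11 : (1 - ‖a‖) * (1 - ‖a‖) ≤ (1 - (starRingEnd ℂ) a * w).re * (1 - ‖a‖) :=
    mul_le_mul_of_nonneg_right (by linarith) h4.le
  nlinarith

theorem Berg_int {g : ℂ → ℝ} (hg : IntegrableOn g (ball (0 : ℂ) 1)) {k : ℂ → ℂ}
    (hk : Measurable k) {M : ℝ} (hM : ∀ a : ℂ, ‖a‖ < 1 → ‖k a‖ ≤ M) :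
    IntegrableOn (fun a => (g a : ℂ) * k a) (ball (0 : ℂ) 1) :=
  Integrable.mul_bdd (c := M) hg.ofReal hk.aestronglyMeasurable
    (ae_restrict_of_forall_mem measurableSet_ball fun a ha => hM a (mem_ball_zero_iff.1 ha))

theorem Berg_T {g : ℂ → ℝ≥0∞} (hfin : ∀ᵐ a ∂volume.restrict (ball (0 : ℂ) 1), g a ≠ ⊤)
    (hg : IntegrableOn (fun a => (g a).toReal) (ball (0 : ℂ) 1)) {w : ℂ}
    (hw : w ∈ ball (0 : ℂ) 1) : T g w ≤
      25 * ‖∫ a in ball (0 : ℂ) 1, ((g a).toReal : ℂ) * (1 - (starRingEnd ℂ) a * w)⁻¹‖ₑ := by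
  have hw' := mem_ball_zero_iff.1 hw
  have hk : Measurable fun a : ℂ => (1 - (starRingEnd ℂ) a * w)⁻¹ :=
    (continuous_const.sub (Complex.continuous_conj.mul continuous_const)).measurable.inv
  have hi := Berg_int hg hk fun a ha => Berg_norm_inv ha hw'
  have h1 := integral_re hi
  have h2 : Integrable (fun a => RCLike.re (((g a).toReal : ℂ) * (1 - (starRingEnd ℂ) a * w)⁻¹))
      (volume.restrict (ball (0 : ℂ) 1)) := hi.re
  simp only [RCLike.re_to_complex, Complex.re_ofReal_mul] at h1 h2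
  have h3 := ofReal_integral_eq_lintegral_ofReal h2
    (ae_restrict_of_forall_mem measurableSet_ball fun a ha =>
      mul_nonneg ENNReal.toReal_nonneg (Berg_re_inv (mem_ball_zero_iff.1 ha) hw'))
  calc T g w ≤ ∫⁻ a in cone w,
        25 * ENNReal.ofReal ((g a).toReal * ((1 - (starRingEnd ℂ) a * w)⁻¹).re) := by
        refine lintegral_mono_ae ?_
        filter_upwards [ae_restrict_of_ae_restrict_of_subset (cone_subset hw) hfin,
          ae_restrict_mem (cone_meas w)] with a ha ha'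
        have h4 := Berg_cone (mem_ball_zero_iff.1 (cone_subset hw ha')) hw' (cone_near hw ha')
        have h5 := ENNReal.ofReal_le_ofReal h4
        rw [ENNReal.ofReal_mul (by norm_num), ENNReal.ofReal_ofNat] at h5
        rw [ENNReal.ofReal_mul ENNReal.toReal_nonneg, ENNReal.ofReal_toReal ha, mul_left_comm]
        exact mul_le_mul_right h5 _
    _ ≤ ∫⁻ a in ball (0 : ℂ) 1,
        25 * ENNReal.ofReal ((g a).toReal * ((1 - (starRingEnd ℂ) a * w)⁻¹).re) :=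
        lintegral_mono_set (cone_subset hw)
    _ ≤ _ := by
        rw [lintegral_const_mul' _ _ (by norm_num), ← h3, h1, ← ofReal_norm_eq_enorm]
        exact mul_le_mul_right (ENNReal.ofReal_le_ofReal (Complex.re_le_norm _)) _

theorem Berg_sum {g : ℂ → ℝ} (hg : IntegrableOn g (ball (0 : ℂ) 1)) {w : ℂ} (hw : ‖w‖ < 1) :
    HasSum (fun n : ℕ => (∫ a in ball (0 : ℂ) 1, (g a : ℂ) * (starRingEnd ℂ) a ^ n) * w ^ n)
      (∫ a in ball (0 : ℂ) 1, (g a : ℂ) * (1 - (starRingEnd ℂ) a * w)⁻¹) := by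
  have hb : ∀ (n : ℕ) (a : ℂ), ‖a‖ < 1 → ‖((starRingEnd ℂ) a * w) ^ n‖ ≤ ‖w‖ ^ n :=
    fun n a ha => by
      rw [norm_pow, norm_mul, Complex.norm_conj]
      exact pow_le_pow_left₀ (by positivity) (mul_le_of_le_one_left (norm_nonneg _) ha.le) n
  have hi : ∀ n : ℕ, IntegrableOn (fun a => (g a : ℂ) * ((starRingEnd ℂ) a * w) ^ n)
      (ball (0 : ℂ) 1) := fun n =>
    Berg_int hg ((Complex.continuous_conj.mul continuous_const).pow n).measurable (hb n)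
  have hs : Summable fun n : ℕ =>
      ∫ a in ball (0 : ℂ) 1, ‖(g a : ℂ) * ((starRingEnd ℂ) a * w) ^ n‖ := by
    refine Summable.of_nonneg_of_le (fun n => integral_nonneg fun a => norm_nonneg _)
      (fun n => ?_) ((summable_geometric_of_lt_one (norm_nonneg w) hw).mul_left
        (∫ a in ball (0 : ℂ) 1, ‖g a‖))
    rw [← integral_mul_const]
    refine setIntegral_mono_on (hi n).norm (hg.norm.mul_const _) measurableSet_ball fun a ha => ?_
    rw [norm_mul, Complex.norm_real]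
    exact mul_le_mul_of_nonneg_left (hb n a (mem_ball_zero_iff.1 ha)) (norm_nonneg _)
  have h1 := hasSum_integral_of_summable_integral_norm hi hs
  have h2 : ∫ a in ball (0 : ℂ) 1, ∑' n : ℕ, (g a : ℂ) * ((starRingEnd ℂ) a * w) ^ n =
      ∫ a in ball (0 : ℂ) 1, (g a : ℂ) * (1 - (starRingEnd ℂ) a * w)⁻¹ := by
    refine setIntegral_congr_fun measurableSet_ball fun a ha => ?_
    have h3 := hb 1 a (mem_ball_zero_iff.1 ha)
    rw [pow_one, pow_one] at h3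
    rw [tsum_mul_left, tsum_geometric_of_norm_lt_one (h3.trans_lt hw)]
  have h4 : (fun n : ℕ => ∫ a in ball (0 : ℂ) 1, (g a : ℂ) * ((starRingEnd ℂ) a * w) ^ n) =
      fun n : ℕ => (∫ a in ball (0 : ℂ) 1, (g a : ℂ) * (starRingEnd ℂ) a ^ n) * w ^ n := by
    funext n
    rw [← integral_mul_const]
    simp only [mul_pow, mul_assoc]
  rwa [h2, h4] at h1

theorem Berg_poly (h : Dom D) (r : RM D φ ψ) {K : ℝ≥0}
    (hK : ∀ f : ℂ → ℂ, DifferentiableOn ℂ f D → f 0 = 0 →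
      ∫⁻ z in D, ‖f z‖ₑ ^ 2 ≤ K * ∫⁻ z in D, ‖deriv f z‖ₑ ^ 2) (c : ℕ → ℂ) (N : ℕ) :
    ∫⁻ z in D, ‖∑ n ∈ Finset.range N, c n * ψ z ^ (n + 1)‖ₑ ^ 2 ≤
      K * ENNReal.ofReal (∑ n ∈ Finset.range N, Real.pi * ((n + 1) * ‖c n‖ ^ 2)) := by
  have h1 := hK (fun z => ∑ n ∈ Finset.range N, c n * ψ z ^ (n + 1))
    (DifferentiableOn.fun_sum fun n _ => (r.dψ.fun_pow (n + 1)).const_mul (c n))
    (by simp [r.psi_zero])
  refine h1.trans (mul_le_mul_right (le_of_eq ?_) _)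
  have h2 : ∑ n ∈ Finset.range N, Real.pi * ((n + 1) * ‖c n‖ ^ 2) =
      ∑ n ∈ Finset.range N, Real.pi / (n + 1) * ‖((n + 1 : ℕ) : ℂ) * c n‖ ^ 2 := by
    refine Finset.sum_congr rfl fun n _ => ?_
    rw [norm_mul, Complex.norm_natCast]
    push_cast
    field_simp
  rw [r.cv, h2, ← sq_poly]
  refine setLIntegral_congr_fun measurableSet_ball fun a ha => ?_
  have hd : HasDerivAt ψ (deriv ψ (φ a)) (φ a) :=
    (r.dψ.differentiableAt (h.isOpen.mem_nhds (r.maps ha))).hasDerivAt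
  have h3 : HasDerivAt (fun z => ∑ n ∈ Finset.range N, c n * ψ z ^ (n + 1))
      (∑ n ∈ Finset.range N, c n * (((n + 1 : ℕ) : ℂ) * ψ (φ a) ^ (n + 1 - 1) * deriv ψ (φ a)))
      (φ a) := HasDerivAt.fun_sum fun n _ => (hd.fun_pow (n + 1)).const_mul (c n)
  rw [h3.deriv, ← mul_pow, ← enorm_mul, Finset.sum_mul, r.left a ha]
  congr 2
  refine Finset.sum_congr rfl fun n _ => ?_
  rw [Nat.add_sub_cancel]
  linear_combination c n * ((n + 1 : ℕ) : ℂ) * a ^ n * r.deriv_mul h ha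

theorem TB_of_poincare (h : Dom D) (r : RM D φ ψ) (hv : volume D ≠ ⊤) (hP : Poincare D) :
    TB D ψ := by
  obtain ⟨K, hK⟩ := hP
  obtain ⟨V, hV⟩ : ∃ V : ℝ≥0, volume D = V := ⟨_, (ENNReal.coe_toNNReal hv).symm⟩
  refine ⟨625 * (32 * K + 8 * V) + 1, fun g hg => ?_⟩
  obtain ⟨I, hI⟩ : ∃ I, I = ∫⁻ a in ball (0 : ℂ) 1, g a ^ 2 := ⟨_, rfl⟩
  rw [← hI]
  by_cases hItop : I = ⊤
  · rw [hItop, ENNReal.mul_top (by simp)]
    exact le_top
  have hfin : ∀ᵐ a ∂volume.restrict (ball (0 : ℂ) 1), g a ≠ ⊤ := by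
    filter_upwards [ae_lt_top (hg.pow_const 2) (hI ▸ hItop)] with a ha h0
    rw [h0] at ha
    simp at ha
  have hsq : Integrable (fun a => (g a).toReal ^ 2) (volume.restrict (ball (0 : ℂ) 1)) := by
    simp only [← ENNReal.toReal_pow]
    exact integrable_toReal_of_lintegral_ne_top (hg.pow_const 2).aemeasurable (hI ▸ hItop)
  have hL : MemLp (fun a => (g a).toReal) 2 (volume.restrict (ball (0 : ℂ) 1)) :=
    (memLp_two_iff_integrable_sq hg.ennreal_toReal.aestronglyMeasurable).2 hsq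
  have hfm : IsFiniteMeasure (volume.restrict (ball (0 : ℂ) 1)) :=
    isFiniteMeasure_restrict.2 measure_ball_lt_top.ne
  have hint : IntegrableOn (fun a => (g a).toReal) (ball (0 : ℂ) 1) := hL.integrable one_le_two
  have hJ : ∫ a in ball (0 : ℂ) 1, (g a).toReal ^ 2 = I.toReal := by
    rw [hI, ← integral_toReal (hg.pow_const 2).aemeasurable
      (ae_lt_top (hg.pow_const 2) (hI ▸ hItop))]
    simp only [ENNReal.toReal_pow]
  obtain ⟨c, hc⟩ : ∃ c : ℕ → ℂ, c = fun n =>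
      ∫ a in ball (0 : ℂ) 1, ((g a).toReal : ℂ) * (starRingEnd ℂ) a ^ n := ⟨_, rfl⟩
  have hb : ∀ N, ∑ n ∈ Finset.range N, ((n : ℝ) + 1) * ‖c n‖ ^ 2 ≤ 4 * I.toReal := fun N => by
    have h1 := bessel hL N
    rw [hJ] at h1
    rw [hc]
    exact h1.trans (mul_le_mul_of_nonneg_right Real.pi_le_four ENNReal.toReal_nonneg)
  have h0 : ‖c 0‖ₑ ^ 2 ≤ 4 * I := by
    have h1 := ENNReal.ofReal_le_ofReal (hb 1)
    rw [Finset.sum_range_one, Nat.cast_zero, zero_add, one_mul, ENNReal.ofReal_mul (by norm_num),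
      ENNReal.ofReal_ofNat, ENNReal.ofReal_toReal hItop,
      ENNReal.ofReal_pow (norm_nonneg _), ofReal_norm_eq_enorm] at h1
    exact h1
  have hP : ∀ N, ∫⁻ z in D, ‖∑ n ∈ Finset.range N, c (n + 1) * ψ z ^ (n + 1)‖ₑ ^ 2 ≤
      K * (16 * I) := fun N => by
    refine (Berg_poly h r hK (fun n => c (n + 1)) N).trans (mul_le_mul_right ?_ _)
    have h1 := hb (N + 1)
    rw [Finset.sum_range_succ'] at h1
    have h2 : ∑ n ∈ Finset.range N, Real.pi * ((n + 1) * ‖c (n + 1)‖ ^ 2) ≤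
        4 * ∑ n ∈ Finset.range N, (((n + 1 : ℕ) : ℝ) + 1) * ‖c (n + 1)‖ ^ 2 := by
      rw [Finset.mul_sum]
      refine Finset.sum_le_sum fun n _ => mul_le_mul Real.pi_le_four
        (mul_le_mul_of_nonneg_right (by push_cast; linarith) (sq_nonneg _)) (by positivity)
        (by norm_num)
    have h3 : ∑ n ∈ Finset.range N, Real.pi * ((n + 1) * ‖c (n + 1)‖ ^ 2) ≤ 16 * I.toReal := by
      have : 0 ≤ (((0 : ℕ) : ℝ) + 1) * ‖c 0‖ ^ 2 := by positivity
      linarith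
    refine (ENNReal.ofReal_le_ofReal h3).trans (le_of_eq ?_)
    rw [ENNReal.ofReal_mul (by norm_num), ENNReal.ofReal_ofNat, ENNReal.ofReal_toReal hItop]
  have hS : ∀ N, ∫⁻ z in D, ‖∑ n ∈ Finset.range (N + 1), c n * ψ z ^ n‖ₑ ^ 2 ≤
      (32 * K + 8 * V) * I := fun N =>
    calc ∫⁻ z in D, ‖∑ n ∈ Finset.range (N + 1), c n * ψ z ^ n‖ₑ ^ 2
        ≤ ∫⁻ z in D, (2 * ‖∑ n ∈ Finset.range N, c (n + 1) * ψ z ^ (n + 1)‖ₑ ^ 2 +
            2 * (4 * I)) := by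
          refine lintegral_mono fun z => ?_
          rw [Finset.sum_range_succ', pow_zero, mul_one]
          exact (Berg_add_sq _ _).trans (add_le_add le_rfl (mul_le_mul_right h0 _))
      _ ≤ 2 * (K * (16 * I)) + 2 * (4 * I) * V := by
          rw [lintegral_add_right _ measurable_const, lintegral_const_mul' _ _ (by norm_num),
            setLIntegral_const, hV]
          exact add_le_add (mul_le_mul_right (hP N) _) le_rfl
      _ = _ := by ring
  have hm : ∀ N, Measurable fun z => ‖∑ n ∈ Finset.range (N + 1), c n * ψ z ^ n‖ₑ ^ 2 :=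
    fun N => (Finset.measurable_sum _ fun n _ =>
      (r.mψ.pow_const n).const_mul (c n)).enorm.pow_const 2
  calc ∫⁻ z in D, T g (ψ z) ^ 2
      ≤ ∫⁻ z in D, 625 * Filter.liminf
          (fun N => ‖∑ n ∈ Finset.range (N + 1), c n * ψ z ^ n‖ₑ ^ 2) Filter.atTop := by
        refine setLIntegral_mono' h.isOpen.measurableSet fun z hz => ?_
        have h1 := (Berg_sum hint (mem_ball_zero_iff.1 (r.maps' hz))).tendsto_sum_nat.comp
          (Filter.tendsto_add_atTop_nat 1)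
        have h2 := ENNReal.Tendsto.pow (n := 2) h1.enorm
        have h3 := h2.liminf_eq
        simp only [Function.comp_def] at h3
        rw [hc, h3]
        refine (pow_le_pow_left' (Berg_T hfin hint (r.maps' hz)) 2).trans (le_of_eq ?_)
        rw [mul_pow]
        norm_num
    _ ≤ 625 * ((32 * K + 8 * V) * I) := by
        rw [lintegral_const_mul' _ _ (by norm_num)]
        refine mul_le_mul_right ((lintegral_liminf_le hm).trans ?_) _
        exact Filter.liminf_le_of_frequently_le' (Filter.Frequently.of_forall hS)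
    _ ≤ _ := by
        push_cast
        rw [add_mul _ 1, mul_assoc]
        exact le_self_add

end Pool.Agent.P.MP_6c0067_an
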