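import Pool.Agent.P.MP_6c0067_an.Defs

/-! The cone and the kernel of the Hardy operator. If `‖a - s w‖ < τ / 2` with
`τ = 1 - s ‖w‖` then `τ / 2 < 1 - ‖a‖ < 3 τ / 2`. `ker_bound`: Tonelli; for fixed `a` with
`σ = 1 - ‖a‖` the set of admissible `s` is empty unless `a ∈ cone w`, and on it
`2 σ / 3 < 1 - s ‖w‖ < 2 σ`, so it lies in an interval of length `4 σ / (3 ‖w‖)` on which the
weight is at most `9 ‖w‖ / (4 σ ^ 2)` (the case `w = 0` is trivial). `submean`: polar coordinates
(`Complex.lintegral_comp_polarCoord_symm` after a translation) and the mean value property on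
circles (`circleAverage` of a holomorphic function, or the Cauchy formula).
`norm_le_T`: `F w` is the integral over `[0,1]` of `w * deriv F (s w)`; apply `submean` to
`deriv F` on the ball of radius `(1 - s ‖w‖) / 2` about `s w`, then `ker_bound` with `κ = 1 / 2`;
`12 / π ≤ 4`. -/

open Set MeasureTheory Metric
open scoped ENNReal NNReal

namespace Pool.Agent.P.MP_6c0067_an

open Classical

variable {D : Set ℂ} {φ ψ : ℂ → ℂ}

theorem cone_open : IsOpen {p : ℂ × ℂ | p.1 ∈ cone p.2} := by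
  have : {p : ℂ × ℂ | p.1 ∈ cone p.2} =
      ⋃ s ∈ Icc (0 : ℝ) 1, {p : ℂ × ℂ | ‖p.1 - s * p.2‖ < (1 - s * ‖p.2‖) / 2} := by
    ext p
    simp [cone]
  rw [this]
  exact isOpen_biUnion fun s _ => isOpen_lt (by fun_prop) (by fun_prop)

theorem cone_meas (w : ℂ) : MeasurableSet (cone w) :=
  (cone_open.preimage (f := fun a : ℂ => (a, w)) (by fun_prop)).measurableSet

theorem Ker_norm_mul {s : ℝ} (hs : 0 ≤ s) (w : ℂ) : ‖(s : ℂ) * w‖ = s * ‖w‖ := by
  rw [norm_mul, Complex.norm_real, Real.norm_of_nonneg hs]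

theorem Ker_between {s : ℝ} (hs : 0 ≤ s) {w a : ℂ} (h : ‖a - s * w‖ < (1 - s * ‖w‖) / 2) :
    (1 - s * ‖w‖) / 2 < 1 - ‖a‖ ∧ 1 - ‖a‖ < 3 * (1 - s * ‖w‖) / 2 := by
  have h1 := abs_norm_sub_norm_le a (s * w)
  rw [Ker_norm_mul hs, abs_le] at h1
  constructor <;> linarith [h1.1, h1.2]

theorem Ker_tau {s : ℝ} (hs : s ∈ Icc (0 : ℝ) 1) {w : ℂ} (hw : w ∈ ball (0 : ℂ) 1) :
    0 < 1 - s * ‖w‖ := by
  rw [mem_ball_zero_iff] at hw
  nlinarith [hs.1, hs.2, norm_nonneg w]

theorem cone_subset {w : ℂ} (hw : w ∈ ball (0 : ℂ) 1) : cone w ⊆ ball 0 1 := by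
  rintro a ⟨s, hs, h⟩
  rw [mem_ball_zero_iff]
  linarith [(Ker_between hs.1 h).1, Ker_tau hs hw]

theorem cone_near {w a : ℂ} (hw : w ∈ ball (0 : ℂ) 1) (ha : a ∈ cone w) :
    ‖a - w‖ ≤ 3 * (1 - ‖a‖) := by
  obtain ⟨s, hs, h⟩ := ha
  have h1 := (Ker_between hs.1 h).1
  have h2 : ‖a - w‖ ≤ ‖a - s * w‖ + (1 - s) * ‖w‖ := by
    rw [← Ker_norm_mul (sub_nonneg.2 hs.2)]
    refine le_of_eq_of_le ?_ (norm_sub_le _ _)
    congr 1
    push_cast
    ring
  rw [mem_ball_zero_iff] at hw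
  linarith

theorem meas_T {g : ℂ → ℝ≥0∞} (hg : Measurable g) : Measurable (T g) := by
  have : T g = fun w => ∫⁻ a, {p : ℂ × ℂ | p.1 ∈ cone p.2}.indicator
      (fun p => g p.1 * ENNReal.ofReal (1 - ‖p.1‖)⁻¹) (a, w) := by
    funext w
    rw [T, ← lintegral_indicator (cone_meas w)]
    rfl
  rw [this]
  exact Measurable.lintegral_prod_left' (Measurable.indicator (by fun_prop) cone_open.measurableSet)

theorem ker_bound {g : ℂ → ℝ≥0∞} (hg : Measurable g) {w : ℂ} (hw : w ∈ ball (0 : ℂ) 1) {κ : ℝ}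
    (h1 : κ ≤ 1 / 2) :
    ∫⁻ s in Icc (0 : ℝ) 1, ENNReal.ofReal (‖w‖ / (1 - s * ‖w‖) ^ 2) *
      ∫⁻ a in ball ((s : ℂ) * w) (κ * (1 - s * ‖w‖)), g a ≤ 3 * T g w := by
  let K : ℝ × ℂ → ℝ≥0∞ := {p : ℝ × ℂ | dist p.2 (p.1 * w) < κ * (1 - p.1 * ‖w‖)}.indicator
    fun p => ENNReal.ofReal (‖w‖ / (1 - p.1 * ‖w‖) ^ 2) * g p.2
  have hK : Measurable K := Measurable.indicator (by fun_prop)
    (isOpen_lt (by fun_prop) (by fun_prop)).measurableSet
  have e1 : ∀ s : ℝ, ENNReal.ofReal (‖w‖ / (1 - s * ‖w‖) ^ 2) *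
      ∫⁻ a in ball ((s : ℂ) * w) (κ * (1 - s * ‖w‖)), g a = ∫⁻ a, K (s, a) := fun s => by
    rw [← lintegral_const_mul _ hg, ← lintegral_indicator measurableSet_ball]
    rfl
  simp only [e1]
  rw [lintegral_lintegral_swap (f := fun s a => K (s, a)) hK.aemeasurable, T,
    ← lintegral_const_mul' _ _ (by norm_num), ← lintegral_indicator (cone_meas w)]
  refine lintegral_mono fun a => ?_
  have hc : ∀ s ∈ Icc (0 : ℝ) 1, dist a (s * w) < κ * (1 - s * ‖w‖) →
      ‖a - s * w‖ < (1 - s * ‖w‖) / 2 := fun s hs h => by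
    rw [dist_eq_norm] at h
    nlinarith [Ker_tau hs hw]
  by_cases ha : a ∈ cone w
  · rw [indicator_of_mem ha]
    have hσ : 0 < 1 - ‖a‖ := sub_pos.2 (mem_ball_zero_iff.1 (cone_subset hw ha))
    set σ := 1 - ‖a‖ with hσ'
    rcases (norm_nonneg w).eq_or_lt with h0 | h0
    · refine le_of_eq_of_le (lintegral_eq_zero_of_ae_eq_zero (.of_forall fun s => ?_)) zero_le
      simp [K, ← h0]
    · calc ∫⁻ s in Icc (0 : ℝ) 1, K (s, a)
          ≤ ∫⁻ s in Icc (0 : ℝ) 1, (Icc ((1 - 2 * σ) / ‖w‖) ((1 - 2 * σ / 3) / ‖w‖)).indicator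
            (fun _ => ENNReal.ofReal (‖w‖ / (2 * σ / 3) ^ 2) * g a) s := by
            refine setLIntegral_mono' measurableSet_Icc fun s hs => ?_
            by_cases h : dist a (s * w) < κ * (1 - s * ‖w‖)
            · have hb := Ker_between hs.1 (hc s hs h)
              rw [indicator_of_mem (show s ∈ Icc _ _ from
                ⟨(div_le_iff₀ h0).2 (by linarith [hb.1]), (le_div_iff₀ h0).2 (by linarith [hb.2])⟩)]
              refine (indicator_le_self _ _ _).trans ?_
              have : 2 * σ / 3 ≤ 1 - s * ‖w‖ := by linarith [hb.2]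
              gcongr
            · exact (indicator_of_notMem (a := (s, a)) h _).trans_le zero_le
        _ ≤ ∫⁻ s, (Icc ((1 - 2 * σ) / ‖w‖) ((1 - 2 * σ / 3) / ‖w‖)).indicator
            (fun _ => ENNReal.ofReal (‖w‖ / (2 * σ / 3) ^ 2) * g a) s :=
            setLIntegral_le_lintegral _ _
        _ = 3 * (g a * ENNReal.ofReal σ⁻¹) := by
            rw [lintegral_indicator_const measurableSet_Icc, Real.volume_Icc, mul_right_comm,
              ← ENNReal.ofReal_mul (by positivity), mul_comm (g a), ← mul_assoc,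
              ← ENNReal.ofReal_ofNat 3, ← ENNReal.ofReal_mul (by norm_num)]
            congr 2
            field_simp
            ring
  · rw [indicator_of_notMem ha]
    refine (setLIntegral_eq_zero measurableSet_Icc fun s hs => ?_).le
    exact indicator_of_notMem (a := (s, a)) (fun h => ha ⟨s, hs, hc s hs h⟩) _

theorem Ker_circle {F : ℂ → ℂ} {c : ℂ} {R r : ℝ} (hr : r ∈ Ioo 0 R)
    (hF : DifferentiableOn ℂ F (ball c R)) :
    ENNReal.ofReal (2 * Real.pi) * ‖F c‖ₑ ≤
      ∫⁻ θ in Ioo (-Real.pi) Real.pi, ‖F (circleMap c r θ)‖ₑ := by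
  have h1 : Real.circleAverage F c r = F c := by
    refine DiffContOnCl.circleAverage (DifferentiableOn.diffContOnCl (hF.mono ?_))
    rw [abs_of_pos hr.1]
    exact closure_ball_subset_closedBall.trans (closedBall_subset_ball hr.2)
  rw [Real.circleAverage_eq_integral_add (-Real.pi),
    intervalIntegral.integral_comp_add_right (fun θ => F (circleMap c r θ)), zero_add,
    show 2 * Real.pi + -Real.pi = Real.pi by ring,
    intervalIntegral.integral_of_le (by linarith [Real.pi_pos]), integral_Ioc_eq_integral_Ioo,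
    inv_smul_eq_iff₀ (by positivity)] at h1
  refine le_of_eq_of_le ?_ (enorm_integral_le_lintegral_enorm _)
  rw [h1, enorm_smul, Real.enorm_eq_ofReal (by positivity)]

theorem submean {F : ℂ → ℂ} {c : ℂ} {R : ℝ} (hR : 0 < R) (hF : DifferentiableOn ℂ F (ball c R)) :
    ENNReal.ofReal (Real.pi * R ^ 2) * ‖F c‖ₑ ≤ ∫⁻ a in ball c R, ‖F a‖ₑ := by
  let G : ℂ → ℝ≥0∞ := (ball c R).piecewise (fun a => ‖F a‖ₑ) 0
  have hG : Measurable G := ContinuousOn.measurable_piecewise hF.continuousOn.enorm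
    continuousOn_const measurableSet_ball
  have e1 : ∫⁻ a in ball c R, ‖F a‖ₑ = ∫⁻ a, G (c + a) := by
    rw [lintegral_add_left_eq_self G c, ← lintegral_indicator measurableSet_ball,
      ← piecewise_eq_indicator]
  have e2 : ∀ p : ℝ × ℝ, c + Complex.polarCoord.symm p = circleMap c p.1 p.2 := fun p => by
    rw [Complex.polarCoord_symm_apply, circleMap, Complex.exp_mul_I]
    push_cast
    rfl
  have e3 : ∫⁻ r in Ioo 0 R, ENNReal.ofReal r = ENNReal.ofReal (R ^ 2 / 2) := by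
    rw [← ofReal_integral_eq_lintegral_ofReal
      ((continuous_id'.integrableOn_Icc (a := 0) (b := R)).mono_set Ioo_subset_Icc_self)
      ((ae_restrict_mem measurableSet_Ioo).mono fun r hr => hr.1.le),
      ← integral_Ioc_eq_integral_Ioo, ← intervalIntegral.integral_of_le hR.le, integral_id]
    simp
  rw [e1, ← Complex.lintegral_comp_polarCoord_symm]
  simp only [e2, smul_eq_mul]
  refine le_trans ?_ (lintegral_mono_set (s := Ioo 0 R ×ˢ Ioo (-Real.pi) Real.pi)
    (prod_mono Ioo_subset_Ioi_self Subset.rfl))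
  have hm : Measurable fun p : ℝ × ℝ => ENNReal.ofReal p.1 * G (circleMap c p.1 p.2) := by
    refine Measurable.mul (by fun_prop) (hG.comp (Continuous.measurable ?_))
    unfold circleMap
    fun_prop
  rw [Measure.volume_eq_prod, setLIntegral_prod _ hm.aemeasurable]
  calc ENNReal.ofReal (Real.pi * R ^ 2) * ‖F c‖ₑ
      = ∫⁻ r in Ioo 0 R, ENNReal.ofReal r * (ENNReal.ofReal (2 * Real.pi) * ‖F c‖ₑ) := by
        rw [lintegral_mul_const _ (by fun_prop), e3, ← mul_assoc,
          ← ENNReal.ofReal_mul (by positivity)]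
        congr 2
        ring
    _ ≤ _ := by
        refine setLIntegral_mono' measurableSet_Ioo fun r hr => ?_
        rw [lintegral_const_mul' _ _ ENNReal.ofReal_ne_top]
        refine mul_le_mul_right ((Ker_circle hr hF).trans_eq (lintegral_congr fun θ => ?_)) _
        refine (piecewise_eq_of_mem (ball c R) (fun a => ‖F a‖ₑ) 0 ?_).symm
        rw [mem_ball, dist_eq_norm, circleMap_sub_center, norm_circleMap_zero, abs_of_pos hr.1]
        exact hr.2

theorem norm_le_T {F : ℂ → ℂ} (hF : DifferentiableOn ℂ F (ball 0 1)) (h0 : F 0 = 0) {w : ℂ}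
    (hw : w ∈ ball (0 : ℂ) 1) : ‖F w‖ₑ ≤ 4 * T (fun a => ‖deriv F a‖ₑ) w := by
  have hd : DifferentiableOn ℂ (deriv F) (ball 0 1) := hF.deriv isOpen_ball
  have hm : ∀ s ∈ Icc (0 : ℝ) 1, (s : ℂ) * w ∈ ball (0 : ℂ) 1 := fun s hs => by
    rw [mem_ball_zero_iff, Ker_norm_mul hs.1]
    linarith [Ker_tau hs hw]
  have e1 : ∫ s in (0 : ℝ)..1, deriv F (s * w) * w = F w := by
    rw [intervalIntegral.integral_eq_sub_of_hasDerivAt (f := fun s : ℝ => F (s * w))]
    · simp [h0]
    · intro s hs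
      rw [uIcc_of_le zero_le_one] at hs
      exact (((hF.differentiableAt (isOpen_ball.mem_nhds (hm s hs))).hasDerivAt).comp (s : ℂ)
        (hasDerivAt_mul_const w)).comp_ofReal
    · refine ContinuousOn.intervalIntegrable_of_Icc zero_le_one ?_
      exact (hd.continuousOn.comp (f := fun s : ℝ => (s : ℂ) * w) (by fun_prop) hm).mul
        continuousOn_const
  rw [← e1, intervalIntegral.integral_of_le zero_le_one, ← integral_Icc_eq_integral_Ioc]
  refine (enorm_integral_le_lintegral_enorm _).trans ?_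
  calc ∫⁻ s in Icc (0 : ℝ) 1, ‖deriv F (s * w) * w‖ₑ
      ≤ ∫⁻ s in Icc (0 : ℝ) 1, ENNReal.ofReal (4 / 3) * (ENNReal.ofReal (‖w‖ / (1 - s * ‖w‖) ^ 2) *
          ∫⁻ a in ball ((s : ℂ) * w) (1 / 2 * (1 - s * ‖w‖)), ‖deriv F a‖ₑ) := by
        refine setLIntegral_mono' measurableSet_Icc fun s hs => ?_
        have hτ := Ker_tau hs hw
        have h1 := submean (F := deriv F) (c := s * w) (R := 1 / 2 * (1 - s * ‖w‖))
          (by positivity) (hd.mono (ball_subset_ball' (by
            rw [dist_zero_right, Ker_norm_mul hs.1]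
            linarith)))
        refine le_trans ?_ (mul_le_mul_right (mul_le_mul_right h1 _) _)
        rw [enorm_mul, mul_comm, ← mul_assoc, ← mul_assoc, ← ENNReal.ofReal_mul (by positivity),
          ← ENNReal.ofReal_mul (by positivity), ← ofReal_norm w]
        refine mul_le_mul_left (ENNReal.ofReal_le_ofReal ?_) _
        have e : 4 / 3 * (‖w‖ / (1 - s * ‖w‖) ^ 2) * (Real.pi * (1 / 2 * (1 - s * ‖w‖)) ^ 2) =
            Real.pi / 3 * ‖w‖ := by
          generalize 1 - s * ‖w‖ = τ at hτ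
          field_simp
          ring
        rw [e]
        exact le_mul_of_one_le_left (norm_nonneg w) (by linarith [Real.pi_gt_three])
    _ ≤ ENNReal.ofReal (4 / 3) * (3 * T (fun a => ‖deriv F a‖ₑ) w) := by
        rw [lintegral_const_mul' _ _ ENNReal.ofReal_ne_top]
        exact mul_le_mul_right (ker_bound (measurable_deriv F).enorm hw le_rfl) _
    _ = _ := by
        rw [← mul_assoc, ← ENNReal.ofReal_ofNat 3, ← ENNReal.ofReal_mul (by norm_num),
          ← ENNReal.ofReal_ofNat 4]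
        norm_num

end Pool.Agent.P.MP_6c0067_an
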