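import Pool.Agent.P.MP_6c0067_an.Rho
import Pool.Agent.P.MP_6c0067_an.Ker

/-! Change of variables and its first consequences. `RM.cv`:
`lintegral_image_eq_lintegral_abs_det_fderiv_mul`, the real determinant of the multiplication by
`c` is `‖c‖ ^ 2` (`Complex.det_...`, `LinearMap.det_restrictScalars` or
`Algebra.norm_complex_eq`). `vol_ne_top`: apply the inequality to `ψ`; its Dirichlet integral is
the area of the disc (`RM.cv`, `RM.deriv_mul`); the part `‖ψ‖ ≤ 1 / 2` of `D` is the compact set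
`φ '' closedBall 0 (1 / 2)`, on the rest `1 ≤ 4 ‖ψ‖ ^ 2`. `dl_bdd`: `ball x (dl x) ⊆ D`.
`poincare_univ`: take `K = 1`; if the Dirichlet integral is finite then by `submean` for
`(deriv f) ^ 2` on large balls `deriv f = 0`, so `f = 0`. `poincare_of_TB`: put `F = f ∘ φ`;
`‖f z‖ₑ ≤ 4 * T ‖deriv F‖ₑ (ψ z)` by `norm_le_T`, and the integral of `‖deriv F‖ₑ ^ 2` over the
disc is the Dirichlet integral of `f` (chain rule and `RM.cv`). -/

open Set MeasureTheory Metric
open scoped ENNReal NNReal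

namespace Pool.Agent.P.MP_6c0067_an

open Classical

variable {D : Set ℂ} {φ ψ : ℂ → ℂ}

private theorem CV_det (c : ℂ) : (c • (1 : ℂ →L[ℝ] ℂ)).det = ‖c‖ ^ 2 := by
  rw [ContinuousLinearMap.det, ← LinearMap.det_toMatrix Complex.basisOneI, Matrix.det_fin_two]
  simp [LinearMap.toMatrix_apply, Complex.sq_norm, Complex.normSq_apply]

theorem RM.image (r : RM D φ ψ) : φ '' ball 0 1 = D :=
  Subset.antisymm r.maps.image_subset fun z hz => ⟨ψ z, r.maps' hz, r.right z hz⟩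

theorem RM.psi_zero (r : RM D φ ψ) : ψ 0 = 0 := by
  have := r.left 0 (mem_ball_self one_pos)
  rwa [r.zero] at this

theorem RM.hasDerivAt (r : RM D φ ψ) {a : ℂ} (ha : a ∈ ball (0 : ℂ) 1) :
    HasDerivAt φ (deriv φ a) a :=
  (r.dφ.differentiableAt (isOpen_ball.mem_nhds ha)).hasDerivAt

theorem RM.deriv_contOn (r : RM D φ ψ) : ContinuousOn (deriv φ) (ball 0 1) :=
  (r.dφ.deriv isOpen_ball).continuousOn

theorem RM.deriv_mul (h : Dom D) (r : RM D φ ψ) {a : ℂ} (ha : a ∈ ball (0 : ℂ) 1) :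
    deriv ψ (φ a) * deriv φ a = 1 := by
  have h1 := ((r.dψ.differentiableAt (h.isOpen.mem_nhds (r.maps ha))).hasDerivAt).comp a
    (r.hasDerivAt ha)
  have h2 : HasDerivAt (ψ ∘ φ) 1 a := by
    refine (hasDerivAt_id a).congr_of_eventuallyEq ?_
    filter_upwards [isOpen_ball.mem_nhds ha] with w hw using r.left w hw
  exact h1.unique h2

theorem RM.cv (r : RM D φ ψ) (F : ℂ → ℝ≥0∞) :
    ∫⁻ z in D, F z = ∫⁻ a in ball (0 : ℂ) 1, F (φ a) * ‖deriv φ a‖ₑ ^ 2 := by
  have h1 := lintegral_image_eq_lintegral_abs_det_fderiv_mul volume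
    (measurableSet_ball (x := (0 : ℂ)) (ε := 1)) (f := φ)
    (f' := fun a => deriv φ a • (1 : ℂ →L[ℝ] ℂ))
    (fun a ha => (r.hasDerivAt ha).complexToReal_fderiv.hasFDerivWithinAt)
    (LeftInvOn.injOn r.left) F
  rw [r.image] at h1
  rw [h1]
  refine lintegral_congr fun a => ?_
  rw [CV_det, abs_of_nonneg (sq_nonneg _), ENNReal.ofReal_pow (norm_nonneg _), ofReal_norm,
    mul_comm]

theorem vol_ne_top (h : Dom D) (r : RM D φ ψ) (hP : Poincare D) : volume D ≠ ⊤ := by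
  obtain ⟨K, hK⟩ := hP
  have h1 := hK ψ r.dψ r.psi_zero
  have h2 : ∫⁻ z in D, ‖deriv ψ z‖ₑ ^ 2 = volume (ball (0 : ℂ) 1) := by
    rw [r.cv, ← setLIntegral_one]
    refine setLIntegral_congr_fun measurableSet_ball fun a ha => ?_
    rw [← mul_pow, ← enorm_mul, r.deriv_mul h ha, enorm_one, one_pow]
  have h3 : ∫⁻ z in D, ‖ψ z‖ₑ ^ 2 ≠ ⊤ := by
    refine ne_top_of_le_ne_top ?_ h1
    rw [h2]
    exact ENNReal.mul_ne_top ENNReal.coe_ne_top measure_ball_lt_top.ne
  have h4 : IsCompact (φ '' closedBall 0 (1 / 2)) :=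
    (isCompact_closedBall 0 (1 / 2)).image_of_continuousOn
      (r.dφ.continuousOn.mono (closedBall_subset_ball (by norm_num)))
  have h5 := meas_ge_le_lintegral_div (μ := volume.restrict D) (f := fun z => ‖ψ z‖ₑ ^ 2)
    (r.mψ.enorm.pow_const 2).aemeasurable (ε := ENNReal.ofReal (1 / 2) ^ 2) (by simp) (by simp)
  have h6 : D ⊆ φ '' closedBall 0 (1 / 2) ∪ {z | ENNReal.ofReal (1 / 2) ^ 2 ≤ ‖ψ z‖ₑ ^ 2} := by
    intro z hz
    rcases le_total ‖ψ z‖ (1 / 2) with h7 | h7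
    · exact Or.inl ⟨ψ z, mem_closedBall_zero_iff.2 h7, r.right z hz⟩
    · refine Or.inr (mem_setOf.2 (pow_le_pow_left' ?_ 2))
      rw [← ofReal_norm]
      exact ENNReal.ofReal_le_ofReal h7
  rw [← Measure.restrict_apply_self]
  refine ne_top_of_le_ne_top ?_ ((measure_mono h6).trans (measure_union_le _ _))
  refine ENNReal.add_ne_top.2 ⟨?_, ne_top_of_le_ne_top (ENNReal.div_ne_top h3 (by simp)) h5⟩
  exact ne_top_of_le_ne_top h4.measure_lt_top.ne (Measure.restrict_le_self _)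

theorem dl_bdd (hv : volume D ≠ ⊤) : ∃ R : ℝ, 0 < R ∧ ∀ x, dl D x ≤ R := by
  refine ⟨(volume D).toReal + 1, by positivity, fun x => ?_⟩
  have h0 : 0 ≤ dl D x := infDist_nonneg
  have h1 := ENNReal.toReal_mono hv (measure_mono (ball_dl D x))
  rw [Complex.volume_ball, ENNReal.toReal_mul, ENNReal.toReal_pow, ENNReal.toReal_ofReal h0,
    ENNReal.coe_toReal, NNReal.coe_real_pi] at h1
  nlinarith [Real.pi_gt_three, sq_nonneg (dl D x - 1), sq_nonneg (dl D x)]

theorem poincare_univ : Poincare univ := by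
  refine ⟨1, fun f hf h0 => ?_⟩
  by_cases hI : ∫⁻ z in univ, ‖deriv f z‖ₑ ^ 2 = ⊤
  · rw [hI]; simp
  have hd : DifferentiableOn ℂ (fun z => deriv f z ^ 2) univ := (hf.deriv isOpen_univ).pow 2
  have h1 : ∀ c, deriv f c = 0 := by
    intro c
    by_contra hc
    have hp : 0 < ‖deriv f c‖ ^ 2 := by positivity
    set I := (∫⁻ z in univ, ‖deriv f z‖ₑ ^ 2).toReal with hIdef
    have hI0 : 0 ≤ I := ENNReal.toReal_nonneg
    set R := I / ‖deriv f c‖ ^ 2 + 1 with hR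
    have hR1 : 1 ≤ R := le_add_of_nonneg_left (by positivity)
    have h2 := submean (c := c) (R := R) (by linarith) (hd.mono (subset_univ _))
    have h3 : ∫⁻ a in ball c R, ‖deriv f a ^ 2‖ₑ ≤ ∫⁻ z in univ, ‖deriv f z‖ₑ ^ 2 := by
      simp only [enorm_pow]
      exact lintegral_mono_set (subset_univ _)
    have h4 := ENNReal.toReal_mono hI (h2.trans h3)
    rw [ENNReal.toReal_mul, ENNReal.toReal_ofReal (by positivity), toReal_enorm, norm_pow,
      ← hIdef] at h4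
    have h5 : R * ‖deriv f c‖ ^ 2 = I + ‖deriv f c‖ ^ 2 := by
      rw [hR, add_mul, div_mul_cancel₀ _ hp.ne', one_mul]
    have h6 : R ≤ Real.pi * R ^ 2 := by nlinarith [Real.pi_gt_three]
    nlinarith [mul_le_mul_of_nonneg_right h6 hp.le]
  have h2 : ∀ z, f z = 0 := fun z =>
    (is_const_of_deriv_eq_zero (differentiableOn_univ.1 hf) h1 z 0).trans h0
  simp [h2]

theorem poincare_of_TB (h : Dom D) (r : RM D φ ψ) (hT : TB D ψ) : Poincare D := by
  obtain ⟨K, hK⟩ := hT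
  refine ⟨16 * K, fun f hf h0 => ?_⟩
  have hF : DifferentiableOn ℂ (f ∘ φ) (ball 0 1) := hf.comp r.dφ r.maps
  have hF0 : (f ∘ φ) 0 = 0 := by rw [Function.comp_apply, r.zero, h0]
  have h1 := hK (fun a => ‖deriv (f ∘ φ) a‖ₑ) (measurable_deriv _).enorm
  have h2 : ∫⁻ a in ball (0 : ℂ) 1, ‖deriv (f ∘ φ) a‖ₑ ^ 2 = ∫⁻ z in D, ‖deriv f z‖ₑ ^ 2 := by
    rw [r.cv]
    refine setLIntegral_congr_fun measurableSet_ball fun a ha => ?_
    rw [(((hf.differentiableAt (h.isOpen.mem_nhds (r.maps ha))).hasDerivAt).comp a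
      (r.hasDerivAt ha)).deriv, enorm_mul, mul_pow]
  calc ∫⁻ z in D, ‖f z‖ₑ ^ 2
      ≤ ∫⁻ z in D, 16 * T (fun a => ‖deriv (f ∘ φ) a‖ₑ) (ψ z) ^ 2 := by
        refine setLIntegral_mono' h.isOpen.measurableSet fun z hz => ?_
        have h3 := norm_le_T hF hF0 (r.maps' hz)
        rw [Function.comp_apply, r.right z hz] at h3
        refine (pow_le_pow_left' h3 2).trans_eq ?_
        rw [mul_pow]
        norm_num
    _ = 16 * ∫⁻ z in D, T (fun a => ‖deriv (f ∘ φ) a‖ₑ) (ψ z) ^ 2 :=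
        lintegral_const_mul' _ _ (by simp)
    _ ≤ 16 * (K * ∫⁻ z in D, ‖deriv f z‖ₑ ^ 2) := by
        rw [← h2]
        exact mul_le_mul_right h1 _
    _ = _ := by
        rw [← mul_assoc]
        norm_num

end Pool.Agent.P.MP_6c0067_an
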