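import Pool.Agent.P.MP_6c0067_an.Desc
import Pool.Agent.P.MP_6c0067_an.Lip

/-! The coarea formula up to a constant. With the charts `P i`, `e i` put
`Φ i y = (rho y, im (conj (e i) * y))`. On `P i`: `‖Φ y - Φ y'‖ ≤ ‖y - y'‖ ≤ 4 ‖Φ y - Φ y'‖` (sup norm;
`‖k‖ ≤ |re (conj e * k)| + |im (conj e * k)|`). So `Φ i` is injective and continuous on `P i`,
`S i = Φ i '' P i` is measurable (`MeasurableSet.image_of_continuousOn_injOn`), and the inverse is
4-Lipschitz on `S i`; let `Ψ i` be a measurable (for instance Lipschitz, by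
`LipschitzOnWith.extend_finite_dimension`) map with `Ψ i (Φ i y) = y` on `P i`. Put
`ℓ t = Measure.sum fun i => (volume.restrict {v | (t, v) ∈ S i}).map fun v => Ψ i (t, v)`.
`meas`: `Measurable.lintegral_prod_right` and `Measurable.ennreal_tsum`. `le_vol`, `vol_le`: by
Tonelli the left side is the sum of the integrals of `F ∘ Ψ i` over `S i`; compare the measure
`(volume.restrict (S i)).map (Ψ i)` with `volume.restrict (P i)` on measurable sets by
`vol_image_le`, `vol_image_le'`; the point `0` is null. `le_haus`, `haus_le`: on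
`P i ∩ Lv D t` the second coordinate is 1-Lipschitz with 4-Lipschitz inverse `v ↦ Ψ i (t, v)`,
`hausdorffMeasure_real`; sum over the disjoint pieces; for `t > 0` the level set avoids `0`. -/

open Set MeasureTheory Metric
open scoped ENNReal NNReal

namespace Pool.Agent.P.MP_6c0067_an

open Classical

variable {D : Set ℂ}

/-- A bi-Lipschitz chart whose first coordinate is the inner distance. -/
structure CoareaChart (D P : Set ℂ) (Φ : ℂ → ℝ × ℝ) (Ψ : ℝ × ℝ → ℂ) : Prop where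
  mP : MeasurableSet P
  sub : P ⊆ D
  fst : ∀ y, (Φ y).1 = rho D y
  lip : LipschitzOnWith 1 Φ P
  mΨ : Measurable Ψ
  left : ∀ y ∈ P, Ψ (Φ y) = y
  lip' : LipschitzOnWith 4 Ψ (Φ '' P)

theorem coarea_chart {P : Set ℂ} {e : ℂ} (mP : MeasurableSet P) (sub : P ⊆ D) (he : ‖e‖ = 1)
    (H : ∀ y ∈ P, ∀ y' ∈ P, |rho D y' - rho D y| ≤ ‖y' - y‖ ∧
      |rho D y' - rho D y + ((starRingEnd ℂ) e * (y' - y)).re| ≤ ‖y' - y‖ / 2) :
    ∃ Φ Ψ, CoareaChart D P Φ Ψ := by
  let Φ : ℂ → ℝ × ℝ := fun y => (rho D y, ((starRingEnd ℂ) e * y).im)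
  have hn : ∀ k : ℂ, ‖(starRingEnd ℂ) e * k‖ = ‖k‖ := fun k => by
    rw [norm_mul, Complex.norm_conj, he, one_mul]
  have hd : ∀ y' y, dist (Φ y') (Φ y) =
      max |rho D y' - rho D y| |((starRingEnd ℂ) e * (y' - y)).im| := by
    intro y' y
    rw [Prod.dist_eq, Real.dist_eq, Real.dist_eq, mul_sub, Complex.sub_im]
  have h1 : LipschitzOnWith 1 Φ P := by
    refine LipschitzOnWith.of_dist_le_mul fun y' hy' y hy => ?_
    rw [hd, NNReal.coe_one, one_mul, dist_eq_norm]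
    refine max_le (H y hy y' hy').1 ?_
    rw [← hn (y' - y)]
    exact Complex.abs_im_le_norm _
  have h2 : ∀ y' ∈ P, ∀ y ∈ P, dist y' y ≤ 4 * dist (Φ y') (Φ y) := by
    intro y' hy' y hy
    have h3 := Complex.norm_le_abs_re_add_abs_im ((starRingEnd ℂ) e * (y' - y))
    rw [hn] at h3
    have h4 := (H y hy y' hy').2
    have h5 := le_max_left |rho D y' - rho D y| |((starRingEnd ℂ) e * (y' - y)).im|
    have h6 := le_max_right |rho D y' - rho D y| |((starRingEnd ℂ) e * (y' - y)).im|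
    have h7 := abs_sub (rho D y' - rho D y + ((starRingEnd ℂ) e * (y' - y)).re)
      (rho D y' - rho D y)
    rw [add_sub_cancel_left] at h7
    rw [hd, dist_eq_norm]
    linarith
  have hinj : InjOn Φ P := by
    intro y hy y' hy' e'
    have := h2 y hy y' hy'
    rw [e', dist_self, mul_zero] at this
    exact dist_le_zero.1 this
  have hl : ∀ y ∈ P, Function.invFunOn Φ P (Φ y) = y := fun y hy => hinj.leftInvOn_invFunOn hy
  have h3 : LipschitzOnWith 4 (Function.invFunOn Φ P) (Φ '' P) := by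
    refine LipschitzOnWith.of_dist_le_mul ?_
    rintro _ ⟨y', hy', rfl⟩ _ ⟨y, hy, rfl⟩
    rw [hl y hy, hl y' hy']
    exact_mod_cast h2 y' hy' y hy
  obtain ⟨Ψ, hΨ, hΨ'⟩ := h3.extend_finite_dimension
  refine ⟨Φ, Ψ, mP, sub, fun _ => rfl, h1, hΨ.continuous.measurable, fun y hy => ?_, ?_⟩
  · rw [← hΨ' (mem_image_of_mem Φ hy), hl y hy]
  · intro a ha b hb
    rw [← hΨ' ha, ← hΨ' hb]
    exact h3 ha hb

/-- The measure on the level set given by a chart. -/
noncomputable def coareaM (P : Set ℂ) (Φ : ℂ → ℝ × ℝ) (Ψ : ℝ × ℝ → ℂ) (t : ℝ) : Measure ℂ :=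
  (volume.restrict (Prod.mk t ⁻¹' (Φ '' P))).map fun v => Ψ (t, v)

section

variable {P : Set ℂ} {Φ : ℂ → ℝ × ℝ} {Ψ : ℝ × ℝ → ℂ}

theorem CoareaChart.mS (c : CoareaChart D P Φ Ψ) : MeasurableSet (Φ '' P) :=
  c.mP.image_of_continuousOn_injOn c.lip.continuousOn
    (LeftInvOn.injOn (f₁' := Ψ) fun y hy => c.left y hy)

theorem CoareaChart.pre (c : CoareaChart D P Φ Ψ) (E : Set ℂ) :
    Ψ ⁻¹' E ∩ Φ '' P = Φ '' (E ∩ P) := by
  ext p
  constructor
  · rintro ⟨h1, y, hy, rfl⟩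
    rw [mem_preimage, c.left y hy] at h1
    exact ⟨y, ⟨h1, hy⟩, rfl⟩
  · rintro ⟨y, ⟨h1, hy⟩, rfl⟩
    exact ⟨by rwa [mem_preimage, c.left y hy], y, hy, rfl⟩

theorem CoareaChart.int (c : CoareaChart D P Φ Ψ) {F : ℂ → ℝ≥0∞} (hF : Measurable F) (t : ℝ) :
    ∫⁻ y, F y ∂coareaM P Φ Ψ t = ∫⁻ v, (Φ '' P).indicator (fun p => F (Ψ p)) (t, v) := by
  have hm : Measurable fun v => Ψ (t, v) := c.mΨ.comp measurable_prodMk_left
  rw [coareaM, lintegral_map hF hm, ← lintegral_indicator (measurable_prodMk_left c.mS)]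
  rfl

theorem CoareaChart.meas (c : CoareaChart D P Φ Ψ) {F : ℂ → ℝ≥0∞} (hF : Measurable F) :
    Measurable fun t => ∫⁻ y, F y ∂coareaM P Φ Ψ t := by
  simp only [c.int hF]
  exact ((hF.comp c.mΨ).indicator c.mS).lintegral_prod_right'

theorem CoareaChart.tonelli (c : CoareaChart D P Φ Ψ) {F : ℂ → ℝ≥0∞} (hF : Measurable F) :
    ∫⁻ t, ∫⁻ y, F y ∂coareaM P Φ Ψ t = ∫⁻ y, F y ∂(volume.restrict (Φ '' P)).map Ψ := by
  simp only [c.int hF]
  rw [lintegral_map hF c.mΨ, ← lintegral_indicator c.mS, Measure.volume_eq_prod]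
  exact (lintegral_prod _ ((hF.comp c.mΨ).indicator c.mS).aemeasurable).symm

theorem CoareaChart.le_vol (c : CoareaChart D P Φ Ψ) {F : ℂ → ℝ≥0∞} (hF : Measurable F) :
    ∫⁻ t, ∫⁻ y, F y ∂coareaM P Φ Ψ t ≤ 16 * ∫⁻ y in P, F y := by
  have : (volume.restrict (Φ '' P)).map Ψ ≤ (16 : ℝ≥0∞) • volume.restrict P := by
    refine Measure.le_iff.2 fun E hE => ?_
    rw [Measure.map_apply c.mΨ hE, Measure.restrict_apply (c.mΨ hE), c.pre, Measure.smul_apply,
      Measure.restrict_apply hE, smul_eq_mul]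
    refine (vol_image_le (c.lip.mono inter_subset_right)).trans ?_
    gcongr
    norm_num
  rw [c.tonelli hF, ← smul_eq_mul, ← lintegral_smul_measure]
  exact lintegral_mono' this le_rfl

theorem CoareaChart.vol_le (c : CoareaChart D P Φ Ψ) {F : ℂ → ℝ≥0∞} (hF : Measurable F) :
    ∫⁻ y in P, F y ≤ 16 * ∫⁻ t, ∫⁻ y, F y ∂coareaM P Φ Ψ t := by
  have : volume.restrict P ≤ (16 : ℝ≥0∞) • (volume.restrict (Φ '' P)).map Ψ := by
    refine Measure.le_iff.2 fun E hE => ?_
    rw [Measure.smul_apply, Measure.map_apply c.mΨ hE, Measure.restrict_apply (c.mΨ hE), c.pre,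
      Measure.restrict_apply hE, smul_eq_mul]
    have e : Ψ '' (Φ '' (E ∩ P)) = E ∩ P :=
      LeftInvOn.image_image fun y hy => c.left y hy.2
    have := vol_image_le' (c.lip'.mono (image_mono (inter_subset_right (s := E))))
    rw [e] at this
    refine this.trans (le_of_eq ?_)
    norm_num
  rw [c.tonelli hF, ← smul_eq_mul, ← lintegral_smul_measure]
  exact lintegral_mono' this le_rfl

theorem CoareaChart.apply (c : CoareaChart D P Φ Ψ) (t : ℝ) {E : Set ℂ} (hE : MeasurableSet E) :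
    coareaM P Φ Ψ t E = μH[1] ((fun y => (Φ y).2) '' (E ∩ Lv D t ∩ P)) := by
  have hm : Measurable fun v => Ψ (t, v) := c.mΨ.comp measurable_prodMk_left
  rw [coareaM, Measure.map_apply hm hE, Measure.restrict_apply (hm hE), hausdorffMeasure_real]
  congr 1
  ext v
  constructor
  · rintro ⟨h1, y, hy, e⟩
    rw [mem_preimage, ← e, c.left y hy] at h1
    refine ⟨y, ⟨⟨h1, c.sub hy, ?_⟩, hy⟩, congrArg Prod.snd e⟩
    rw [← c.fst, e]
  · rintro ⟨y, ⟨⟨h1, -, h2⟩, hy⟩, rfl⟩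
    have e : Φ y = (t, (Φ y).2) := Prod.ext ((c.fst y).trans h2) rfl
    refine ⟨?_, y, hy, e⟩
    rwa [mem_preimage, ← e, c.left y hy]

theorem CoareaChart.le_haus (c : CoareaChart D P Φ Ψ) (t : ℝ) {E : Set ℂ}
    (hE : MeasurableSet E) : coareaM P Φ Ψ t E ≤ μH[1] (E ∩ Lv D t ∩ P) := by
  have h1 : LipschitzOnWith (1 * 1) (fun y => (Φ y).2) (E ∩ Lv D t ∩ P) :=
    LipschitzWith.prod_snd.comp_lipschitzOnWith (c.lip.mono inter_subset_right)
  rw [c.apply t hE]
  simpa using h1.hausdorffMeasure_image_le zero_le_one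

theorem CoareaChart.haus_le (c : CoareaChart D P Φ Ψ) (t : ℝ) {E : Set ℂ}
    (hE : MeasurableSet E) : μH[1] (E ∩ Lv D t ∩ P) ≤ 16 * coareaM P Φ Ψ t E := by
  have e0 : ∀ y ∈ E ∩ Lv D t ∩ P, (t, (Φ y).2) = Φ y := fun y hy =>
    Prod.ext ((c.fst y).trans hy.1.2.2).symm rfl
  have h1 : LipschitzOnWith (4 * 1) (fun v => Ψ (t, v))
      ((fun y => (Φ y).2) '' (E ∩ Lv D t ∩ P)) := by
    refine c.lip'.comp (LipschitzWith.prodMk_left t).lipschitzOnWith ?_
    rintro _ ⟨y, hy, rfl⟩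
    exact ⟨y, hy.2, (e0 y hy).symm⟩
  have e : (fun v => Ψ (t, v)) '' ((fun y => (Φ y).2) '' (E ∩ Lv D t ∩ P)) = E ∩ Lv D t ∩ P :=
    LeftInvOn.image_image fun y hy => by
      simp only [e0 y hy, c.left y hy.2]
  have h2 := h1.hausdorffMeasure_image_le zero_le_one
  rw [e] at h2
  rw [c.apply t hE]
  refine h2.trans ?_
  gcongr
  norm_num

end

theorem exists_coarea (h : Dom D) : ∃ ℓ C, Coarea D ℓ C := by
  obtain ⟨P, e, mP, hdis, hU, he, H⟩ := charts h
  have hsub : ∀ i, P i ⊆ D := fun i =>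
    (subset_iUnion P i).trans (hU.subset.trans sdiff_subset)
  choose Φ Ψ c using fun i => coarea_chart (mP i) (hsub i) (he i) (H i)
  have hD : ∀ F : ℂ → ℝ≥0∞, ∫⁻ y in D, F y = ∑' i, ∫⁻ y in P i, F y := by
    intro F
    rw [← lintegral_iUnion mP hdis, hU]
    exact setLIntegral_congr (sdiff_null_ae_eq_self (measure_singleton 0)).symm
  have hI : ∀ F : ℂ → ℝ≥0∞, Measurable F →
      ∫⁻ t, ∫⁻ y, F y ∂(Measure.sum fun i => coareaM (P i) (Φ i) (Ψ i) t) =
        ∑' i, ∫⁻ t, ∫⁻ y, F y ∂coareaM (P i) (Φ i) (Ψ i) t := by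
    intro F hF
    simp only [lintegral_sum_measure]
    exact lintegral_tsum fun i => ((c i).meas hF).aemeasurable
  have e16 : ((16 : ℝ≥0) : ℝ≥0∞) = 16 := rfl
  refine ⟨fun t => Measure.sum fun i => coareaM (P i) (Φ i) (Ψ i) t, 16, by norm_num,
    fun F hF => ?_, fun t => ?_, fun F hF => ?_, fun F hF => ?_, fun t _ E hE => ?_,
    fun t ht E hE => ?_⟩
  · simp only [lintegral_sum_measure]
    exact Measurable.tsum fun i => (c i).meas hF
  · rw [Measure.sum_apply _ (Lv_meas h t).compl]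
    refine ENNReal.tsum_eq_zero.2 fun i => ?_
    rw [(c i).apply t (Lv_meas h t).compl]
    simp
  · rw [hI F hF, hD, e16, ← ENNReal.tsum_mul_left]
    exact ENNReal.tsum_le_tsum fun i => (c i).le_vol hF
  · rw [hI F hF, hD, e16, ← ENNReal.tsum_mul_left]
    exact ENNReal.tsum_le_tsum fun i => (c i).vol_le hF
  · rw [Measure.sum_apply _ hE, e16]
    refine (ENNReal.tsum_le_tsum fun i => (c i).le_haus t hE).trans ?_
    rw [← measure_iUnion (hdis.mono fun i j hij =>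
        Disjoint.mono inter_subset_right inter_subset_right hij)
      fun i => (hE.inter (Lv_meas h t)).inter (mP i)]
    refine (measure_mono (iUnion_subset fun i => inter_subset_left)).trans ?_
    exact le_mul_of_one_le_left zero_le (by norm_num)
  · rw [Measure.sum_apply _ hE, e16, ← ENNReal.tsum_mul_left]
    refine le_trans ?_ (ENNReal.tsum_le_tsum fun i => (c i).haus_le t hE)
    refine le_trans (measure_mono fun y hy => ?_) (measure_iUnion_le _)
    have : y ∈ ⋃ i, P i := by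
      rw [hU]
      refine ⟨hy.2.1, fun e0 => ?_⟩
      have h1 := hy.2.2
      rw [mem_singleton_iff.1 e0, rho_zero h] at h1
      exact ht.ne h1
    obtain ⟨i, hi⟩ := mem_iUnion.1 this
    exact mem_iUnion.2 ⟨i, hy, hi⟩

end Pool.Agent.P.MP_6c0067_an
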