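import Pool.Agent.P.MP_6c0067_an.Dist

/-! A short crosscut, by length and area. Let `M = 6 * exp 160`, `σ₀ = 1 / (2 M)`,
`σ = 1 - ‖a‖`, `u = a / ‖a‖`, `x = φ a`, `δ = dl D x`, `C₁ = exp (128 M)`, `R = 4 C₁ δ`. For
`0 < s < 1` let `ζ s α = u (1 - s e^{iα})`; it lies in the disc iff `s / 2 < cos α`, which forces
`|α| < π / 2` for `α ∈ (-π, π]`, and the set of such `α` is an interval about `0`. Let `L s` be the
integral over `α ∈ Ioo (-π) π` of `‖deriv φ (ζ s α)‖ * s` times the indicator of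
`ζ s α ∈ ball 0 1 ∧ φ (ζ s α) ∈ ball x R`. Cauchy-Schwarz, polar coordinates about `u` and `RM.cv`
give that the integral of `(L s) ^ 2 / (2 π s)` over `s > 0` is at most the area `π R ^ 2`. If
`L s > R / 2` for all `s ∈ Ioo (6 σ) (M σ)` then `160 / (8 π) ≤ π`, which is false. So fix `s` with
`L s ≤ R / 2`. The point `p = ζ s 0` is joined to `a` by a segment of length `≤ M σ` in
`‖·‖ ≤ 1 - σ`, so `RM.seg` gives `‖φ p - x‖ ≤ C₁ δ` and `|rho (φ p) - rho x| ≤ C₁ δ`. The arc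
`α ↦ φ (ζ s α)` cannot leave `ball x R`: up to the first exit it would have length
`≥ 3 R / 4 > L s`. So every subarc from `0` has length `≤ R / 2`; use `rho_curve`. Take
`lam = 4 C₁`. If `a ∈ cone w` then `‖w - u‖ ≤ ‖w - a‖ + ‖a - u‖ ≤ 4 σ` by `cone_near`. -/

open Set MeasureTheory Metric
open scoped ENNReal NNReal

namespace Pool.Agent.P.MP_6c0067_an

open Classical

variable {D : Set ℂ} {φ ψ : ℂ → ℂ}

/-- A curve stays within its length of the starting point. -/
theorem cross_len {c c' : ℝ → ℂ} {b : ℝ} (hb : 0 ≤ b)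
    (hc : ∀ t ∈ Icc 0 b, HasDerivAt c (c' t) t) (hc' : ContinuousOn c' (Icc 0 b)) :
    ‖c b - c 0‖ ≤ ∫ t in (0 : ℝ)..b, ‖c' t‖ := by
  have h1 : ∫ t in (0 : ℝ)..b, c' t = c b - c 0 := by
    refine intervalIntegral.integral_eq_sub_of_hasDerivAt (fun t ht => hc t ?_) ?_
    · rwa [uIcc_of_le hb] at ht
    · exact (by rwa [uIcc_of_le hb] : ContinuousOn c' (uIcc 0 b)).intervalIntegrable
  rw [← h1]
  exact intervalIntegral.norm_integral_le_integral_norm hb

/-- Length from energy. -/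
theorem cross_energy {c' : ℝ → ℂ} {b R : ℝ} (hb : 0 ≤ b) (hbπ : b ≤ Real.pi) (hR : 0 < R)
    (hc' : ContinuousOn c' (Icc 0 b)) {H : ℝ → ℝ≥0∞}
    (hH : ∫⁻ t, H t ≤ ENNReal.ofReal (R ^ 2 / (8 * Real.pi)))
    (hle : ∀ t ∈ Ioo 0 b, ENNReal.ofReal (‖c' t‖ ^ 2) ≤ H t) :
    ∫ t in (0 : ℝ)..b, ‖c' t‖ ≤ 3 * R / 8 := by
  have hπ := Real.pi_pos
  have hn : ContinuousOn (fun t => ‖c' t‖) (uIcc 0 b) := by
    rw [uIcc_of_le hb]; exact hc'.norm
  have hn2 : ContinuousOn (fun t => ‖c' t‖ ^ 2) (uIcc 0 b) := hn.pow 2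
  have hi2 : IntervalIntegrable (fun t => ‖c' t‖ ^ 2) volume 0 b := hn2.intervalIntegrable
  have hE : ∫ t in (0 : ℝ)..b, ‖c' t‖ ^ 2 ≤ R ^ 2 / (8 * Real.pi) := by
    rw [intervalIntegral.integral_of_le hb, integral_Ioc_eq_integral_Ioo]
    have hint : IntegrableOn (fun t => ‖c' t‖ ^ 2) (Ioo 0 b) volume :=
      (intervalIntegrable_iff_integrableOn_Ioo_of_le hb).1 hi2
    rw [← ENNReal.ofReal_le_ofReal_iff (by positivity),
      ofReal_integral_eq_lintegral_ofReal hint (ae_of_all _ fun t => by positivity)]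
    refine le_trans ?_ hH
    refine le_trans (setLIntegral_mono' measurableSet_Ioo hle) ?_
    exact setLIntegral_le_lintegral _ _
  have h1 : ∫ t in (0 : ℝ)..b, ‖c' t‖ ≤
      ∫ t in (0 : ℝ)..b, (Real.pi / R * ‖c' t‖ ^ 2 + R / (4 * Real.pi)) := by
    refine intervalIntegral.integral_mono_on hb hn.intervalIntegrable
      ((hi2.const_mul _).add intervalIntegrable_const) fun t _ => ?_
    have e : Real.pi / R * ‖c' t‖ ^ 2 + R / (4 * Real.pi) - ‖c' t‖ =
        (2 * Real.pi * ‖c' t‖ - R) ^ 2 / (4 * Real.pi * R) := by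
      field_simp
      ring
    have : 0 ≤ (2 * Real.pi * ‖c' t‖ - R) ^ 2 / (4 * Real.pi * R) := by positivity
    linarith
  rw [intervalIntegral.integral_add (hi2.const_mul _) intervalIntegrable_const,
    intervalIntegral.integral_const_mul, intervalIntegral.integral_const, sub_zero,
    smul_eq_mul] at h1
  have h2 : Real.pi / R * ∫ t in (0 : ℝ)..b, ‖c' t‖ ^ 2 ≤ Real.pi / R * (R ^ 2 / (8 * Real.pi)) :=
    mul_le_mul_of_nonneg_left hE (by positivity)
  have h3 : Real.pi / R * (R ^ 2 / (8 * Real.pi)) = R / 8 := by field_simp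
  have h4 : b * (R / (4 * Real.pi)) ≤ Real.pi * (R / (4 * Real.pi)) :=
    mul_le_mul_of_nonneg_right hbπ (by positivity)
  have h5 : Real.pi * (R / (4 * Real.pi)) = R / 4 := by field_simp
  linarith

/-- The first exit argument. -/
theorem cross_arc {c c' : ℝ → ℂ} {x : ℂ} {b R : ℝ} (hb : 0 ≤ b) (hbπ : b ≤ Real.pi) (hR : 0 < R)
    (hc : ∀ t ∈ Icc 0 b, HasDerivAt c (c' t) t) (hc' : ContinuousOn c' (Icc 0 b))
    (h0 : ‖c 0 - x‖ ≤ R / 4) {H : ℝ → ℝ≥0∞}
    (hH : ∫⁻ t, H t ≤ ENNReal.ofReal (R ^ 2 / (8 * Real.pi)))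
    (hle : ∀ t ∈ Ioo 0 b, c t ∈ ball x R → ENNReal.ofReal (‖c' t‖ ^ 2) ≤ H t) :
    ∫ t in (0 : ℝ)..b, ‖c' t‖ ≤ 3 * R / 8 := by
  have hcont : ContinuousOn c (Icc 0 b) := fun t ht =>
    (hc t ht).continuousAt.continuousWithinAt
  have hin : ∀ t ∈ Icc 0 b, c t ∈ ball x R := by
    by_contra hcon
    push Not at hcon
    set S : Set ℝ := Icc 0 b ∩ c ⁻¹' (ball x R)ᶜ with hS
    have hSc : IsClosed S := hcont.preimage_isClosed_of_isClosed isClosed_Icc
      isOpen_ball.isClosed_compl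
    have hSn : S.Nonempty := by
      obtain ⟨t, ht, ht'⟩ := hcon
      exact ⟨t, ht, ht'⟩
    have hSb : BddBelow S := ⟨0, fun t ht => ht.1.1⟩
    obtain ⟨⟨ht0, ht1⟩, ht2⟩ := hSc.csInf_mem hSn hSb
    have hsub : Icc 0 (sInf S) ⊆ Icc 0 b := Icc_subset_Icc_right ht1
    have h1 := cross_energy ht0 (ht1.trans hbπ) hR (hc'.mono hsub) hH fun t ht => by
      refine hle t ⟨ht.1, lt_of_lt_of_le ht.2 ht1⟩ ?_
      by_contra hn
      exact absurd (csInf_le hSb ⟨⟨ht.1.le, ht.2.le.trans ht1⟩, hn⟩) (not_le.2 ht.2)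
    have h2 := cross_len ht0 (fun t ht => hc t (hsub ht)) (hc'.mono hsub)
    apply ht2
    rw [mem_ball, dist_eq_norm]
    have h3 := norm_add_le (c (sInf S) - c 0) (c 0 - x)
    rw [sub_add_sub_cancel] at h3
    linarith
  exact cross_energy hb hbπ hR hc' hH fun t ht => hle t ht (hin t (Ioo_subset_Icc_self ht))

/-- Polar coordinates about a point of the unit circle. -/
theorem cross_polar {G : ℂ → ℝ≥0∞} (hG : Measurable G) {u : ℂ} (hu : ‖u‖ = 1) :
    ∫⁻ s in Ioi (0 : ℝ), ∫⁻ α in Ioo (-Real.pi) Real.pi,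
      ENNReal.ofReal s * G (u * (1 - s * Complex.exp (α * Complex.I))) = ∫⁻ z, G z := by
  have h1 : ∫⁻ z, G (u * (1 - z)) = ∫⁻ z, G z := by
    rw [lintegral_sub_left_eq_self (fun z => G (u * z)) 1]
    exact (rotation ⟨u, mem_sphere_zero_iff_norm.2 hu⟩).measurePreserving.lintegral_comp hG
  rw [← h1, ← Complex.lintegral_comp_polarCoord_symm, polarCoord_target, Measure.volume_eq_prod,
    setLIntegral_prod]
  · refine lintegral_congr fun s => lintegral_congr fun α => ?_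
    rw [Complex.polarCoord_symm_apply, smul_eq_mul, Complex.exp_mul_I, Complex.ofReal_cos,
      Complex.ofReal_sin]
  · refine Measurable.aemeasurable ?_
    simp only [Complex.polarCoord_symm_apply, smul_eq_mul]
    refine Measurable.mul (by fun_prop) (hG.comp ?_)
    exact Continuous.measurable (by fun_prop)

/-- The choice of a good radius. -/
theorem cross_pick {A : ℝ → ℝ≥0∞} {σ R : ℝ} (hσ : 0 < σ) (hR : 0 < R)
    (hA : ∫⁻ s in Ioi (0 : ℝ), A s ≤ ENNReal.ofReal (Real.pi * R ^ 2)) :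
    ∃ s ∈ Ioo (6 * σ) (6 * Real.exp 160 * σ),
      A s ≤ ENNReal.ofReal (R ^ 2 / (8 * Real.pi) * s⁻¹) := by
  by_contra hcon
  push Not at hcon
  have hπ := Real.pi_pos
  have he : 1 ≤ Real.exp 160 := Real.one_le_exp (by norm_num)
  have hlt : 6 * σ ≤ 6 * Real.exp 160 * σ := by nlinarith
  have hi : IntervalIntegrable (fun s : ℝ => R ^ 2 / (8 * Real.pi) * s⁻¹) volume (6 * σ)
      (6 * Real.exp 160 * σ) := by
    refine ContinuousOn.intervalIntegrable ?_
    rw [uIcc_of_le hlt]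
    refine continuousOn_const.mul (continuousOn_id.inv₀ fun s hs => ?_)
    exact (lt_of_lt_of_le (by positivity) hs.1).ne'
  have h1 : ∫⁻ s in Ioo (6 * σ) (6 * Real.exp 160 * σ),
      ENNReal.ofReal (R ^ 2 / (8 * Real.pi) * s⁻¹) =
      ENNReal.ofReal (R ^ 2 / (8 * Real.pi) * 160) := by
    rw [← ofReal_integral_eq_lintegral_ofReal
      ((intervalIntegrable_iff_integrableOn_Ioo_of_le hlt).1 hi)
      ((ae_restrict_iff' measurableSet_Ioo).2 (ae_of_all _ fun s hs => by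
        have : 0 < s := lt_trans (by positivity) hs.1
        show (0 : ℝ) ≤ R ^ 2 / (8 * Real.pi) * s⁻¹
        positivity)),
      ← integral_Ioc_eq_integral_Ioo, ← intervalIntegral.integral_of_le hlt,
      intervalIntegral.integral_const_mul, integral_inv_of_pos (by positivity) (by positivity)]
    have : 6 * Real.exp 160 * σ / (6 * σ) = Real.exp 160 := by field_simp
    rw [this, Real.log_exp]
  have h2 : ENNReal.ofReal (R ^ 2 / (8 * Real.pi) * 160) ≤ ENNReal.ofReal (Real.pi * R ^ 2) := by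
    rw [← h1]
    refine le_trans (setLIntegral_mono' measurableSet_Ioo fun s hs => (hcon s hs).le) ?_
    refine le_trans (lintegral_mono_set fun s hs => ?_) hA
    exact lt_trans (by positivity : 0 < 6 * σ) hs.1
  rw [ENNReal.ofReal_le_ofReal_iff (by positivity), div_mul_eq_mul_div,
    div_le_iff₀ (by positivity)] at h2
  have h3 : Real.pi * Real.pi < 16 := by nlinarith [Real.pi_lt_four]
  have h4 : 0 < R ^ 2 := by positivity
  nlinarith

theorem cross_mem {u : ℂ} (hu : ‖u‖ = 1) {s : ℝ} (hs : 0 < s) (α : ℝ) :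
    u * (1 - s * Complex.exp (α * Complex.I)) ∈ ball (0 : ℂ) 1 ↔ s / 2 < Real.cos α := by
  have h1 : ‖1 - s * Complex.exp (α * Complex.I)‖ ^ 2 = 1 - 2 * s * Real.cos α + s ^ 2 := by
    rw [Complex.sq_norm, Complex.normSq_apply]
    simp only [Complex.sub_re, Complex.one_re, Complex.sub_im, Complex.one_im,
      Complex.re_ofReal_mul, Complex.im_ofReal_mul, Complex.exp_ofReal_mul_I_re,
      Complex.exp_ofReal_mul_I_im]
    linear_combination s ^ 2 * Real.cos_sq_add_sin_sq α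
  rw [mem_ball_zero_iff, norm_mul, hu, one_mul, ← sq_lt_one_iff₀ (norm_nonneg _), h1]
  constructor
  · intro h
    nlinarith
  · intro h
    nlinarith

/-- The area bound. -/
theorem cross_area (r : RM D φ ψ) (x : ℂ) {R : ℝ} (hR : 0 ≤ R) :
    ∫⁻ z, (ball (0 : ℂ) 1 ∩ φ ⁻¹' ball x R).indicator (fun z => ‖deriv φ z‖ₑ ^ 2) z ≤
      ENNReal.ofReal (Real.pi * R ^ 2) := by
  have h1 := r.cv ((ball x R).indicator 1)
  have h2 : ∫⁻ z in D, (ball x R).indicator (1 : ℂ → ℝ≥0∞) z ≤ ENNReal.ofReal (Real.pi * R ^ 2) := by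
    refine le_trans (setLIntegral_le_lintegral _ _) ?_
    rw [lintegral_indicator_one measurableSet_ball, Complex.volume_ball, mul_comm Real.pi,
      ENNReal.ofReal_mul (by positivity), ENNReal.ofReal_pow hR, ← NNReal.coe_real_pi,
      ENNReal.ofReal_coe_nnreal]
  refine le_trans (le_of_eq ?_) (h1 ▸ h2)
  rw [← lintegral_indicator measurableSet_ball]
  refine lintegral_congr fun z => ?_
  by_cases hz : z ∈ ball (0 : ℂ) 1
  · by_cases hz' : φ z ∈ ball x R
    · rw [indicator_of_mem (show z ∈ ball (0 : ℂ) 1 ∩ φ ⁻¹' ball x R from ⟨hz, hz'⟩),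
        indicator_of_mem hz, indicator_of_mem hz', Pi.one_apply, one_mul]
    · rw [indicator_of_notMem (fun h => hz' h.2), indicator_of_mem hz, indicator_of_notMem hz',
        zero_mul]
  · rw [indicator_of_notMem (fun h => hz h.1), indicator_of_notMem hz]

/-- The arc from the radial point to a point of the crosscut is short. -/
theorem cross_side (h : Dom D) (r : RM D φ ψ) {u x : ℂ} (hu : ‖u‖ = 1) {s R ε b : ℝ} (hs : 0 < s)
    (hR : 0 < R) (hε : ε = 1 ∨ ε = -1) (hb : 0 ≤ b) (hbπ : b ≤ Real.pi)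
    (hcos : s / 2 < Real.cos b) (h0 : ‖φ (u * (1 - s)) - x‖ ≤ R / 4)
    (hA : ∫⁻ α in Ioo (-Real.pi) Real.pi, ENNReal.ofReal s *
      (ball (0 : ℂ) 1 ∩ φ ⁻¹' ball x R).indicator (fun z => ‖deriv φ z‖ₑ ^ 2)
        (u * (1 - s * Complex.exp (α * Complex.I))) ≤
      ENNReal.ofReal (R ^ 2 / (8 * Real.pi) * s⁻¹)) :
    |rho D (φ (u * (1 - s * Complex.exp ((ε * b : ℝ) * Complex.I)))) - rho D (φ (u * (1 - s)))| ≤
        3 * R / 8 ∧
      ‖φ (u * (1 - s * Complex.exp ((ε * b : ℝ) * Complex.I))) - φ (u * (1 - s))‖ ≤ 3 * R / 8 := by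
  set ζ : ℝ → ℂ := fun t => u * (1 - s * Complex.exp ((ε * t : ℝ) * Complex.I)) with hζ
  set ζ' : ℝ → ℂ := fun t =>
    -(u * (s * (Complex.exp ((ε * t : ℝ) * Complex.I) * (ε * Complex.I)))) with hζ'
  have hεa : |ε| = 1 := by rcases hε with rfl | rfl <;> simp
  have hζd : ∀ t, HasDerivAt ζ (ζ' t) t := by
    intro t
    have h1 : HasDerivAt (fun t : ℝ => ((ε * t : ℝ) : ℂ) * Complex.I) (ε * Complex.I) t := by
      have := (((hasDerivAt_id t).const_mul ε).ofReal_comp).mul_const Complex.I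
      simpa using this
    have h2 := ((h1.cexp.const_mul (s : ℂ)).const_sub 1).const_mul u
    rw [mul_neg] at h2
    exact h2
  have hζn : ∀ t, ‖ζ' t‖ = s := by
    intro t
    simp only [hζ', norm_neg, norm_mul, hu, Complex.norm_exp_ofReal_mul_I, Complex.norm_real,
      Real.norm_eq_abs, hεa, Complex.norm_I, one_mul, mul_one, abs_of_pos hs]
  have hmem : ∀ t ∈ Icc 0 b, ζ t ∈ ball (0 : ℂ) 1 := by
    intro t ht
    rw [hζ]
    refine (cross_mem hu hs _).2 ?_
    have h1 : Real.cos (ε * t) = Real.cos t := by rcases hε with rfl | rfl <;> simp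
    rw [h1]
    exact lt_of_lt_of_le hcos (Real.cos_le_cos_of_nonneg_of_le_pi ht.1 hbπ ht.2)
  have hζc : Continuous ζ := by rw [hζ]; fun_prop
  have hζc' : Continuous ζ' := by rw [hζ']; fun_prop
  have hc : ∀ t ∈ Icc 0 b, HasDerivAt (fun t => φ (ζ t)) (deriv φ (ζ t) * ζ' t) t := by
    intro t ht
    exact (r.hasDerivAt (hmem t ht)).comp_of_eq t (hζd t) rfl
  have hc' : ContinuousOn (fun t => deriv φ (ζ t) * ζ' t) (Icc 0 b) :=
    (r.deriv_contOn.comp hζc.continuousOn hmem).mul hζc'.continuousOn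
  have hz0 : ζ 0 = u * (1 - s) := by simp [hζ]
  set H : ℝ → ℝ≥0∞ := (Ioo (-Real.pi) Real.pi).indicator fun α : ℝ => ENNReal.ofReal s *
    (ENNReal.ofReal s * (ball (0 : ℂ) 1 ∩ φ ⁻¹' ball x R).indicator (fun z => ‖deriv φ z‖ₑ ^ 2)
        (u * (1 - s * Complex.exp (α * Complex.I)))) with hH
  have hH1 : ∫⁻ t, H t ≤ ENNReal.ofReal (R ^ 2 / (8 * Real.pi)) := by
    rw [hH, lintegral_indicator measurableSet_Ioo,
      lintegral_const_mul' _ _ ENNReal.ofReal_ne_top]
    refine le_trans (mul_le_mul_right hA _) (le_of_eq ?_)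
    rw [← ENNReal.ofReal_mul hs.le]
    congr 1
    field_simp
  have hH2 : ∫⁻ t, H (ε * t) ≤ ENNReal.ofReal (R ^ 2 / (8 * Real.pi)) := by
    rcases hε with rfl | rfl
    · simpa only [one_mul] using hH1
    · simp only [neg_mul, one_mul]
      rw [lintegral_neg_eq_self H]
      exact hH1
  have key := cross_arc (c := fun t => φ (ζ t)) (x := x) hb hbπ hR hc hc' (by rwa [hz0]) hH2
    (fun t ht hx => by
      have h1 : ε * t ∈ Ioo (-Real.pi) Real.pi := by
        have := ht.1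
        have := ht.2
        rcases hε with rfl | rfl <;> constructor <;> linarith
      rw [hH, indicator_of_mem h1, indicator_of_mem
        (show ζ t ∈ ball (0 : ℂ) 1 ∩ φ ⁻¹' ball x R from ⟨hmem t (Ioo_subset_Icc_self ht), hx⟩),
        norm_mul, hζn, ← ofReal_norm, ← ENNReal.ofReal_pow (norm_nonneg _),
        ← ENNReal.ofReal_mul hs.le, ← ENNReal.ofReal_mul hs.le]
      refine le_of_eq ?_
      congr 1
      ring)
  have k1 := rho_curve h hb hc hc' fun t ht => r.maps (hmem t ht)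
  have k2 := cross_len hb hc hc'
  simp only [hz0] at k1 k2
  exact ⟨k1.trans key, k2.trans key⟩

theorem crosscut (h : Dom D) (r : RM D φ ψ) : ∃ σ₀ lam : ℝ, 0 < σ₀ ∧ 1 ≤ lam ∧
    ∀ a ∈ ball (0 : ℂ) 1, 1 - ‖a‖ < σ₀ → ∃ (u : ℂ) (s : ℝ), ‖u‖ = 1 ∧ s < 1 ∧
      (∀ w ∈ ball (0 : ℂ) 1, a ∈ cone w → ‖w - u‖ < s) ∧
      ∀ ζ ∈ ball (0 : ℂ) 1, ‖ζ - u‖ = s →
        |rho D (φ ζ) - rho D (φ a)| ≤ lam * dl D (φ a) ∧ ‖φ ζ - φ a‖ ≤ lam * dl D (φ a) := by
  set M : ℝ := 6 * Real.exp 160 with hM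
  have he : 1 ≤ Real.exp 160 := Real.one_le_exp (by norm_num)
  have hM6 : 6 ≤ M := by rw [hM]; linarith
  set C₁ : ℝ := Real.exp (128 * M) with hC₁
  have hC : 1 ≤ C₁ := Real.one_le_exp (by positivity)
  refine ⟨1 / (2 * M), 4 * C₁, by positivity, by linarith, fun a ha hσ₀ => ?_⟩
  set σ : ℝ := 1 - ‖a‖ with hσ
  have hσp : 0 < σ := by rw [hσ]; linarith [mem_ball_zero_iff.1 ha]
  have hMσ : M * σ < 1 / 2 := by
    rw [lt_div_iff₀ (by positivity)] at hσ₀
    linarith
  have hσ1 : σ < 1 / 2 := by nlinarith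
  have han : 0 < ‖a‖ := by linarith
  set u : ℂ := a / (‖a‖ : ℂ) with hu
  have hun : ‖u‖ = 1 := by
    rw [hu, norm_div, Complex.norm_real, Real.norm_eq_abs, abs_of_pos han, div_self han.ne']
  have hau : a = u * (1 - σ : ℝ) := by
    have : (1 - σ : ℝ) = ‖a‖ := by rw [hσ]; ring
    rw [this, hu, div_mul_cancel₀]
    exact_mod_cast han.ne'
  have hδ : 0 < dl D (φ a) := dl_pos h (r.maps ha)
  set δ : ℝ := dl D (φ a) with hδ'
  set R : ℝ := 4 * C₁ * δ with hR
  have hRp : 0 < R := by positivity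
  have hG : Measurable ((ball (0 : ℂ) 1 ∩ φ ⁻¹' ball (φ a) R).indicator
      fun z => ‖deriv φ z‖ₑ ^ 2) :=
    ((measurable_deriv φ).enorm.pow_const 2).indicator
      (measurableSet_ball.inter (r.mφ measurableSet_ball))
  obtain ⟨s, ⟨hs1, hs2⟩, hA⟩ := cross_pick hσp hRp
    ((cross_polar hG hun).le.trans (cross_area r (φ a) hRp.le))
  rw [← hM] at hs2
  have hs : 0 < s := by linarith
  have hs3 : s < 1 / 2 := by linarith
  -- the radial point
  have hp : ‖u * (1 - s)‖ ≤ 1 - σ := by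
    rw [norm_mul, hun, one_mul, ← Complex.ofReal_one, ← Complex.ofReal_sub, Complex.norm_real,
      Real.norm_eq_abs, abs_of_nonneg (by linarith)]
    linarith
  have hpa : ‖u * (1 - s) - a‖ ≤ M * σ := by
    have e : u * (1 - s) - a = u * ((σ - s : ℝ) : ℂ) := by
      rw [hau]
      push_cast
      ring
    rw [e, norm_mul, hun, one_mul, Complex.norm_real, Real.norm_eq_abs,
      abs_of_nonpos (by linarith)]
    linarith
  obtain ⟨-, -, g1, g2⟩ := r.seg h (ζ := a) (ζ' := u * (1 - s)) hσp (by rw [hσ]; linarith) hp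
  have hexp : Real.exp (128 * ‖u * (1 - s) - a‖ / σ) * δ ≤ R / 4 := by
    have h1 : 128 * ‖u * (1 - s) - a‖ / σ ≤ 128 * M := by
      rw [div_le_iff₀ hσp]
      linarith
    have h2 := mul_le_mul_of_nonneg_right (Real.exp_le_exp.2 h1) hδ.le
    rw [hR]
    linarith
  have g1' := g1.trans hexp
  have g2' := g2.trans hexp
  refine ⟨u, s, hun, by linarith, fun w hw haw => ?_, fun ζ hζ hζu => ?_⟩
  · have h1 := cone_near hw haw
    have h2 : ‖a - u‖ = σ := by
      have e : a - u = u * ((-σ : ℝ) : ℂ) := by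
        rw [hau]
        push_cast
        ring
      rw [e, norm_mul, hun, one_mul, Complex.norm_real, Real.norm_eq_abs, abs_neg, abs_of_pos hσp]
    have h3 := norm_add_le (w - a) (a - u)
    rw [sub_add_sub_cancel, norm_sub_rev w a] at h3
    linarith
  · have hu0 : u ≠ 0 := by
      intro h0
      rw [h0, norm_zero] at hun
      exact zero_ne_one hun
    set β : ℝ := Complex.arg ((u - ζ) / u) with hβ
    have hn : ‖(u - ζ) / u‖ = s := by rw [norm_div, hun, div_one, norm_sub_rev, hζu]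
    have hζe : ζ = u * (1 - s * Complex.exp (β * Complex.I)) := by
      have := Complex.norm_mul_exp_arg_mul_I ((u - ζ) / u)
      rw [hn, ← hβ] at this
      rw [this]
      field_simp
      ring
    have hcos : s / 2 < Real.cos |β| := by
      rw [Real.cos_abs, ← cross_mem hun hs, ← hζe]
      exact hζ
    obtain ⟨ε, hε, hεβ⟩ : ∃ ε : ℝ, (ε = 1 ∨ ε = -1) ∧ ε * |β| = β := by
      rcases le_total 0 β with h0 | h0
      · exact ⟨1, Or.inl rfl, by rw [abs_of_nonneg h0, one_mul]⟩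
      · exact ⟨-1, Or.inr rfl, by rw [abs_of_nonpos h0]; ring⟩
    obtain ⟨k1, k2⟩ := cross_side h r hun hs hRp hε (abs_nonneg β) (Complex.abs_arg_le_pi _) hcos
      g1' hA
    rw [hεβ, ← hζe] at k1 k2
    constructor
    · have := abs_sub_le (rho D (φ ζ)) (rho D (φ (u * (1 - s)))) (rho D (φ a))
      linarith
    · have := norm_add_le (φ ζ - φ (u * (1 - s))) (φ (u * (1 - s)) - φ a)
      rw [sub_add_sub_cancel] at this
      linarith

end Pool.Agent.P.MP_6c0067_an
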