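import Pool.Agent.P.MP_6c0067_an.Stmt

/-! Auxiliary notions for the proof of the front criterion. -/

open Set MeasureTheory Metric
open scoped ENNReal NNReal

namespace Pool.Agent.P.MP_6c0067_an

noncomputable section

open Classical

/-- A proper domain which contains the origin. -/
structure Dom (D : Set ℂ) : Prop where
  isOpen : IsOpen D
  conn : IsPreconnected D
  zero : (0 : ℂ) ∈ D
  ne : Dᶜ.Nonempty

/-- The inner distance from the origin as a real number. -/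
def rho (D : Set ℂ) (z : ℂ) : ℝ := (innerDist D z).toReal

/-- The distance to the complement. -/
def dl (D : Set ℂ) (x : ℂ) : ℝ := infDist x Dᶜ

/-- The superlevel sets of the inner distance. -/
def Bt (D : Set ℂ) (t : ℝ) : Set ℂ := {z ∈ D | t < rho D z}

/-- The level sets of the inner distance. -/
def Lv (D : Set ℂ) (t : ℝ) : Set ℂ := {z ∈ D | rho D z = t}

/-- A dense sequence. -/
def q : ℕ → ℂ := TopologicalSpace.denseSeq ℂ

/-- The piece of level `t` which contains `q n`; it is empty if there is none. -/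
def Un (D : Set ℂ) (n : ℕ) (t : ℝ) : Set ℂ := connectedComponentIn (Bt D t) (q n)

/-- `n` is the least index of a point of the dense sequence in its piece of level `t`. -/
def First (D : Set ℂ) (n : ℕ) (t : ℝ) : Prop := q n ∈ Bt D t ∧ ∀ m < n, q m ∉ Un D n t

/-- The union of the fronts of the pieces which contain `q n`. -/
def Rn (D : Set ℂ) (n : ℕ) : Set ℂ := {y ∈ D | y ∈ frontier (Un D n (rho D y))}

/-- A measurable family of measures comparable to the length on the level sets, with the coarea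
formula up to a constant. -/
structure Coarea (D : Set ℂ) (ℓ : ℝ → Measure ℂ) (C : ℝ≥0) : Prop where
  one_le : 1 ≤ C
  meas : ∀ F : ℂ → ℝ≥0∞, Measurable F → Measurable fun t => ∫⁻ y, F y ∂ℓ t
  supp : ∀ t, ℓ t (Lv D t)ᶜ = 0
  le_vol : ∀ F : ℂ → ℝ≥0∞, Measurable F → ∫⁻ t, ∫⁻ y, F y ∂ℓ t ≤ C * ∫⁻ y in D, F y
  vol_le : ∀ F : ℂ → ℝ≥0∞, Measurable F → ∫⁻ y in D, F y ≤ C * ∫⁻ t, ∫⁻ y, F y ∂ℓ t
  le_haus : ∀ t, 0 < t → ∀ E, MeasurableSet E → ℓ t E ≤ C * μH[1] (E ∩ Lv D t)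
  haus_le : ∀ t, 0 < t → ∀ E, MeasurableSet E → μH[1] (E ∩ Lv D t) ≤ C * ℓ t E

/-- The front condition written with the dense sequence and the measures `ℓ`. -/
def TreeC (D : Set ℂ) (ℓ : ℝ → Measure ℂ) : Prop :=
  ∃ K : ℝ≥0, ∀ t₀ : ℝ, dl D 0 ≤ t₀ → ∀ n, q n ∈ Bt D t₀ →
    ∫⁻ t in Ioi t₀, ∑' m, (if First D m t ∧ q m ∈ Un D n t₀ then
      volume (Un D m t) ^ 2 / ℓ t (Rn D m) else 0) ≤ K * volume (Un D n t₀)

/-- The energy of the flow on the tree of pieces generated by the density `f`. -/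
def embSum (D : Set ℂ) (ℓ : ℝ → Measure ℂ) (f : ℂ → ℝ≥0∞) : ℝ≥0∞ :=
  ∫⁻ t in Ioi (dl D 0), ∑' m, (if First D m t then
    (∫⁻ z in Un D m t, f z) ^ 2 / ℓ t (Rn D m) else 0)

/-- The density of this flow on the fronts. -/
def Gf (D : Set ℂ) (ℓ : ℝ → Measure ℂ) (f : ℂ → ℝ≥0∞) (y : ℂ) : ℝ≥0∞ :=
  ∑' m, if First D m (rho D y) ∧ y ∈ Rn D m ∧ dl D 0 < rho D y then
    (∫⁻ z in Un D m (rho D y), f z) / ℓ (rho D y) (Rn D m) else 0

/-- The function on `D` given by a density `g` on the tree of pieces. -/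
def uf (D : Set ℂ) (g : ℕ → ℝ → ℝ≥0∞) (z : ℂ) : ℝ≥0∞ :=
  ∫⁻ t, ∑' m, if First D m t ∧ z ∈ Un D m t then g m t else 0

/-- Its upper gradient. -/
def Gu (D : Set ℂ) (g : ℕ → ℝ → ℝ≥0∞) (y : ℂ) : ℝ≥0∞ :=
  ⨆ m, if First D m (rho D y) ∧ y ∈ Rn D m then g m (rho D y) else 0

/-- A Riemann map `φ` of the unit disc onto `D`, its inverse `ψ`, and the Koebe bounds. -/
structure RM (D : Set ℂ) (φ ψ : ℂ → ℂ) : Prop where
  dφ : DifferentiableOn ℂ φ (ball 0 1)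
  dψ : DifferentiableOn ℂ ψ D
  mφ : Measurable φ
  mψ : Measurable ψ
  maps : MapsTo φ (ball 0 1) D
  maps' : MapsTo ψ D (ball 0 1)
  left : ∀ w ∈ ball (0 : ℂ) 1, ψ (φ w) = w
  right : ∀ z ∈ D, φ (ψ z) = z
  zero : φ 0 = 0
  lower : ∀ w ∈ ball (0 : ℂ) 1, (1 - ‖w‖) * ‖deriv φ w‖ ≤ 64 * dl D (φ w)
  upper : ∀ w ∈ ball (0 : ℂ) 1, dl D (φ w) ≤ 2 * (1 - ‖w‖) * ‖deriv φ w‖

/-- A hyperbolic neighbourhood of the segment from `0` to `w`. -/
def cone (w : ℂ) : Set ℂ := {a | ∃ s ∈ Icc (0 : ℝ) 1, ‖a - s * w‖ < (1 - s * ‖w‖) / 2}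

/-- The Hardy operator of the disc. -/
def T (g : ℂ → ℝ≥0∞) (w : ℂ) : ℝ≥0∞ := ∫⁻ a in cone w, g a * ENNReal.ofReal (1 - ‖a‖)⁻¹

/-- The Hardy operator is bounded from `L²` of the disc to `L²(D)`. -/
def TB (D : Set ℂ) (ψ : ℂ → ℂ) : Prop :=
  ∃ K : ℝ≥0, ∀ g : ℂ → ℝ≥0∞, Measurable g →
    ∫⁻ z in D, T g (ψ z) ^ 2 ≤ K * ∫⁻ a in ball (0 : ℂ) 1, g a ^ 2

/-- The mass of the shadow of `a`. -/
def Hs (D : Set ℂ) (ψ : ℂ → ℂ) (f : ℂ → ℝ≥0∞) (a : ℂ) : ℝ≥0∞ :=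
  ∫⁻ z in {z ∈ D | a ∈ cone (ψ z)}, f z

end

end Pool.Agent.P.MP_6c0067_an
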