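import Pool.Agent.P.MP_6c0067_an.Rho

/-! Descending directions and charts. `descend`: for every `ε` the path of `rho_split` meets
the circle of radius `τ` about `y` (intermediate value theorem for the distance to `y`), at a point
`p` with `rho p + τ ≤ rho y + ε`; take a minimum point of `rho` on the circle (compact), the
reverse inequality is `rho_ball`. `semiconcave`: `rho y' ≤ rho (y + τ e) + ‖y' - y - τ e‖` and
`‖k - τ e‖ ≤ τ - re (conj e * k) + ‖k‖² / (2 τ)` (square both sides).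
`charts`: for `y₀ ∈ D`, `y₀ ≠ 0` put `τ = min (dl y₀) ‖y₀‖ / 4`; for a unit vector `e₀` the set of
`y ∈ closedBall y₀ (τ / 8)` for which some unit `e` with `‖e - e₀‖ ≤ 1 / 4` has
`rho (y + τ e) = rho y - τ` is compact (projection of a compact set), and two of its points
satisfy the estimate by `semiconcave` applied both ways (error `1/4 + 1/8`). Countably many balls
cover `D \ {0}` (`TopologicalSpace.countable_cover_nhdsWithin` or Lindelöf), countably many `e₀`
are dense in the circle; make the cover disjoint (`disjointed`). -/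

open Set MeasureTheory Metric
open scoped ENNReal NNReal

namespace Pool.Agent.P.MP_6c0067_an

open Classical

variable {D : Set ℂ}

theorem descend (h : Dom D) {y : ℂ} {τ : ℝ} (hτ : 0 < τ) (hb : closedBall y τ ⊆ D)
    (h0 : τ ≤ ‖y‖) : ∃ e : ℂ, ‖e‖ = 1 ∧ rho D (y + τ * e) = rho D y - τ := by
  have hsD : sphere y τ ⊆ D := sphere_subset_closedBall.trans hb
  obtain ⟨p, hp, hmin⟩ := (isCompact_sphere y τ).exists_isMinOn
    (NormedSpace.sphere_nonempty.2 hτ.le) ((rho_contOn h).mono hsD)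
  have hp' : ‖p - y‖ = τ := mem_sphere_iff_norm.1 hp
  have hτ' : (τ : ℂ) ≠ 0 := Complex.ofReal_ne_zero.2 hτ.ne'
  have e1 : y + τ * ((p - y) / τ) = p := by
    field_simp
    ring
  refine ⟨(p - y) / τ, by rw [norm_div, hp', Complex.norm_real, Real.norm_of_nonneg hτ.le,
    div_self hτ.ne'], ?_⟩
  rw [e1]
  have hy : y ∈ closedBall y τ := mem_closedBall_self hτ.le
  refine le_antisymm (le_of_forall_pos_le_add fun ε hε => ?_) ?_
  · obtain ⟨γ, hγ, -, g0, g1, hs⟩ := rho_split h (hb hy) hε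
    have hc : ContinuousOn (fun s => ‖y - γ s‖) (Icc 0 1) := (continuousOn_const.sub hγ).norm
    obtain ⟨s, hs1, hs2⟩ := intermediate_value_Icc' zero_le_one hc
      (show τ ∈ Icc ‖y - γ 1‖ ‖y - γ 0‖ by
        rw [g0, g1, sub_self, sub_zero, norm_zero]
        exact ⟨hτ.le, h0⟩)
    have hs3 : ‖y - γ s‖ = τ := hs2
    have e2 : rho D p ≤ rho D (γ s) := hmin (mem_sphere_iff_norm.2 ((norm_sub_rev _ _).trans hs3))
    have e3 := hs s hs1
    linarith
  · have e2 := rho_ball h hb hy (sphere_subset_closedBall hp)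
    rw [hp'] at e2
    linarith [(abs_le.1 e2).1]

theorem semiconcave (h : Dom D) {y y' e : ℂ} {τ : ℝ} (hτ : 0 < τ) (he : ‖e‖ = 1)
    (hd : rho D (y + τ * e) = rho D y - τ) (hs : segment ℝ (y + τ * e) y' ⊆ D) :
    rho D y' - rho D y ≤ -((starRingEnd ℂ) e * (y' - y)).re + ‖y' - y‖ ^ 2 / (2 * τ) := by
  have e1 := rho_seg h hs
  have e2 : y' - (y + τ * e) = (y' - y) - τ * e := by ring
  rw [hd, e2] at e1
  generalize y' - y = k at e1 ⊢
  have he2 : e.re ^ 2 + e.im ^ 2 = 1 := by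
    rw [← Complex.normSq_add_mul_I, Complex.re_add_im, Complex.normSq_eq_norm_sq, he, one_pow]
  have e3 : ‖k - τ * e‖ ^ 2 = ‖k‖ ^ 2 - 2 * τ * ((starRingEnd ℂ) e * k).re + τ ^ 2 := by
    rw [← Complex.normSq_eq_norm_sq, ← Complex.normSq_eq_norm_sq, Complex.normSq_apply,
      Complex.normSq_apply]
    simp only [Complex.sub_re, Complex.sub_im, Complex.mul_re, Complex.mul_im, Complex.ofReal_re,
      Complex.ofReal_im, Complex.conj_re, Complex.conj_im]
    linear_combination τ ^ 2 * he2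
  have e4 : ‖k - τ * e‖ - τ + ((starRingEnd ℂ) e * k).re ≤ ‖k‖ ^ 2 / (2 * τ) := by
    rw [le_div_iff₀ (by positivity)]
    nlinarith [sq_nonneg (‖k - τ * e‖ - τ)]
  linarith

/-- The points near `c` with a descending direction near `e₀`. -/
def DescK (D : Set ℂ) (τ : ℝ) (c e₀ : ℂ) : Set ℂ :=
  Prod.fst '' (closedBall c (τ / 8) ×ˢ (sphere 0 1 ∩ closedBall e₀ (1 / 4)) ∩
    (fun p : ℂ × ℂ => rho D (p.1 + τ * p.2) - rho D p.1) ⁻¹' {-τ})

theorem Desc_mem {τ : ℝ} {c y e : ℂ} (hτ : 0 < τ) (hy : y ∈ closedBall c (τ / 8)) (he : ‖e‖ = 1) :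
    y + τ * e ∈ closedBall c (2 * τ) := by
  rw [mem_closedBall_iff_norm] at hy ⊢
  have e1 : y + τ * e - c = (y - c) + τ * e := by ring
  have e2 := norm_add_le (y - c) (τ * e)
  rw [norm_mul, he, Complex.norm_real, Real.norm_of_nonneg hτ.le] at e2
  rw [e1]
  linarith

theorem Desc_compact (h : Dom D) {τ : ℝ} {c : ℂ} (hτ : 0 < τ) (hb : closedBall c (2 * τ) ⊆ D)
    (e₀ : ℂ) : IsCompact (DescK D τ c e₀) := by
  have hS : IsCompact (closedBall c (τ / 8) ×ˢ (sphere (0 : ℂ) 1 ∩ closedBall e₀ (1 / 4))) :=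
    (isCompact_closedBall _ _).prod ((isCompact_sphere _ _).inter_right isClosed_closedBall)
  refine (hS.of_isClosed_subset ?_ inter_subset_left).image continuous_fst
  refine ContinuousOn.preimage_isClosed_of_isClosed ?_ hS.isClosed isClosed_singleton
  refine ((rho_contOn h).comp (by fun_prop) fun p hp => ?_).sub
    ((rho_contOn h).comp continuousOn_fst fun p hp => ?_)
  · exact hb (Desc_mem hτ hp.1 (mem_sphere_zero_iff_norm.1 hp.2.1))
  · exact hb (closedBall_subset_closedBall (by linarith) hp.1)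

theorem Desc_half (h : Dom D) {τ : ℝ} {c e₀ y y' : ℂ} (hτ : 0 < τ) (hb : closedBall c (2 * τ) ⊆ D)
    (hy : y ∈ DescK D τ c e₀) (hy' : y' ∈ closedBall c (τ / 8)) :
    rho D y' - rho D y + ((starRingEnd ℂ) e₀ * (y' - y)).re ≤ ‖y' - y‖ / 2 := by
  obtain ⟨⟨y, e⟩, ⟨⟨h1, h2, h3⟩, h4⟩, rfl⟩ := hy
  have he : ‖e‖ = 1 := mem_sphere_zero_iff_norm.1 h2
  have h4' : rho D (y + τ * e) - rho D y = -τ := h4
  have e1 := semiconcave h (y' := y') hτ he (by linarith) (((convex_closedBall c (2 * τ)).segment_subset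
    (Desc_mem hτ h1 he) (closedBall_subset_closedBall (by linarith) hy')).trans hb)
  have e2 : ‖y' - y‖ ≤ τ / 4 := by
    have := dist_triangle_right y' y c
    rw [dist_eq_norm] at this
    linarith [mem_closedBall.1 hy', mem_closedBall.1 h1]
  have e3 : ((starRingEnd ℂ) (e₀ - e) * (y' - y)).re ≤ 1 / 4 * ‖y' - y‖ := by
    refine (Complex.re_le_norm _).trans ?_
    rw [norm_mul, Complex.norm_conj]
    exact mul_le_mul_of_nonneg_right (mem_closedBall_iff_norm'.1 h3) (norm_nonneg _)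
  have e4 : ‖y' - y‖ ^ 2 / (2 * τ) ≤ ‖y' - y‖ / 8 := by
    rw [div_le_iff₀ (by positivity)]
    nlinarith [norm_nonneg (y' - y)]
  rw [map_sub, sub_mul, Complex.sub_re] at e3
  change rho D y' - rho D y + ((starRingEnd ℂ) e₀ * (y' - y)).re ≤ ‖y' - y‖ / 2
  linarith [norm_nonneg (y' - y)]

theorem Desc_sub {τ : ℝ} {c e₀ : ℂ} : DescK D τ c e₀ ⊆ closedBall c (τ / 8) := by
  rintro _ ⟨p, hp, rfl⟩
  exact hp.1.1

theorem charts (h : Dom D) : ∃ (P : ℕ → Set ℂ) (e : ℕ → ℂ), (∀ i, MeasurableSet (P i)) ∧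
    Pairwise (Function.onFun Disjoint P) ∧ (⋃ i, P i) = D \ {0} ∧ (∀ i, ‖e i‖ = 1) ∧
    ∀ i, ∀ y ∈ P i, ∀ y' ∈ P i, |rho D y' - rho D y| ≤ ‖y' - y‖ ∧
      |rho D y' - rho D y + ((starRingEnd ℂ) (e i) * (y' - y)).re| ≤ ‖y' - y‖ / 2 := by
  let τ : ℂ → ℝ := fun c => min (dl D c) ‖c‖ / 4
  have hτ : ∀ c ∈ D \ {0}, 0 < τ c := fun c hc =>
    div_pos (lt_min (dl_pos h hc.1) (norm_pos_iff.2 hc.2)) four_pos
  have hb : ∀ c ∈ D \ {0}, closedBall c (2 * τ c) ⊆ D := fun c hc => by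
    refine (closedBall_subset_ball ?_).trans (ball_dl D c)
    have e1 := min_le_left (dl D c) ‖c‖
    have e2 := dl_pos h hc.1
    simp only [τ]
    linarith
  have hn : ∀ c ∈ D \ {0}, ∀ y ∈ closedBall c (τ c / 8), τ c ≤ ‖y‖ := fun c hc y hy => by
    have e1 : 4 * τ c ≤ ‖c‖ := by
      have := min_le_right (dl D c) ‖c‖
      simp only [τ]
      linarith
    have e2 := norm_sub_norm_le c y
    have e3 := mem_closedBall_iff_norm'.1 hy
    have e4 := hτ c hc
    linarith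
  obtain ⟨t, ht, htc, hcov⟩ := TopologicalSpace.countable_cover_nhdsWithin
    (f := fun c => closedBall c (τ c / 8)) (s := D \ {0}) fun c hc =>
      mem_nhdsWithin_of_mem_nhds (closedBall_mem_nhds c (by linarith [hτ c hc]))
  obtain ⟨t', ht', htc', hcov'⟩ := TopologicalSpace.countable_cover_nhdsWithin
    (f := fun e : ℂ => closedBall e (1 / 4)) (s := sphere 0 1) fun e _ =>
      mem_nhdsWithin_of_mem_nhds (closedBall_mem_nhds e (by norm_num))
  obtain ⟨f, hf⟩ := (((htc.prod htc').image fun p => (DescK D (τ p.1) p.1 p.2, p.2)).insert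
    (∅, 1)).exists_eq_range (insert_nonempty _ _)
  have hg : ∀ i, MeasurableSet (f i).1 ∧ (f i).1 ⊆ D \ {0} ∧ ‖(f i).2‖ = 1 ∧
      ∀ y ∈ (f i).1, ∀ y' ∈ (f i).1, |rho D y' - rho D y| ≤ ‖y' - y‖ ∧
      |rho D y' - rho D y + ((starRingEnd ℂ) (f i).2 * (y' - y)).re| ≤ ‖y' - y‖ / 2 := by
    intro i
    rcases hf.symm.subset (mem_range_self i) with e | ⟨⟨c, e₀⟩, ⟨h1, h2⟩, e⟩
    · rw [e]
      exact ⟨MeasurableSet.empty, empty_subset _, norm_one, fun y hy => hy.elim⟩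
    · rw [← e]
      have hc := ht h1
      have k1 := hτ c hc
      have k2 : closedBall c (τ c / 8) ⊆ closedBall c (2 * τ c) :=
        closedBall_subset_closedBall (by linarith)
      refine ⟨(Desc_compact h k1 (hb c hc) e₀).measurableSet, fun y hy => ⟨hb c hc (k2 (Desc_sub hy)),
        norm_pos_iff.1 (k1.trans_le (hn c hc y (Desc_sub hy)))⟩,
        mem_sphere_zero_iff_norm.1 (ht' h2), fun y hy y' hy' =>
        ⟨rho_ball h (hb c hc) (k2 (Desc_sub hy)) (k2 (Desc_sub hy')), abs_le.2 ⟨?_, ?_⟩⟩⟩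
      · have e1 := Desc_half h k1 (hb c hc) hy' (Desc_sub hy)
        rw [norm_sub_rev, ← neg_sub y' y, mul_neg, Complex.neg_re] at e1
        change _ ≤ rho D y' - rho D y + ((starRingEnd ℂ) e₀ * (y' - y)).re
        linarith
      · exact Desc_half h k1 (hb c hc) hy (Desc_sub hy')
  refine ⟨disjointed fun i => (f i).1, fun i => (f i).2, MeasurableSet.disjointed fun i => (hg i).1,
    disjoint_disjointed _, ?_, fun i => (hg i).2.2.1, fun i y hy y' hy' =>
      (hg i).2.2.2 y (disjointed_subset (fun i => (f i).1) i hy) y'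
        (disjointed_subset (fun i => (f i).1) i hy')⟩
  rw [iUnion_disjointed]
  refine (iUnion_subset fun i => (hg i).2.1).antisymm fun y hy => ?_
  obtain ⟨c, hc, hyc⟩ := mem_iUnion₂.1 (hcov hy)
  have k1 := hτ c (ht hc)
  obtain ⟨e, he, hd⟩ := descend h k1 ((closedBall_subset_closedBall' (by
    linarith [mem_closedBall.1 hyc])).trans (hb c (ht hc))) (hn c (ht hc) y hyc)
  obtain ⟨e₀, he₀, hee⟩ := mem_iUnion₂.1 (hcov' (mem_sphere_zero_iff_norm.2 he))
  obtain ⟨i, hi⟩ := hf.subset (mem_insert_of_mem _ ⟨(c, e₀), ⟨hc, he₀⟩, rfl⟩)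
  refine mem_iUnion.2 ⟨i, ?_⟩
  rw [hi]
  refine ⟨(y, e), ⟨⟨hyc, mem_sphere_zero_iff_norm.2 he, hee⟩, ?_⟩, rfl⟩
  change rho D (y + τ c * e) - rho D y = -τ c
  linarith

end Pool.Agent.P.MP_6c0067_an
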