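import Pool.Agent.P.MP_6c0067_an.CV

/-! Distortion along segments. Let `b ∉ D` be a point nearest to `φ ζ` (`exists_dl`),
`c s = φ (ζ + s (ζ' - ζ))`, `k = 64 ‖ζ' - ζ‖ / σ`. By `RM.lower` and `dl D y ≤ ‖y - b‖` the function
`c s - b` has derivative of norm at most `k ‖c s - b‖`; Gronwall
(`norm_le_gronwallBound_of_norm_deriv_right_le`) gives `‖c s - b‖ ≤ exp k * dl D (φ ζ)`, so the
speed is at most `k * exp k * dl D (φ ζ)` and `k * exp k ≤ exp (2 k)`; use `rho_curve` for the last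
part. `RM.deriv_near`: both points have norm at most `1 - σ` with `σ = (1 - ‖w‖) / 2`; combine
`RM.seg` from `a` to `w` with `RM.upper` at `a` (`1 - ‖a‖ ≤ 3 σ`). `RM.rho_seg` is `rho_curve`. -/

open Set MeasureTheory Metric
open scoped ENNReal NNReal

namespace Pool.Agent.P.MP_6c0067_an

open Classical

variable {D : Set ℂ} {φ ψ : ℂ → ℂ}

private theorem Dist_norm {ζ ζ' : ℂ} {s : ℝ} (hs : s ∈ Icc (0 : ℝ) 1) :
    ‖ζ + s * (ζ' - ζ)‖ ≤ max ‖ζ‖ ‖ζ'‖ := by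
  have h1 := convex_closedBall (0 : ℂ) (max ‖ζ‖ ‖ζ'‖)
    (mem_closedBall_zero_iff.2 (le_max_left _ _)) (mem_closedBall_zero_iff.2 (le_max_right _ _))
    (sub_nonneg.2 hs.2) hs.1 (sub_add_cancel 1 s)
  have e : ζ + s * (ζ' - ζ) = (1 - s) • ζ + s • ζ' := by
    simp only [Complex.real_smul]
    push_cast
    ring
  rw [e]
  exact mem_closedBall_zero_iff.1 h1

private theorem Dist_mem {ζ ζ' : ℂ} (h1 : ζ ∈ ball (0 : ℂ) 1) (h2 : ζ' ∈ ball (0 : ℂ) 1) {s : ℝ}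
    (hs : s ∈ Icc (0 : ℝ) 1) : ζ + s * (ζ' - ζ) ∈ ball (0 : ℂ) 1 :=
  mem_ball_zero_iff.2 ((Dist_norm hs).trans_lt
    (max_lt (mem_ball_zero_iff.1 h1) (mem_ball_zero_iff.1 h2)))

private theorem Dist_deriv (r : RM D φ ψ) {ζ v : ℂ} {s : ℝ} (hs : ζ + s * v ∈ ball (0 : ℂ) 1) :
    HasDerivAt (fun s : ℝ => φ (ζ + s * v)) (deriv φ (ζ + s * v) * v) s := by
  have h1 : HasDerivAt (fun u : ℂ => ζ + u * v) v (s : ℂ) := by
    simpa using ((hasDerivAt_id (s : ℂ)).mul_const v).const_add ζ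
  exact ((r.hasDerivAt hs).comp (s : ℂ) h1).comp_ofReal

private theorem Dist_cont (r : RM D φ ψ) {ζ ζ' : ℂ} (h1 : ζ ∈ ball (0 : ℂ) 1)
    (h2 : ζ' ∈ ball (0 : ℂ) 1) :
    ContinuousOn (fun s : ℝ => deriv φ (ζ + s * (ζ' - ζ)) * (ζ' - ζ)) (Icc 0 1) :=
  (r.deriv_contOn.comp (by fun_prop) fun _ hs => Dist_mem h1 h2 hs).mul continuousOn_const

private theorem Dist_rho (h : Dom D) (r : RM D φ ψ) {ζ ζ' : ℂ} (h1 : ζ ∈ ball (0 : ℂ) 1)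
    (h2 : ζ' ∈ ball (0 : ℂ) 1) {s s' : ℝ} (h0 : 0 ≤ s) (hs : s ≤ s') (hs' : s' ≤ 1) :
    |rho D (φ (ζ + s' * (ζ' - ζ))) - rho D (φ (ζ + s * (ζ' - ζ)))| ≤
      ∫ x in s..s', ‖deriv φ (ζ + x * (ζ' - ζ))‖ * ‖ζ' - ζ‖ := by
  have hsub : Icc s s' ⊆ Icc 0 1 := Icc_subset_Icc h0 hs'
  have h3 := rho_curve h hs (fun x hx => Dist_deriv r (Dist_mem h1 h2 (hsub hx)))
    ((Dist_cont r h1 h2).mono hsub) fun x hx => r.maps (Dist_mem h1 h2 (hsub hx))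
  simpa only [norm_mul] using h3

theorem RM.seg (h : Dom D) (r : RM D φ ψ) {ζ ζ' : ℂ} {σ : ℝ} (hσ : 0 < σ) (h1 : ‖ζ‖ ≤ 1 - σ)
    (h2 : ‖ζ'‖ ≤ 1 - σ) :
    dl D (φ ζ') ≤ Real.exp (128 * ‖ζ' - ζ‖ / σ) * dl D (φ ζ) ∧
    ‖deriv φ ζ'‖ ≤ 64 / σ * (Real.exp (128 * ‖ζ' - ζ‖ / σ) * dl D (φ ζ)) ∧
    ‖φ ζ' - φ ζ‖ ≤ Real.exp (128 * ‖ζ' - ζ‖ / σ) * dl D (φ ζ) ∧
    |rho D (φ ζ') - rho D (φ ζ)| ≤ Real.exp (128 * ‖ζ' - ζ‖ / σ) * dl D (φ ζ) := by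
  have m1 : ζ ∈ ball (0 : ℂ) 1 := mem_ball_zero_iff.2 (by linarith)
  have m2 : ζ' ∈ ball (0 : ℂ) 1 := mem_ball_zero_iff.2 (by linarith)
  obtain ⟨b, hb, hd⟩ := exists_dl h (φ ζ)
  have d0 : 0 ≤ dl D (φ ζ) := infDist_nonneg
  set k : ℝ := 64 / σ * ‖ζ' - ζ‖ with hk
  have k0 : 0 ≤ k := by positivity
  have ek : 128 * ‖ζ' - ζ‖ / σ = k + k := by
    rw [hk]
    ring
  have hdl : ∀ y, dl D y ≤ ‖y - b‖ := fun y => by
    rw [← dist_eq_norm]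
    exact infDist_le_dist_of_mem hb
  have hder : ∀ s ∈ Icc (0 : ℝ) 1,
      ‖deriv φ (ζ + s * (ζ' - ζ))‖ ≤ 64 / σ * ‖φ (ζ + s * (ζ' - ζ)) - b‖ := fun s hs => by
    have h3 := r.lower _ (Dist_mem m1 m2 hs)
    have h4 : σ ≤ 1 - ‖ζ + s * (ζ' - ζ)‖ := by linarith [(Dist_norm hs).trans (max_le h1 h2)]
    have h5 := mul_le_mul_of_nonneg_right h4 (norm_nonneg (deriv φ (ζ + s * (ζ' - ζ))))
    rw [div_mul_eq_mul_div, le_div_iff₀' hσ]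
    linarith [hdl (φ (ζ + s * (ζ' - ζ)))]
  have hsp : ∀ s ∈ Icc (0 : ℝ) 1, ‖deriv φ (ζ + s * (ζ' - ζ))‖ * ‖ζ' - ζ‖ ≤
      k * ‖φ (ζ + s * (ζ' - ζ)) - b‖ := fun s hs => by
    rw [hk, mul_right_comm]
    exact mul_le_mul_of_nonneg_right (hder s hs) (norm_nonneg _)
  have hg : ∀ s ∈ Icc (0 : ℝ) 1, ‖φ (ζ + s * (ζ' - ζ)) - b‖ ≤ Real.exp k * dl D (φ ζ) := by
    intro s hs
    have h3 := norm_le_gronwallBound_of_norm_deriv_right_le (δ := dl D (φ ζ)) (K := k) (ε := 0)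
      (f := fun s : ℝ => φ (ζ + s * (ζ' - ζ)) - b)
      (fun x hx => ((Dist_deriv r (Dist_mem m1 m2 hx)).sub_const b).continuousAt.continuousWithinAt)
      (fun x hx => ((Dist_deriv r (Dist_mem m1 m2 (Ico_subset_Icc_self hx))).sub_const
        b).hasDerivWithinAt) (by simp [hd]) (fun x hx => by
        rw [add_zero, norm_mul]
        exact hsp x (Ico_subset_Icc_self hx)) s hs
    rw [gronwallBound_ε0, sub_zero, mul_comm (dl D (φ ζ))] at h3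
    exact h3.trans (mul_le_mul_of_nonneg_right
      (Real.exp_le_exp.2 (mul_le_of_le_one_right k0 hs.2)) d0)
  have e1 : Real.exp k * dl D (φ ζ) ≤ Real.exp (k + k) * dl D (φ ζ) :=
    mul_le_mul_of_nonneg_right (Real.exp_le_exp.2 (by linarith)) d0
  have hv : ∀ s ∈ Icc (0 : ℝ) 1, ‖deriv φ (ζ + s * (ζ' - ζ))‖ * ‖ζ' - ζ‖ ≤
      Real.exp (k + k) * dl D (φ ζ) := fun s hs => by
    rw [Real.exp_add, mul_assoc]
    exact (hsp s hs).trans (mul_le_mul (by linarith [Real.add_one_le_exp k]) (hg s hs)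
      (norm_nonneg _) (Real.exp_pos k).le)
  have o1 : (1 : ℝ) ∈ Icc (0 : ℝ) 1 := right_mem_Icc.2 zero_le_one
  have g1 := hg 1 o1
  have g2 := hder 1 o1
  have g3 := norm_image_sub_le_of_norm_deriv_le_segment_01'
    (f := fun s : ℝ => φ (ζ + s * (ζ' - ζ)))
    (fun x hx => (Dist_deriv r (Dist_mem m1 m2 hx)).hasDerivWithinAt) fun x hx => by
      rw [norm_mul]
      exact hv x (Ico_subset_Icc_self hx)
  have g4 := (Dist_rho h r m1 m2 le_rfl zero_le_one le_rfl).trans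
    (intervalIntegral.integral_mono_on zero_le_one (ContinuousOn.intervalIntegrable_of_Icc
      zero_le_one (by simpa only [norm_mul] using (Dist_cont r m1 m2).norm))
      intervalIntegrable_const hv)
  simp only [Complex.ofReal_one, one_mul, add_sub_cancel, Complex.ofReal_zero, zero_mul, add_zero,
    intervalIntegral.integral_const, sub_zero, one_smul] at g1 g2 g3 g4
  rw [ek]
  exact ⟨(hdl _).trans (g1.trans e1),
    g2.trans (mul_le_mul_of_nonneg_left (g1.trans e1) (by positivity)), g3, g4⟩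

theorem RM.deriv_near (h : Dom D) (r : RM D φ ψ) {w a : ℂ} (hw : w ∈ ball (0 : ℂ) 1)
    (ha : ‖a - w‖ ≤ (1 - ‖w‖) / 2) :
    ‖deriv φ w‖ ≤ 384 * Real.exp 128 * ‖deriv φ a‖ := by
  have hw' := mem_ball_zero_iff.1 hw
  set σ : ℝ := (1 - ‖w‖) / 2 with hσ
  have σ0 : 0 < σ := by linarith
  have a1 : ‖a‖ ≤ 1 - σ := by linarith [norm_le_norm_add_norm_sub' a w]
  have a2 : 1 - ‖a‖ ≤ 3 * σ := by
    linarith [norm_le_norm_add_norm_sub' w a, norm_sub_rev w a]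
  have h1 := (r.seg h σ0 a1 (ζ' := w) (by linarith)).2.1
  have h2 := r.upper a (mem_ball_zero_iff.2 (by linarith))
  have h3 : Real.exp (128 * ‖w - a‖ / σ) ≤ Real.exp 128 := by
    rw [Real.exp_le_exp, div_le_iff₀ σ0, norm_sub_rev]
    linarith
  have h4 : dl D (φ a) ≤ 6 * σ * ‖deriv φ a‖ :=
    h2.trans (mul_le_mul_of_nonneg_right (by linarith) (norm_nonneg _))
  refine h1.trans ((mul_le_mul_of_nonneg_left
    (mul_le_mul h3 h4 infDist_nonneg (Real.exp_pos _).le) (by positivity)).trans_eq ?_)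
  field_simp
  ring

theorem RM.rho_seg (h : Dom D) (r : RM D φ ψ) {ζ ζ' : ℂ} (h1 : ζ ∈ ball (0 : ℂ) 1)
    (h2 : ζ' ∈ ball (0 : ℂ) 1) {s s' : ℝ} (h0 : 0 ≤ s) (hs : s ≤ s') (hs' : s' ≤ 1) :
    |rho D (φ (ζ + s' * (ζ' - ζ))) - rho D (φ (ζ + s * (ζ' - ζ)))| ≤
      ∫ x in s..s', ‖deriv φ (ζ + x * (ζ' - ζ))‖ * ‖ζ' - ζ‖ :=
  Dist_rho h r h1 h2 h0 hs hs'

end Pool.Agent.P.MP_6c0067_an
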