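import Pool.Agent.P.MP_6c0067_an.Defs

/-! From a weak type bound to `L²`, and the Hardy-Littlewood maximal inequality.
`weak_to_L2`: `m² ≤ ∑ k : ℤ, 4 ^ (k + 1) * 1[2 ^ k < m]`, apply the hypothesis with `l = 2 ^ k`, and
`∑ k with 2 ^ (k - 1) < a, 2 ^ k ≤ 4 a`. (Or use the layer cake formula.)
`maximal`: for `l > 0` the set `A` of `x ∈ E` with quotient `> l` is covered by the 5-fold
enlargements of a disjoint subfamily of the balls `closedBall x (r x)`, `x ∈ A`
(`Vitali.exists_disjoint_subfamily_covering_enlargement_closedBall`; it is countable because the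
interiors are disjoint nonempty open sets). Work with `m x = quotient / 4 ≤` mean value
(`π ≤ 4`, the ball has area `π r²`): if `l * area < ∫ G` over a ball then
`l * area ≤ 2 ∫ G 1[l / 2 < G]` over the ball. The area is finite, so one can cancel. -/

open Set MeasureTheory Metric
open scoped ENNReal NNReal

namespace Pool.Agent.P.MP_6c0067_an

open Classical

variable {D : Set ℂ}

theorem Max_sq_le (a : ℝ≥0∞) : a ^ 2 ≤ ∑' k : ℤ,
    if ENNReal.ofReal (2 ^ k) < a then 4 * ENNReal.ofReal (2 ^ k) * ENNReal.ofReal (2 ^ k)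
    else 0 := by
  have key : ∀ b : ℝ, 0 < b → ENNReal.ofReal b ≤ a → ENNReal.ofReal b ^ 2 ≤ ∑' k : ℤ,
      if ENNReal.ofReal (2 ^ k) < a then 4 * ENNReal.ofReal (2 ^ k) * ENNReal.ofReal (2 ^ k)
      else 0 := by
    intro b hb hba
    obtain ⟨k, h1, h2⟩ := exists_mem_Ioc_zpow hb (one_lt_two (α := ℝ))
    refine le_trans ?_ (ENNReal.le_tsum k)
    have h0 : (0 : ℝ) < 2 ^ k := by positivity
    rw [if_pos (((ENNReal.ofReal_lt_ofReal_iff hb).2 h1).trans_le hba)]
    rw [zpow_add_one₀ two_ne_zero] at h2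
    have h3 : ENNReal.ofReal b ≤ ENNReal.ofReal (2 ^ k) * 2 := by
      refine (ENNReal.ofReal_le_ofReal h2).trans (le_of_eq ?_)
      rw [ENNReal.ofReal_mul h0.le, ENNReal.ofReal_ofNat]
    refine (pow_le_pow_left₀ (zero_le) h3 2).trans (le_of_eq ?_)
    ring
  rcases eq_or_ne a 0 with rfl | h0
  · simp
  rcases eq_or_ne a ⊤ with rfl | h1
  · refine le_of_eq_of_le (by simp) (top_le_iff.2 (ENNReal.eq_top_of_forall_nnreal_le fun r => ?_))
    refine le_trans ?_ (key (r + 1) (by positivity) le_top)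
    have h2 : (1 : ℝ≥0∞) ≤ ENNReal.ofReal (r + 1) := by
      rw [← ENNReal.ofReal_one]
      exact ENNReal.ofReal_le_ofReal (by linarith [r.coe_nonneg])
    have h3 : (r : ℝ≥0∞) ≤ ENNReal.ofReal (r + 1) := by
      rw [← ENNReal.ofReal_coe_nnreal]
      exact ENNReal.ofReal_le_ofReal (by linarith)
    exact h3.trans (le_self_pow₀ h2 two_ne_zero)
  · have := key a.toReal (ENNReal.toReal_pos h0 h1) (ENNReal.ofReal_toReal h1).le
    rwa [ENNReal.ofReal_toReal h1] at this

theorem Max_sum_le (a : ℝ≥0∞) :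
    ∑' k : ℤ, (if ENNReal.ofReal (2 ^ k / 2) < a then ENNReal.ofReal (2 ^ k) else 0) ≤ 4 * a := by
  rcases eq_or_ne a 0 with rfl | h0
  · simp
  rcases eq_or_ne a ⊤ with rfl | h1
  · simp
  obtain ⟨N, h2, h3⟩ := exists_mem_Ioc_zpow (ENNReal.toReal_pos h0 h1) (one_lt_two (α := ℝ))
  have inj : Function.Injective fun j : ℕ => N + 1 - (j : ℤ) := fun i j h => by
    simpa using h
  rw [← inj.tsum_eq]
  · have h4 : ∀ j : ℕ, (if ENNReal.ofReal (2 ^ (N + 1 - (j : ℤ)) / 2) < a then
        ENNReal.ofReal (2 ^ (N + 1 - (j : ℤ))) else 0) ≤ 2 * a * 2⁻¹ ^ j := by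
      intro j
      refine le_trans (b := ENNReal.ofReal (2 ^ (N + 1 - (j : ℤ)))) (by split_ifs <;> simp) ?_
      have e : (2 : ℝ) ^ (N + 1 - (j : ℤ)) = 2 * 2 ^ N * 2⁻¹ ^ j := by
        rw [zpow_sub₀ two_ne_zero, zpow_add_one₀ two_ne_zero, zpow_natCast, inv_pow]
        ring
      rw [e, ENNReal.ofReal_mul (by positivity), ENNReal.ofReal_mul (by positivity),
        ENNReal.ofReal_pow (by positivity), ENNReal.ofReal_inv_of_pos two_pos, ENNReal.ofReal_ofNat]
      gcongr
      exact ENNReal.ofReal_le_of_le_toReal h2.le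
    refine (ENNReal.tsum_le_tsum h4).trans (le_of_eq ?_)
    rw [ENNReal.tsum_mul_left, ENNReal.tsum_geometric_two]
    ring
  · intro k hk
    have h5 : ENNReal.ofReal (2 ^ k / 2) < a := by
      by_contra h
      exact hk (if_neg h)
    have h6 : (2 : ℝ) ^ (k - 1) < 2 ^ (N + 1) := by
      rw [zpow_sub_one₀ two_ne_zero, ← div_eq_mul_inv]
      exact ((ENNReal.ofReal_lt_iff_lt_toReal (by positivity) h1).1 h5).trans_le h3
    rw [zpow_lt_zpow_iff_right₀ one_lt_two] at h6
    exact ⟨(N + 1 - k).toNat, by simp only; omega⟩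

theorem weak_to_L2 {X Y : Type*} [MeasurableSpace X] [MeasurableSpace Y] (α : Measure X)
    (μ : Measure Y) {m : X → ℝ≥0∞} {f : Y → ℝ≥0∞} (hm : Measurable m) (hf : Measurable f)
    (K : ℝ≥0∞) (hw : ∀ l : ℝ, 0 < l → ENNReal.ofReal l * α {x | ENNReal.ofReal l < m x} ≤
      K * ∫⁻ y in {y | ENNReal.ofReal (l / 2) < f y}, f y ∂μ) :
    ∫⁻ x, m x ^ 2 ∂α ≤ 32 * K * ∫⁻ y, f y ^ 2 ∂μ := by
  have m1 : ∀ k : ℤ, MeasurableSet {x | ENNReal.ofReal (2 ^ k) < m x} := fun k =>
    measurableSet_lt measurable_const hm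
  have m2 : ∀ k : ℤ, MeasurableSet {y | ENNReal.ofReal (2 ^ k / 2) < f y} := fun k =>
    measurableSet_lt measurable_const hf
  have m3 : ∀ k : ℤ, Measurable fun y =>
      (if ENNReal.ofReal (2 ^ k / 2) < f y then ENNReal.ofReal (2 ^ k) else 0) * f y := fun k =>
    (Measurable.ite (m2 k) measurable_const measurable_const).mul hf
  calc ∫⁻ x, m x ^ 2 ∂α ≤ ∫⁻ x, ∑' k : ℤ, (if ENNReal.ofReal (2 ^ k) < m x then
        4 * ENNReal.ofReal (2 ^ k) * ENNReal.ofReal (2 ^ k) else 0) ∂α :=
        lintegral_mono fun x => Max_sq_le _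
    _ = ∑' k : ℤ, 4 * ENNReal.ofReal (2 ^ k) *
        (ENNReal.ofReal (2 ^ k) * α {x | ENNReal.ofReal (2 ^ k) < m x}) := by
        rw [lintegral_tsum fun k =>
          (Measurable.ite (m1 k) measurable_const measurable_const).aemeasurable]
        refine tsum_congr fun k => ?_
        rw [← mul_assoc, ← lintegral_indicator_const (m1 k)]
        exact lintegral_congr fun x => by simp only [indicator, mem_ofPred_eq]
    _ ≤ ∑' k : ℤ, 4 * K * ∫⁻ y, (if ENNReal.ofReal (2 ^ k / 2) < f y then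
        ENNReal.ofReal (2 ^ k) else 0) * f y ∂μ := by
        refine ENNReal.tsum_le_tsum fun k => ?_
        refine (mul_le_mul_right (hw _ (by positivity)) _).trans (le_of_eq ?_)
        rw [mul_mul_mul_comm, ← lintegral_const_mul _ hf, ← lintegral_indicator (m2 k)]
        congr 1
        exact lintegral_congr fun y => by
          simp only [indicator, mem_ofPred_eq]
          split_ifs <;> simp
    _ = 4 * K * ∫⁻ y, ∑' k : ℤ, (if ENNReal.ofReal (2 ^ k / 2) < f y then
        ENNReal.ofReal (2 ^ k) else 0) * f y ∂μ := by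
        rw [ENNReal.tsum_mul_left, lintegral_tsum fun k => (m3 k).aemeasurable]
    _ ≤ 4 * K * ∫⁻ y, 8 * f y ^ 2 ∂μ := by
        refine mul_le_mul_right (lintegral_mono fun y => ?_) _
        rw [ENNReal.tsum_mul_right]
        refine (mul_le_mul_left (Max_sum_le _) _).trans ?_
        rw [mul_assoc, ← sq]
        exact mul_le_mul_left (by norm_num) _
    _ = _ := by
        rw [lintegral_const_mul _ (hf.pow_const 2)]
        ring

theorem mean_trunc {Y : Type*} [MeasurableSpace Y] (μ : Measure Y) {f : Y → ℝ≥0∞}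
    (hf : Measurable f) {U : Set Y} (hU : μ U ≠ ⊤) {l : ℝ} (hl : 0 < l)
    (hm : ENNReal.ofReal l * μ U ≤ ∫⁻ y in U, f y ∂μ) :
    ENNReal.ofReal l * μ U ≤ 2 * ∫⁻ y in U ∩ {y | ENNReal.ofReal (l / 2) < f y}, f y ∂μ := by
  have m : MeasurableSet {y | ENNReal.ofReal (l / 2) < f y} := measurableSet_lt measurable_const hf
  have e : ENNReal.ofReal l * μ U = ENNReal.ofReal (l / 2) * μ U + ENNReal.ofReal (l / 2) * μ U := by
    rw [← add_mul, ← ENNReal.ofReal_add (by positivity) (by positivity), add_halves]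
  have h1 : ∫⁻ y in U \ {y | ENNReal.ofReal (l / 2) < f y}, f y ∂μ ≤
      ENNReal.ofReal (l / 2) * μ U := by
    refine (setLIntegral_mono (g := fun _ => ENNReal.ofReal (l / 2)) measurable_const
      fun y hy => not_lt.1 hy.2).trans ?_
    rw [setLIntegral_const]
    exact mul_le_mul_right (measure_mono sdiff_subset) _
  rw [← lintegral_inter_add_sdiff f U m, e] at hm
  have h2 := (ENNReal.add_le_add_iff_right (ENNReal.mul_ne_top ENNReal.ofReal_ne_top hU)).1
    (hm.trans (add_le_add le_rfl h1))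
  rw [e, two_mul]
  exact add_le_add h2 h2

theorem meas_ballInt {r : ℂ → ℝ} (hr : Measurable r) {G : ℂ → ℝ≥0∞} (hG : Measurable G) :
    Measurable fun x => ∫⁻ y in closedBall x (r x), G y := by
  have m : MeasurableSet {p : ℂ × ℂ | dist p.2 p.1 ≤ r p.1} :=
    measurableSet_le (measurable_snd.dist measurable_fst) (hr.comp measurable_fst)
  have h := ((hG.comp measurable_snd).indicator m).lintegral_prod_right' (ν := volume)
  have e : (fun x => ∫⁻ y in closedBall x (r x), G y) = fun x =>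
      ∫⁻ y, {p : ℂ × ℂ | dist p.2 p.1 ≤ r p.1}.indicator (G ∘ Prod.snd) (x, y) := by
    funext x
    rw [← lintegral_indicator measurableSet_closedBall]
    rfl
  rw [e]
  exact h

theorem maximal : ∃ C : ℝ≥0, ∀ (E : Set ℂ) (r : ℂ → ℝ) (R : ℝ) (G : ℂ → ℝ≥0∞),
    MeasurableSet E → Measurable r → (∀ x ∈ E, 0 < r x ∧ r x ≤ R) → Measurable G →
    ∫⁻ x in E, ((∫⁻ y in closedBall x (r x), G y) / ENNReal.ofReal (r x ^ 2)) ^ 2 ≤
      C * ∫⁻ y, G y ^ 2 := by
  refine ⟨32 * 50 * 16, fun E r R G hE hr hR hG => ?_⟩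
  have mQ : Measurable fun x => (∫⁻ y in closedBall x (r x), G y) / ENNReal.ofReal (r x ^ 2) :=
    (meas_ballInt hr hG).div (hr.pow_const 2).ennreal_ofReal
  have mf : Measurable fun y => 4 * G y := hG.const_mul 4
  refine (weak_to_L2 (volume.restrict E) volume mQ mf 50 fun l hl => ?_).trans (le_of_eq ?_)
  · rw [Measure.restrict_apply' hE]
    set S := {y | ENNReal.ofReal (l / 2) < 4 * G y} with hS
    have mS : MeasurableSet S := measurableSet_lt measurable_const mf
    set A := {x | ENNReal.ofReal l <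
      (∫⁻ y in closedBall x (r x), G y) / ENNReal.ofReal (r x ^ 2)} ∩ E with hA
    obtain ⟨u, hu, hd, hc⟩ := Vitali.exists_disjoint_subfamily_covering_enlargement_closedBall A
      (fun x => x) r R (fun x hx => (hR x hx.2).2) 5 (by norm_num)
    have cu : u.Countable := hd.countable_of_nonempty_interior fun x hx =>
      (nonempty_ball.2 (hR x (hu hx).2).1).mono ball_subset_interior_closedBall
    have h1 : A ⊆ ⋃ x ∈ u, closedBall x (5 * r x) := fun x hx => by
      obtain ⟨b, hb, h⟩ := hc x hx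
      exact mem_biUnion hb (h (mem_closedBall_self (hR x hx.2).1.le))
    have h2 : ∀ x ∈ u, ENNReal.ofReal l * volume (closedBall x (5 * r x)) ≤
        50 * ∫⁻ y in closedBall x (r x) ∩ S, 4 * G y := by
      intro x hx
      have r0 := (hR x (hu hx).2).1
      have h3 : ENNReal.ofReal l * ENNReal.ofReal (r x ^ 2) ≤ ∫⁻ y in closedBall x (r x), G y :=
        ENNReal.mul_le_of_le_div (hu hx).1.le
      have h4 : ENNReal.ofReal l * volume (closedBall x (r x)) ≤
          ∫⁻ y in closedBall x (r x), 4 * G y := by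
        rw [lintegral_const_mul _ hG, Complex.volume_closedBall, ← ENNReal.ofReal_pow r0.le,
          ← mul_assoc, mul_comm]
        refine mul_le_mul' ?_ h3
        have : NNReal.pi ≤ 4 := by exact_mod_cast Real.pi_le_four
        exact_mod_cast this
      have h5 := mean_trunc volume mf measure_closedBall_lt_top.ne hl h4
      have h6 : volume (closedBall x (5 * r x)) = 25 * volume (closedBall x (r x)) := by
        rw [Complex.volume_closedBall, Complex.volume_closedBall, ENNReal.ofReal_mul (by norm_num),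
          ENNReal.ofReal_ofNat]
        ring
      rw [h6, mul_left_comm, show (50 : ℝ≥0∞) = 25 * 2 by norm_num, mul_assoc]
      exact mul_le_mul_right h5 _
    calc ENNReal.ofReal l * volume A
        ≤ ENNReal.ofReal l * ∑' x : u, volume (closedBall (x : ℂ) (5 * r x)) :=
          mul_le_mul_right ((measure_mono h1).trans (measure_biUnion_le _ cu _)) _
      _ ≤ ∑' x : u, 50 * ∫⁻ y in closedBall (x : ℂ) (r x) ∩ S, 4 * G y := by
          rw [← ENNReal.tsum_mul_left]
          exact ENNReal.tsum_le_tsum fun x => h2 x x.2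
      _ = 50 * ∫⁻ y in ⋃ x ∈ u, closedBall x (r x) ∩ S, 4 * G y := by
          rw [ENNReal.tsum_mul_left, lintegral_biUnion cu
            (fun x _ => measurableSet_closedBall.inter mS) (hd.mono fun x => inter_subset_left)]
      _ ≤ _ := mul_le_mul_right (lintegral_mono_set (iUnion₂_subset fun x _ => inter_subset_right)) _
  · simp only [mul_pow]
    rw [lintegral_const_mul _ (hG.pow_const 2)]
    push_cast
    ring

end Pool.Agent.P.MP_6c0067_an
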