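import Pool.Agent.P.MP_6c0067_an.Node
import Pool.Agent.P.MP_6c0067_an.Max

/-! The Carleson embedding on the tree of pieces. Put `δ = dl D 0`. On `ℝ × ℕ` let `α` be
`((volume.restrict (Ioi δ)).prod Measure.count).withDensity` of the weight
`if First m t then volume (Un m t) ^ 2 / ℓ t (Rn m) else 0`, and
`M (t, m) = (∫⁻ z in Un m t, f z) / volume (Un m t)`; then `embSum = ∫⁻ M ^ 2 ∂α` (the volumes are
positive and finite). Apply `weak_to_L2` with `μ = volume.restrict D`. Weak bound: fix `l > 0`; for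
`n` with `A n = {t | δ ≤ t ∧ q n ∈ Bt t ∧ l < M (t, n)}` nonempty let `s n = sInf (A n)` and
`V n = Un n (s n)`. Then `δ ≤ s n`, `q n ∈ V n`, `l * volume (V n) ≤ ∫⁻ z in V n, f z` (`V n` is the
increasing union of the `Un n t`, `t ∈ A n`, `t → s n`, by `mem_Un_later`), and two sets `V n`,
`V m` which meet have `s n = s m` and are equal (if `s n ≤ s m` then `q m ∈ V n`, so `q m ∈ Un n t`
for `t ∈ A n` close to `s n`, `Un m t = Un n t`, `t ∈ A m`). Let `N` be the set of least indices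
of the distinct `V n`. Every `(t, m)` with `First m t`, `δ < t`, `l < M (t, m)` has `n ∈ N` with
`s n ≤ t` and `q m ∈ V n`; the levels `t = s n` are a countable, hence null, set. So
`α {l < M} ≤ ∑ n ∈ N, K * volume (V n)` by `TreeC`; finish with `mean_trunc` and disjointness. -/

open Set MeasureTheory Metric
open scoped ENNReal NNReal

namespace Pool.Agent.P.MP_6c0067_an

open Classical

variable {D : Set ℂ}

/-- The levels at which the mean over the piece of `q n` is large. -/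
def EmbA (D : Set ℂ) (f : ℂ → ℝ≥0∞) (l : ℝ≥0∞) (n : ℕ) : Set ℝ :=
  {t | dl D 0 ≤ t ∧ q n ∈ Bt D t ∧ l < (∫⁻ z in Un D n t, f z) / volume (Un D n t)}

/-- The first such level. -/
noncomputable def EmbS (D : Set ℂ) (f : ℂ → ℝ≥0∞) (l : ℝ≥0∞) (n : ℕ) : ℝ := sInf (EmbA D f l n)

section

variable {f : ℂ → ℝ≥0∞} {l : ℝ≥0∞} {n m : ℕ}

theorem Emb_bdd : BddBelow (EmbA D f l n) := ⟨dl D 0, fun _ ht => ht.1⟩

theorem Emb_ge (hn : (EmbA D f l n).Nonempty) : dl D 0 ≤ EmbS D f l n :=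
  le_csInf hn fun _ ht => ht.1

theorem Emb_q (hn : (EmbA D f l n).Nonempty) : q n ∈ Un D n (EmbS D f l n) := by
  obtain ⟨t, ht⟩ := hn
  exact Un_anti D n (csInf_le Emb_bdd ht) (q_mem_Un.2 ht.2.1)

theorem Emb_near (h : Dom D) (hn : (EmbA D f l n).Nonempty) {z : ℂ}
    (hz : z ∈ Un D n (EmbS D f l n)) {b : ℝ} (hb : EmbS D f l n < b) :
    ∃ t ∈ EmbA D f l n, t < b ∧ z ∈ Un D n t := by
  obtain ⟨t', h1, h2⟩ := mem_Un_later h hz
  obtain ⟨t, ht, h3⟩ := exists_lt_of_csInf_lt hn (lt_min h1 hb)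
  exact ⟨t, ht, h3.trans_le (min_le_right _ _), Un_anti D n (h3.le.trans (min_le_left _ _)) h2⟩

theorem Emb_mean (h : Dom D) (hn : (EmbA D f l n).Nonempty) :
    l * volume (Un D n (EmbS D f l n)) ≤ ∫⁻ z in Un D n (EmbS D f l n), f z := by
  obtain ⟨u, h1, h2, h3⟩ := exists_seq_tendsto_sInf hn Emb_bdd
  have h4 : ∀ k, Un D n (u k) ⊆ Un D n (EmbS D f l n) := fun k =>
    Un_anti D n (csInf_le Emb_bdd (h3 k))
  have h5 : Un D n (EmbS D f l n) ⊆ ⋃ k, Un D n (u k) := by
    intro z hz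
    obtain ⟨t', h6, h7⟩ := mem_Un_later h hz
    obtain ⟨k, hk⟩ := (h2.eventually (gt_mem_nhds h6)).exists
    exact mem_iUnion.2 ⟨k, Un_anti D n hk.le h7⟩
  have h6 : Monotone fun k => Un D n (u k) := (Un_anti D n).comp h1
  refine (mul_le_mul_right (measure_mono h5) l).trans ?_
  rw [h6.measure_iUnion, ENNReal.mul_iSup]
  exact iSup_le fun k => (ENNReal.mul_le_of_le_div (h3 k).2.2.le).trans
    (lintegral_mono_set (h4 k))

theorem Emb_meet' (h : Dom D) (hn : (EmbA D f l n).Nonempty) {z : ℂ}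
    (hz : z ∈ Un D n (EmbS D f l n)) (hz' : z ∈ Un D m (EmbS D f l m))
    (hle : EmbS D f l n ≤ EmbS D f l m) : EmbS D f l n = EmbS D f l m := by
  have h1 := Un_anti D m hle hz'
  have h2 : q m ∈ Un D n (EmbS D f l n) := by
    rw [Un_eq_comp hz, ← Un_eq_comp h1]
    exact q_mem_Un.2 (q_mem_of_mem h1)
  refine le_antisymm hle (le_of_forall_gt_imp_ge_of_dense fun b hb => ?_)
  obtain ⟨t, ht, h3, h4⟩ := Emb_near h hn h2 hb
  refine (csInf_le Emb_bdd ⟨ht.1, Un_subset D n t h4, ?_⟩).trans h3.le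
  rw [Un_eq_of_mem h4]
  exact ht.2.2

theorem Emb_meet (h : Dom D) (hn : (EmbA D f l n).Nonempty) (hm : (EmbA D f l m).Nonempty) {z : ℂ}
    (hz : z ∈ Un D n (EmbS D f l n)) (hz' : z ∈ Un D m (EmbS D f l m)) :
    EmbS D f l n = EmbS D f l m ∧ Un D n (EmbS D f l n) = Un D m (EmbS D f l m) := by
  have h1 : EmbS D f l n = EmbS D f l m := by
    rcases le_total (EmbS D f l n) (EmbS D f l m) with h1 | h1
    · exact Emb_meet' h hn hz hz' h1
    · exact (Emb_meet' h hm hz' hz h1).symm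
  exact ⟨h1, by rw [Un_eq_comp hz, Un_eq_comp hz', h1]⟩

theorem Emb_family (h : Dom D) (f : ℂ → ℝ≥0∞) (l : ℝ≥0∞) : ∃ N : Set ℕ,
    (∀ n ∈ N, (EmbA D f l n).Nonempty) ∧
    (Pairwise fun n m : N => Disjoint (Un D n (EmbS D f l n)) (Un D m (EmbS D f l m))) ∧
    ∀ m, ∀ t ∈ EmbA D f l m, ∃ n ∈ N, EmbS D f l n ≤ t ∧ q m ∈ Un D n (EmbS D f l n) := by
  refine ⟨{n | (EmbA D f l n).Nonempty ∧ ∀ m < n, ¬ ((EmbA D f l m).Nonempty ∧
    Un D m (EmbS D f l m) = Un D n (EmbS D f l n))}, fun n hn => hn.1, fun n m hnm => ?_,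
    fun m t ht => ?_⟩
  · refine disjoint_left.2 fun z hz hz' => ?_
    have h1 := (Emb_meet h n.2.1 m.2.1 hz hz').2
    rcases lt_or_gt_of_ne (Subtype.coe_ne_coe.2 hnm) with h2 | h2
    · exact m.2.2 n h2 ⟨n.2.1, h1⟩
    · exact n.2.2 m h2 ⟨m.2.1, h1.symm⟩
  · have hm : (EmbA D f l m).Nonempty := ⟨t, ht⟩
    have h1 : ∃ n, (EmbA D f l n).Nonempty ∧ Un D n (EmbS D f l n) = Un D m (EmbS D f l m) :=
      ⟨m, hm, rfl⟩
    obtain ⟨h2, h3⟩ := Nat.find_spec h1
    have h4 : q m ∈ Un D (Nat.find h1) (EmbS D f l (Nat.find h1)) := by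
      rw [h3]
      exact Emb_q hm
    refine ⟨Nat.find h1, ⟨h2, fun k hk e => Nat.find_min h1 hk ⟨e.1, e.2.trans h3⟩⟩, ?_, h4⟩
    rw [(Emb_meet h h2 hm h4 (Emb_q hm)).1]
    exact csInf_le Emb_bdd ht

end

theorem Emb_vol (hv : volume D ≠ ⊤) (n : ℕ) (t : ℝ) : volume (Un D n t) ≠ ⊤ :=
  ne_top_of_le_ne_top hv (measure_mono fun _ hz => (Un_subset D n t hz).1)

theorem Emb_int (μ : Measure ℝ) {w g : ℝ × ℕ → ℝ≥0∞} (hw : Measurable w) (hg : Measurable g) :
    ∫⁻ p, g p ∂(μ.prod Measure.count).withDensity w = ∫⁻ t, ∑' m, w (t, m) * g (t, m) ∂μ := by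
  rw [lintegral_withDensity_eq_lintegral_mul _ hw hg, lintegral_prod _ (hw.mul hg).aemeasurable]
  simp only [lintegral_count, Pi.mul_apply]

theorem Emb_weak (h : Dom D) (hv : volume D ≠ ⊤) {ℓ : ℝ → Measure ℂ} {C K : ℝ≥0}
    (hc : Coarea D ℓ C) (hK : ∀ t₀ : ℝ, dl D 0 ≤ t₀ → ∀ n, q n ∈ Bt D t₀ →
      ∫⁻ t in Ioi t₀, ∑' m, (if First D m t ∧ q m ∈ Un D n t₀ then
        volume (Un D m t) ^ 2 / ℓ t (Rn D m) else 0) ≤ K * volume (Un D n t₀))
    {f : ℂ → ℝ≥0∞} (hf : Measurable f) {l : ℝ} (hl : 0 < l) :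
    ENNReal.ofReal l * ∫⁻ t in Ioi (dl D 0), ∑' m,
      (if First D m t ∧ ENNReal.ofReal l < (∫⁻ z in Un D m t, f z) / volume (Un D m t) then
        volume (Un D m t) ^ 2 / ℓ t (Rn D m) else 0) ≤
      K * 2 * ∫⁻ y in {y | ENNReal.ofReal (l / 2) < f y}, f y ∂volume.restrict D := by
  obtain ⟨N, h1, h2, h3⟩ := Emb_family h f (ENNReal.ofReal l)
  set s := EmbS D f (ENNReal.ofReal l) with hs
  let H : N → ℝ → ℕ → ℝ≥0∞ := fun n t m => if First D m t ∧ q m ∈ Un D n (s n) then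
    volume (Un D m t) ^ 2 / ℓ t (Rn D m) else 0
  have mH : ∀ n, Measurable fun t => ∑' m, H n t m := fun n => Measurable.tsum fun m =>
    Measurable.ite ((meas_First h m).inter (MeasurableSet.const _))
      (((meas_vol_Un h m).pow_const 2).div (hc.meas_set (meas_Rn h m))) measurable_const
  have hS : MeasurableSet {y | ENNReal.ofReal (l / 2) < f y} := measurableSet_lt measurable_const hf
  have e1 : ∀ᵐ t ∂(volume : Measure ℝ), t ∉ range s := (countable_range s).ae_notMem _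
  calc _ ≤ ENNReal.ofReal l * ∫⁻ t, ∑' n : N, (Ioi (s n)).indicator (fun t => ∑' m, H n t m) t := by
        refine mul_le_mul_right ?_ _
        rw [← lintegral_indicator measurableSet_Ioi]
        refine lintegral_mono_ae (e1.mono fun t ht => indicator_apply_le' (fun ht' => ?_)
          fun _ => zero_le)
        have e2 : ∀ n : N, (Ioi (s n)).indicator (fun t => ∑' m, H n t m) t =
            ∑' m, (Ioi (s n)).indicator (fun t => H n t m) t := by
          intro n
          by_cases h4 : t ∈ Ioi (s n)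
          · simp only [indicator_of_mem h4]
          · simp only [indicator_of_notMem h4, tsum_zero]
        rw [tsum_congr e2, ENNReal.tsum_comm]
        refine ENNReal.tsum_le_tsum fun m => ?_
        split_ifs with h4
        · obtain ⟨n, hn, h5, h6⟩ := h3 m t ⟨le_of_lt ht', h4.1.1, h4.2⟩
          refine le_trans (le_of_eq ?_) (ENNReal.le_tsum (⟨n, hn⟩ : N))
          have h7 : t ∈ Ioi (s n) := lt_of_le_of_ne h5 fun e => ht ⟨n, e⟩
          rw [indicator_of_mem h7]
          exact (if_pos ⟨h4.1, h6⟩).symm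
        · exact zero_le
    _ = ∑' n : N, ENNReal.ofReal l * ∫⁻ t in Ioi (s n), ∑' m, H n t m := by
        rw [lintegral_tsum fun n => ((mH n).indicator measurableSet_Ioi).aemeasurable,
          ← ENNReal.tsum_mul_left]
        simp only [lintegral_indicator measurableSet_Ioi]
    _ ≤ ∑' n : N, K * 2 * ∫⁻ y in Un D n (s n) ∩ {y | ENNReal.ofReal (l / 2) < f y}, f y := by
        refine ENNReal.tsum_le_tsum fun n => ?_
        have h4 := hK (s n) (Emb_ge (h1 n n.2)) n (q_mem_Un.1 (Emb_q (h1 n n.2)))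
        refine (mul_le_mul_right h4 _).trans ?_
        rw [mul_left_comm, mul_assoc]
        exact mul_le_mul_right (mean_trunc volume hf (Emb_vol hv n _) hl (Emb_mean h (h1 n n.2))) _
    _ ≤ _ := by
        rw [ENNReal.tsum_mul_left, ← lintegral_iUnion
          (fun n => (Un_open h _ _).measurableSet.inter hS)
          (fun n m hnm => (h2 hnm).mono inter_subset_left inter_subset_left),
          Measure.restrict_restrict hS]
        refine mul_le_mul_right (lintegral_mono_set (iUnion_subset fun n z hz => ?_)) _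
        exact mem_inter hz.2 (Un_subset D n _ hz.1).1

theorem embedding (h : Dom D) (hv : volume D ≠ ⊤) {ℓ : ℝ → Measure ℂ} {C : ℝ≥0}
    (hc : Coarea D ℓ C) (hT : TreeC D ℓ) :
    ∃ K : ℝ≥0, ∀ f : ℂ → ℝ≥0∞, Measurable f → embSum D ℓ f ≤ K * ∫⁻ z in D, f z ^ 2 := by
  obtain ⟨K, hK⟩ := hT
  refine ⟨32 * (K * 2), fun f hf => ?_⟩
  let w : ℝ × ℕ → ℝ≥0∞ := fun p =>
    if First D p.2 p.1 then volume (Un D p.2 p.1) ^ 2 / ℓ p.1 (Rn D p.2) else 0
  let M : ℝ × ℕ → ℝ≥0∞ := fun p => (∫⁻ z in Un D p.2 p.1, f z) / volume (Un D p.2 p.1)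
  have hw : Measurable w := measurable_from_prod_countable_left fun m =>
    Measurable.ite (meas_First h m)
      (((meas_vol_Un h m).pow_const 2).div (hc.meas_set (meas_Rn h m))) measurable_const
  have hM : Measurable M := measurable_from_prod_countable_left fun m =>
    (meas_int_Un h m hf).div (meas_vol_Un h m)
  have h1 := weak_to_L2 (((volume.restrict (Ioi (dl D 0))).prod Measure.count).withDensity w)
    (volume.restrict D) hM hf (K * 2) (fun l hl => by
      have hS : MeasurableSet {x | ENNReal.ofReal l < M x} := measurableSet_lt measurable_const hM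
      refine le_trans (le_of_eq ?_) (Emb_weak h hv hc hK hf hl)
      rw [← lintegral_indicator_one hS, Emb_int _ hw (measurable_one.indicator hS)]
      refine congrArg _ (lintegral_congr fun t => tsum_congr fun m => ?_)
      by_cases h1 : First D m t
      · by_cases h2 : ENNReal.ofReal l < M (t, m)
        · rw [indicator_of_mem (s := {x | ENNReal.ofReal l < M x}) h2, if_pos ⟨h1, h2⟩,
            Pi.one_apply, mul_one]
          exact if_pos h1
        · rw [indicator_of_notMem (s := {x | ENNReal.ofReal l < M x}) h2, mul_zero,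
            if_neg fun e => h2 e.2]
      · rw [if_neg fun e => h1 e.1, show w (t, m) = 0 from if_neg h1, zero_mul])
  rw [Emb_int _ hw (hM.pow_const 2)] at h1
  refine le_trans (le_of_eq ?_) (h1.trans_eq (by push_cast; rfl))
  refine lintegral_congr fun t => tsum_congr fun m => ?_
  by_cases h2 : First D m t
  · have h3 := (vol_Un_pos h h2.1).ne'
    have h4 := Emb_vol hv m t
    rw [if_pos h2, show w (t, m) = volume (Un D m t) ^ 2 / ℓ t (Rn D m) from if_pos h2]
    change _ = _ * ((∫⁻ z in Un D m t, f z) / volume (Un D m t)) ^ 2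
    rw [div_eq_mul_inv (volume (Un D m t) ^ 2), mul_right_comm, ← mul_pow,
      ENNReal.mul_div_cancel h3 h4, div_eq_mul_inv]
  · rw [if_neg h2, show w (t, m) = 0 from if_neg h2, zero_mul]

end Pool.Agent.P.MP_6c0067_an
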