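import Pool.Agent.P.MP_6c0067_an.Rho

/-! The tree of pieces. Components of open subsets of `ℂ` are open
(`IsOpen.connectedComponentIn`) and path connected (`IsOpen.isConnected_iff_isPathConnected`).
`mem_Un_later`: join `q n` to `z` by a path inside the piece; `rho` has a minimum `> t` on it; or
show that the union of the later pieces is open and closed in the piece.
`meas_Un`: the set is open in `ℝ × ℂ` (if `z ∈ Un n t` then `z ∈ Un n t'` for some `t' > t`, and
`Iio t' ×ˢ Un n t'` is an open box inside the set). `meas_First`: `{t | q m ∈ Un n t}` is a slice.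
`meas_Rn`: `y` is in the closure of `Un n (rho y)` iff for all `k` there is `m` with
`dist y (q m) < 1 / (k + 1)` and `q m ∈ Un n (rho y)`; `y ∉ Un n (rho y)` always.
`front_eq`: a point of `D` in the frontier of `Un n t` has `rho ≥ t` by continuity and not
`rho > t` by `closure_Un`. -/

open Set MeasureTheory Metric
open scoped ENNReal NNReal

namespace Pool.Agent.P.MP_6c0067_an

open Classical

variable {D : Set ℂ}

theorem Un_open (h : Dom D) (n : ℕ) (t : ℝ) : IsOpen (Un D n t) :=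
  (Bt_open h t).connectedComponentIn

theorem Un_subset (D : Set ℂ) (n : ℕ) (t : ℝ) : Un D n t ⊆ Bt D t :=
  connectedComponentIn_subset _ _

theorem Un_anti (D : Set ℂ) (n : ℕ) : Antitone (Un D n) := fun _ _ hst =>
  connectedComponentIn_mono _ fun _ hz => ⟨hz.1, hst.trans_lt hz.2⟩

theorem q_mem_Un {n : ℕ} {t : ℝ} : q n ∈ Un D n t ↔ q n ∈ Bt D t :=
  ⟨fun h => Un_subset D n t h, mem_connectedComponentIn⟩

theorem q_mem_of_mem {n : ℕ} {t : ℝ} {z : ℂ} (hz : z ∈ Un D n t) : q n ∈ Bt D t :=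
  connectedComponentIn_nonempty_iff.1 ⟨z, hz⟩

theorem Un_eq_comp {n : ℕ} {t : ℝ} {z : ℂ} (hz : z ∈ Un D n t) :
    Un D n t = connectedComponentIn (Bt D t) z := connectedComponentIn_eq hz

theorem Un_eq_of_mem {n m : ℕ} {t : ℝ} (hm : q m ∈ Un D n t) : Un D m t = Un D n t :=
  (Un_eq_comp hm).symm

theorem mem_Un_later (h : Dom D) {n : ℕ} {t : ℝ} {z : ℂ} (hz : z ∈ Un D n t) :
    ∃ t', t < t' ∧ z ∈ Un D n t' := by
  have hq : q n ∈ Un D n t := q_mem_Un.2 (q_mem_of_mem hz)
  have hc : IsConnected (Un D n t) := ⟨⟨z, hz⟩, isPreconnected_connectedComponentIn⟩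
  have hp : IsPathConnected (Un D n t) := (Un_open h n t).isConnected_iff_isPathConnected.1 hc
  obtain ⟨γ, hγ⟩ := hp.joinedIn _ hq _ hz
  have hr : range γ ⊆ Bt D t := by
    rintro _ ⟨s, rfl⟩
    exact Un_subset D n t (hγ s)
  obtain ⟨y, hy, hmin⟩ := (isCompact_range γ.continuous).exists_isMinOn (range_nonempty γ)
    ((rho_contOn h).mono fun w hw => (hr hw).1)
  obtain ⟨t', h1, h2⟩ := exists_between (hr hy).2
  refine ⟨t', h1, ?_⟩
  have hr' : range γ ⊆ Bt D t' := fun w hw => ⟨(hr hw).1, h2.trans_le (hmin hw)⟩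
  exact (isPreconnected_range γ.continuous).subset_connectedComponentIn γ.source_mem_range hr'
    γ.target_mem_range

theorem exists_first (h : Dom D) {z : ℂ} {t : ℝ} (hz : z ∈ Bt D t) :
    ∃ n, First D n t ∧ z ∈ Un D n t := by
  have ho : IsOpen (connectedComponentIn (Bt D t) z) := (Bt_open h t).connectedComponentIn
  have hex : ∃ n, q n ∈ connectedComponentIn (Bt D t) z :=
    (TopologicalSpace.denseRange_denseSeq ℂ).exists_mem_open ho ⟨z, mem_connectedComponentIn hz⟩
  have hn := Nat.find_spec hex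
  have he : Un D (Nat.find hex) t = connectedComponentIn (Bt D t) z :=
    (connectedComponentIn_eq hn).symm
  refine ⟨Nat.find hex, ⟨connectedComponentIn_subset _ _ hn, fun m hm => ?_⟩, ?_⟩
  · rw [he]
    exact Nat.find_min hex hm
  · rw [he]
    exact mem_connectedComponentIn hz

theorem first_unique {n m : ℕ} {t : ℝ} {z : ℂ} (hn : First D n t) (hm : First D m t)
    (hz : z ∈ Un D n t) (hz' : z ∈ Un D m t) : n = m := by
  have he : Un D n t = Un D m t := (Un_eq_comp hz).trans (Un_eq_comp hz').symm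
  rcases lt_trichotomy n m with hl | hl | hl
  · exact absurd (he ▸ q_mem_Un.2 hn.1) (hm.2 n hl)
  · exact hl
  · exact absurd (he ▸ q_mem_Un.2 hm.1) (hn.2 m hl)

theorem closure_Un (h : Dom D) {n : ℕ} {t : ℝ} {y : ℂ} (hy : y ∈ Bt D t)
    (hc : y ∈ closure (Un D n t)) : y ∈ Un D n t := by
  have ho : IsOpen (connectedComponentIn (Bt D t) y) := (Bt_open h t).connectedComponentIn
  obtain ⟨w, hw1, hw2⟩ := mem_closure_iff.1 hc _ ho (mem_connectedComponentIn hy)
  rw [Un_eq_comp hw2, ← connectedComponentIn_eq hw1]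
  exact mem_connectedComponentIn hy

theorem front_eq (h : Dom D) (n : ℕ) (t : ℝ) :
    frontier (Un D n t) ∩ D = Rn D n ∩ Lv D t := by
  ext y
  constructor
  · rintro ⟨hy, hD⟩
    have hy' := hy
    rw [(Un_open h n t).frontier_eq] at hy'
    have h1 : ¬ t < rho D y := fun hl => hy'.2 (closure_Un h ⟨hD, hl⟩ hy'.1)
    have h2 : ¬ rho D y < t := fun hl => by
      have ho : IsOpen (D ∩ rho D ⁻¹' Iio t) :=
        (rho_contOn h).isOpen_inter_preimage h.isOpen isOpen_Iio
      obtain ⟨w, hw1, hw2⟩ := mem_closure_iff.1 hy'.1 _ ho ⟨hD, hl⟩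
      exact lt_asymm (Un_subset D n t hw2).2 hw1.2
    have he : rho D y = t := le_antisymm (not_lt.1 h1) (not_lt.1 h2)
    exact ⟨⟨hD, he ▸ hy⟩, hD, he⟩
  · rintro ⟨⟨hD, hy⟩, -, he⟩
    exact ⟨he ▸ hy, hD⟩

theorem vol_Un_pos (h : Dom D) {n : ℕ} {t : ℝ} (hq : q n ∈ Bt D t) :
    0 < volume (Un D n t) :=
  (Un_open h n t).measure_pos volume ⟨q n, q_mem_Un.2 hq⟩

theorem meas_Un (h : Dom D) (n : ℕ) : MeasurableSet {p : ℝ × ℂ | p.2 ∈ Un D n p.1} := by
  refine IsOpen.measurableSet (isOpen_iff_mem_nhds.2 fun p hp => ?_)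
  obtain ⟨t', h1, h2⟩ := mem_Un_later h hp
  refine Filter.mem_of_superset ((isOpen_Iio.prod (Un_open h n t')).mem_nhds ⟨h1, h2⟩) ?_
  rintro ⟨s, w⟩ ⟨hs, hw⟩
  exact Un_anti D n (le_of_lt hs) hw

theorem meas_mem_Un (h : Dom D) (n : ℕ) (z : ℂ) : MeasurableSet {t : ℝ | z ∈ Un D n t} :=
  (meas_Un h n).preimage (measurable_prodMk_right (y := z))

theorem meas_First (h : Dom D) (n : ℕ) : MeasurableSet {t : ℝ | First D n t} := by
  have he : {t : ℝ | First D n t} =
      {t : ℝ | q n ∈ Un D n t} ∩ ⋂ m, ⋂ (_ : m < n), {t : ℝ | q m ∈ Un D n t}ᶜ := by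
    ext t
    simp only [First, mem_ofPred_eq, mem_inter_iff, mem_iInter, mem_compl_iff, q_mem_Un]
  rw [he]
  exact (meas_mem_Un h n _).inter
    (.iInter fun m => .iInter fun _ => (meas_mem_Un h n _).compl)

theorem meas_Rn (h : Dom D) (n : ℕ) : MeasurableSet (Rn D n) := by
  have he : Rn D n = D ∩ ⋂ k : ℕ, ⋃ m : ℕ,
      ball (q m) (1 / ((k : ℝ) + 1)) ∩ rho D ⁻¹' {t : ℝ | q m ∈ Un D n t} := by
    ext y
    simp only [Rn, mem_ofPred_eq, mem_inter_iff, mem_iInter, mem_iUnion, mem_preimage,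
      (Un_open h n _).frontier_eq, Set.mem_sdiff]
    refine and_congr_right fun _ => ⟨fun hy k => ?_, fun hy => ⟨?_, fun h' => ?_⟩⟩
    · have hk : (0 : ℝ) < 1 / ((k : ℝ) + 1) := Nat.one_div_pos_of_nat
      obtain ⟨m, hm⟩ := (TopologicalSpace.denseRange_denseSeq ℂ).exists_mem_open
        (isOpen_ball.inter (Un_open h n (rho D y)))
        (mem_closure_iff.1 hy.1 _ isOpen_ball (mem_ball_self hk))
      exact ⟨m, mem_ball_comm.1 hm.1, hm.2⟩
    · refine Metric.mem_closure_iff.2 fun ε hε => ?_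
      obtain ⟨k, hk⟩ := exists_nat_one_div_lt hε
      obtain ⟨m, hm1, hm2⟩ := hy k
      exact ⟨q m, hm2, (mem_ball.1 hm1).trans hk⟩
    · exact lt_irrefl _ (Un_subset D n _ h').2
  rw [he]
  exact h.isOpen.measurableSet.inter (.iInter fun k => .iUnion fun m =>
    measurableSet_ball.inter (rho_meas h (meas_mem_Un h n _)))

theorem meas_int_Un (h : Dom D) (n : ℕ) {F : ℂ → ℝ≥0∞} (hF : Measurable F) :
    Measurable fun t => ∫⁻ z in Un D n t, F z := by
  have hm : Measurable fun p : ℝ × ℂ => {p : ℝ × ℂ | p.2 ∈ Un D n p.1}.indicator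
      (fun p => F p.2) p := (hF.comp measurable_snd).indicator (meas_Un h n)
  have he : (fun t => ∫⁻ z in Un D n t, F z) = fun t => ∫⁻ z,
      {p : ℝ × ℂ | p.2 ∈ Un D n p.1}.indicator (fun p => F p.2) (t, z) := by
    funext t
    rw [← lintegral_indicator (Un_open h n t).measurableSet]
    rfl
  rw [he]
  exact hm.lintegral_prod_right'

theorem meas_vol_Un (h : Dom D) (n : ℕ) : Measurable fun t => volume (Un D n t) :=
  measurable_measure_prodMk_left (ν := volume) (meas_Un h n)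

theorem Coarea.meas_set {ℓ : ℝ → Measure ℂ} {C : ℝ≥0} (hc : Coarea D ℓ C) {E : Set ℂ}
    (hE : MeasurableSet E) : Measurable fun t => ℓ t E := by
  have := hc.meas (E.indicator 1) (measurable_one.indicator hE)
  simpa only [lintegral_indicator_one hE] using this

end Pool.Agent.P.MP_6c0067_an
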