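import Pool.Agent.P.MP_6c0067_an.Cross
import Pool.Agent.P.MP_6c0067_an.Node

/-! The fronts behind a short crosscut are close to it. Take `u`, `s` from `crosscut`,
`x = φ a`, `δ = dl D x`. (L) If `y ∈ D` and `‖ψ y - u‖ ≤ s` then
`‖y - x‖ ≤ rho y - rho x + 2 lam δ`: along the path of `rho_split` the continuous function
`‖ψ (γ ·) - u‖` goes from `1 > s` to a value `≤ s`, so it takes the value `s` at a point `p`, and
`‖y - p‖ ≤ rho y + ε - rho p`. If `‖z - x‖ > (3 lam + 1) δ` this gives `rho z > rho x + (lam + 1) δ`.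
For `t > rho x + lam δ` the function `‖ψ · - u‖` does not take the value `s` on `Bt D t`, so it is
`< s` on the (preconnected) component of `z`, hence `≤ s` on its frontier in `D`, where
`rho = t` (`exists_first`, `Un_eq_comp`, `front_eq`); apply (L) again. -/

open Set MeasureTheory Metric
open scoped ENNReal NNReal

namespace Pool.Agent.P.MP_6c0067_an

open Classical

variable {D : Set ℂ} {φ ψ : ℂ → ℂ}

theorem far_front (h : Dom D) (r : RM D φ ψ) : ∃ σ₀ lam : ℝ, 0 < σ₀ ∧ 1 ≤ lam ∧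
    ∀ a ∈ ball (0 : ℂ) 1, 1 - ‖a‖ < σ₀ → ∀ z ∈ D, a ∈ cone (ψ z) →
      z ∉ closedBall (φ a) ((3 * lam + 1) * dl D (φ a)) →
      ∀ t ∈ Ioo (rho D (φ a) + lam * dl D (φ a)) (rho D (φ a) + (lam + 1) * dl D (φ a)),
        z ∈ Bt D t ∧ frontier (connectedComponentIn (Bt D t) z) ∩ D ⊆
          closedBall (φ a) ((3 * lam + 1) * dl D (φ a)) := by
  obtain ⟨σ₀, lam, h0, h1, H⟩ := crosscut h r
  refine ⟨σ₀, lam, h0, h1, fun a ha hσ z hz hc hfar t ht => ?_⟩
  obtain ⟨u, s, hu, hs, h2, h3⟩ := H a ha hσ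
  have hψ0 : ψ 0 = 0 := by
    have := r.left 0 (mem_ball_self one_pos)
    rwa [r.zero] at this
  have hg : ContinuousOn (fun y => ‖ψ y - u‖) D := (r.dψ.continuousOn.sub continuousOn_const).norm
  have h4 : ∀ p ∈ D, ‖ψ p - u‖ = s → |rho D p - rho D (φ a)| ≤ lam * dl D (φ a) ∧
      ‖p - φ a‖ ≤ lam * dl D (φ a) := fun p hp hps => by
    have := h3 (ψ p) (r.maps' hp) hps
    rwa [r.right p hp] at this
  have hL : ∀ y ∈ D, ‖ψ y - u‖ ≤ s →
      ‖y - φ a‖ ≤ rho D y - rho D (φ a) + 2 * (lam * dl D (φ a)) := fun y hy hys => by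
    refine le_of_forall_pos_le_add fun ε hε => ?_
    obtain ⟨γ, c1, c2, c3, c4, c5⟩ := rho_split h hy hε
    have hm : s ∈ Icc ‖ψ (γ 1) - u‖ ‖ψ (γ 0) - u‖ := by
      rw [c3, c4, hψ0, zero_sub, norm_neg, hu]
      exact ⟨hys, hs.le⟩
    obtain ⟨τ, hτ, hτs⟩ := intermediate_value_Icc' zero_le_one (hg.comp c1 c2) hm
    obtain ⟨k1, k2⟩ := h4 (γ τ) (c2 hτ) hτs
    have k3 := c5 τ hτ
    have k4 := norm_sub_le_norm_sub_add_norm_sub y (γ τ) (φ a)
    have k5 := (abs_le.1 k1).1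
    linarith
  have hzs : ‖ψ z - u‖ < s := h2 (ψ z) (r.maps' hz) hc
  have hzB : z ∈ Bt D t := by
    refine ⟨hz, ?_⟩
    have k1 := hL z hz hzs.le
    rw [mem_closedBall, dist_eq_norm, not_le] at hfar
    have k2 := ht.2
    linarith
  refine ⟨hzB, fun y hy => ?_⟩
  have hsub : connectedComponentIn (Bt D t) z ⊆ Bt D t := connectedComponentIn_subset _ _
  have hC : ∀ w ∈ connectedComponentIn (Bt D t) z, ‖ψ w - u‖ ≤ s := fun w hw => by
    by_contra hn
    obtain ⟨p, hp, hps⟩ := isPreconnected_connectedComponentIn.intermediate_value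
      (mem_connectedComponentIn hzB) hw (hg.mono fun w hw => (hsub hw).1)
      (⟨hzs.le, (not_le.1 hn).le⟩ : s ∈ Icc ‖ψ z - u‖ ‖ψ w - u‖)
    have k1 := (abs_le.1 (h4 p (hsub hp).1 hps).1).2
    have k2 := (hsub hp).2
    have k3 := ht.1
    linarith
  have hys : ‖ψ y - u‖ ≤ s :=
    ContinuousWithinAt.closure_le (frontier_subset_closure hy.1)
      (hg.continuousAt (h.isOpen.mem_nhds hy.2)).continuousWithinAt continuousWithinAt_const hC
  obtain ⟨n, -, hn⟩ := exists_first h hzB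
  rw [← Un_eq_comp hn, front_eq h] at hy
  have k1 := hL y hy.2.1 hys
  have k2 := hy.2.2
  have k3 := ht.2
  rw [mem_closedBall, dist_eq_norm]
  linarith

end Pool.Agent.P.MP_6c0067_an
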