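import Pool.Agent.P.MP_6c0067_an.Uniq

/-! The density of the flow. `Gf_sq`: by `ae_unique` the square of `Gf` is almost everywhere
on `D` the sum of the squares of its terms; apply `vol_le`; on the level `t` (`supp`) the `m`-th
term is the constant `(H / ℓ t (Rn m)) ^ 2` times the indicator of `Rn m`, and
`(H / x) ^ 2 * x ≤ H ^ 2 / x`. `far_le`: for almost every `t > dl D 0` one has `ℓ t univ < ⊤`
(`le_vol` with `F = 1`, `ae_lt_top`) and all terms of `embSum` are finite, so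
`H m ≤ H m / ℓ t (Rn m) * ℓ t (Rn m)` for `First m t`. For such `t ∈ Ioo α β` the set `F` is covered by
the pieces `Un m t` which meet it (`exists_first`); for these `Rn m ∩ Lv t ⊆ B` (`front_eq`,
`Un_eq_comp`), so the integral of `f` over `F` is at most `∫⁻ y, B.indicator (Gf D ℓ f) y ∂ℓ t`.
Integrate over `Ioo α β` and use `le_vol`. -/

open Set MeasureTheory Metric
open scoped ENNReal NNReal

namespace Pool.Agent.P.MP_6c0067_an

open Classical

variable {D : Set ℂ}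

/-- The `m`-th term of the density of the flow. -/
noncomputable def flowTerm (D : Set ℂ) (ℓ : ℝ → Measure ℂ) (f : ℂ → ℝ≥0∞) (m : ℕ) (y : ℂ) :
    ℝ≥0∞ :=
  if First D m (rho D y) ∧ y ∈ Rn D m ∧ dl D 0 < rho D y then
    (∫⁻ z in Un D m (rho D y), f z) / ℓ (rho D y) (Rn D m) else 0

theorem flow_Gf_eq (ℓ : ℝ → Measure ℂ) (f : ℂ → ℝ≥0∞) (y : ℂ) :
    Gf D ℓ f y = ∑' m, flowTerm D ℓ f m y := rfl

theorem flow_meas_term (h : Dom D) {ℓ : ℝ → Measure ℂ} {C : ℝ≥0} (hc : Coarea D ℓ C)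
    {f : ℂ → ℝ≥0∞} (hf : Measurable f) (m : ℕ) : Measurable (flowTerm D ℓ f m) :=
  Measurable.ite (((meas_First h m).preimage (rho_meas h)).inter ((meas_Rn h m).inter
    (measurableSet_lt measurable_const (rho_meas h))))
    (((meas_int_Un h m hf).div (hc.meas_set (meas_Rn h m))).comp (rho_meas h)) measurable_const

theorem flow_ae_Lv {ℓ : ℝ → Measure ℂ} {C : ℝ≥0} (hc : Coarea D ℓ C) (t : ℝ) :
    ∀ᵐ y ∂ℓ t, y ∈ Lv D t := hc.supp t

theorem flow_sq_le (H x : ℝ≥0∞) : (H / x) ^ 2 * x ≤ H ^ 2 / x := by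
  have e : (H / x) ^ 2 * x = H ^ 2 / x * (x * x⁻¹) := by
    rw [div_eq_mul_inv, div_eq_mul_inv]; ring
  rw [e]
  exact mul_le_of_le_one_right' (ENNReal.mul_inv_le_one x)

theorem flow_le_div_mul {H x : ℝ≥0∞} (hx : x ≠ ⊤) (h : H ^ 2 / x ≠ ⊤) : H ≤ H / x * x := by
  by_cases h0 : x = 0
  · by_cases hH : H = 0
    · simp [hH]
    · exact absurd (by rw [h0, ENNReal.div_zero (pow_ne_zero 2 hH)]) h
  · rw [ENNReal.div_mul_cancel h0 hx]

theorem meas_Gf (h : Dom D) {ℓ : ℝ → Measure ℂ} {C : ℝ≥0} (hc : Coarea D ℓ C) {f : ℂ → ℝ≥0∞}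
    (hf : Measurable f) : Measurable (Gf D ℓ f) := by
  exact Measurable.tsum fun m => flow_meas_term h hc hf m

theorem Gf_sq (h : Dom D) {ℓ : ℝ → Measure ℂ} {C : ℝ≥0} (hc : Coarea D ℓ C) {f : ℂ → ℝ≥0∞}
    (hf : Measurable f) : ∫⁻ y, Gf D ℓ f y ^ 2 ≤ C * embSum D ℓ f := by
  have hm : ∀ m, Measurable fun y => flowTerm D ℓ f m y ^ 2 :=
    fun m => (flow_meas_term h hc hf m).pow_const 2
  have h1 : ∫⁻ y in D, Gf D ℓ f y ^ 2 = ∫⁻ y, Gf D ℓ f y ^ 2 := by
    refine setLIntegral_eq_of_support_subset fun y hy => by_contra fun hn => hy ?_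
    have : ∀ m, flowTerm D ℓ f m y = 0 := fun m => if_neg fun hc => hn hc.2.1.1
    simp [flow_Gf_eq, this]
  have h2 : ∫⁻ y in D, Gf D ℓ f y ^ 2 ≤ ∫⁻ y in D, ∑' m, flowTerm D ℓ f m y ^ 2 := by
    refine lintegral_mono_ae ((ae_unique h).mono fun y hy => ?_)
    rw [flow_Gf_eq]
    by_cases hex : ∃ m, First D m (rho D y) ∧ y ∈ Rn D m
    · obtain ⟨m, hm1, hm2⟩ := hex
      have h3 : ∀ n, n ≠ m → flowTerm D ℓ f n y = 0 :=
        fun n hn => if_neg fun hc => hn (hy n m hc.1 hm1 hc.2.1 hm2)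
      rw [tsum_eq_single m h3]
      exact ENNReal.le_tsum (f := fun m => flowTerm D ℓ f m y ^ 2) m
    · have : ∀ m, flowTerm D ℓ f m y = 0 := fun m => if_neg fun hc => hex ⟨m, hc.1, hc.2.1⟩
      simp [this]
  refine h1.symm.trans_le (h2.trans ((hc.vol_le _ (Measurable.tsum hm)).trans ?_))
  gcongr
  rw [embSum, ← lintegral_indicator measurableSet_Ioi]
  refine lintegral_mono fun t => ?_
  rw [lintegral_tsum fun m => (hm m).aemeasurable]
  by_cases ht : t ∈ Ioi (dl D 0)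
  · rw [indicator_of_mem ht]
    refine ENNReal.tsum_le_tsum fun m => ?_
    split_ifs with hF
    · refine le_trans ?_ (flow_sq_le _ _)
      rw [← lintegral_indicator_const (meas_Rn h m)]
      refine lintegral_mono_ae ((flow_ae_Lv hc t).mono fun y hy => ?_)
      unfold flowTerm
      split_ifs with h3
      · rw [indicator_of_mem h3.2.1, hy.2]
      · simp
    · refine le_of_eq (lintegral_congr_ae ((flow_ae_Lv hc t).mono fun y hy => ?_) |>.trans
        lintegral_zero)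
      have : flowTerm D ℓ f m y = 0 := if_neg fun h3 => hF (hy.2 ▸ h3.1)
      simp [this]
  · rw [indicator_of_notMem ht]
    refine le_of_eq (ENNReal.tsum_eq_zero.2 fun m =>
      lintegral_congr_ae ((flow_ae_Lv hc t).mono fun y hy => ?_) |>.trans lintegral_zero)
    have : flowTerm D ℓ f m y = 0 := if_neg fun h3 => ht (hy.2 ▸ h3.2.2)
    simp [this]

theorem far_le (h : Dom D) (hv : volume D ≠ ⊤) {ℓ : ℝ → Measure ℂ} {C : ℝ≥0} (hc : Coarea D ℓ C)
    {f : ℂ → ℝ≥0∞} (hf : Measurable f) (hfin : embSum D ℓ f ≠ ⊤) {α β : ℝ} (hα : dl D 0 ≤ α)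
    {B F : Set ℂ} (hB : MeasurableSet B)
    (hF : ∀ z ∈ F, ∀ t ∈ Ioo α β, z ∈ Bt D t ∧
      frontier (connectedComponentIn (Bt D t) z) ∩ D ⊆ B) :
    ENNReal.ofReal (β - α) * ∫⁻ z in F, f z ≤ C * ∫⁻ y in B, Gf D ℓ f y := by
  have hG := (meas_Gf h hc hf).indicator hB
  have a1 : ∀ᵐ t, ∫⁻ _, 1 ∂ℓ t < ⊤ := by
    refine ae_lt_top (hc.meas _ measurable_const)
      (ne_top_of_le_ne_top ?_ (hc.le_vol _ measurable_const))
    rw [setLIntegral_one]
    exact ENNReal.mul_ne_top ENNReal.coe_ne_top hv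
  have a2 : ∀ᵐ t ∂volume.restrict (Ioi (dl D 0)), (∑' m, (if First D m t then
      (∫⁻ z in Un D m t, f z) ^ 2 / ℓ t (Rn D m) else 0)) < ⊤ :=
    ae_lt_top (Measurable.tsum fun m => Measurable.ite (meas_First h m)
      (((meas_int_Un h m hf).pow_const 2).div (hc.meas_set (meas_Rn h m))) measurable_const) hfin
  have key : ∀ᵐ t ∂volume.restrict (Ioo α β),
      ∫⁻ z in F, f z ≤ ∫⁻ y, B.indicator (Gf D ℓ f) y ∂ℓ t := by
    filter_upwards [ae_restrict_of_ae a1, ae_restrict_mem measurableSet_Ioo,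
      ae_restrict_of_ae_restrict_of_subset (fun t (ht : t ∈ Ioo α β) => hα.trans_lt ht.1) a2]
      with t b1 ht b2
    rw [lintegral_one] at b1
    have hcov : F ⊆ ⋃ m, if First D m t ∧ (Un D m t ∩ F).Nonempty then Un D m t else ∅ := by
      intro z hz
      obtain ⟨m, hm, hzm⟩ := exists_first h (hF z hz t ht).1
      exact mem_iUnion.2 ⟨m, by rw [if_pos ⟨hm, z, hzm, hz⟩]; exact hzm⟩
    have e : B.indicator (Gf D ℓ f) = fun y => ∑' m, B.indicator (flowTerm D ℓ f m) y := by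
      funext y
      by_cases hy : y ∈ B
      · simp only [indicator_of_mem hy, flow_Gf_eq]
      · simp only [indicator_of_notMem hy, tsum_zero]
    rw [e, lintegral_tsum fun m => ((flow_meas_term h hc hf m).indicator hB).aemeasurable]
    refine (lintegral_mono_set hcov).trans ((lintegral_iUnion_le _ _).trans
      (ENNReal.tsum_le_tsum fun m => ?_))
    split_ifs with hm
    · obtain ⟨hm, z, hzm, hz⟩ := hm
      have c1 : ℓ t (Rn D m) ≠ ⊤ := ((measure_mono (subset_univ _)).trans_lt b1).ne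
      have c2 := (ENNReal.le_tsum m).trans_lt b2
      rw [if_pos hm] at c2
      refine (flow_le_div_mul c1 c2.ne).trans ?_
      rw [← lintegral_indicator_const (meas_Rn h m)]
      refine lintegral_mono_ae ((flow_ae_Lv hc t).mono fun y hy => ?_)
      by_cases hyR : y ∈ Rn D m
      · have c3 : y ∈ B := by
          have c4 := (hF z hz t ht).2
          rw [← Un_eq_comp hzm, front_eq h] at c4
          exact c4 ⟨hyR, hy⟩
        rw [indicator_of_mem hyR, indicator_of_mem c3, flowTerm, hy.2,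
          if_pos ⟨hm, hyR, hα.trans_lt ht.1⟩]
      · rw [indicator_of_notMem hyR]
        exact zero_le
    · simp
  calc _ = ∫⁻ _ in Ioo α β, ∫⁻ z in F, f z := by
        rw [setLIntegral_const, Real.volume_Ioo, mul_comm]
    _ ≤ ∫⁻ t in Ioo α β, ∫⁻ y, B.indicator (Gf D ℓ f) y ∂ℓ t := lintegral_mono_ae key
    _ ≤ ∫⁻ t, ∫⁻ y, B.indicator (Gf D ℓ f) y ∂ℓ t := setLIntegral_le_lintegral _ _
    _ ≤ C * ∫⁻ y in D, B.indicator (Gf D ℓ f) y := hc.le_vol _ hG
    _ ≤ _ := by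
        rw [← lintegral_indicator hB]
        gcongr
        exact Measure.restrict_le_self

end Pool.Agent.P.MP_6c0067_an
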