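import Pool.Agent.P.MP_6c0067_an.Far
import Pool.Agent.P.MP_6c0067_an.Flow
import Pool.Agent.P.MP_6c0067_an.Emb
import Pool.Agent.P.MP_6c0067_an.CS

/-! The front condition bounds the Hardy operator. -/

open Set MeasureTheory Metric
open scoped ENNReal NNReal

namespace Pool.Agent.P.MP_6c0067_an

open Classical

variable {D : Set ℂ} {φ ψ : ℂ → ℂ}

/-- the mean over the ball of radius `Λ * dl x`, up to the factor `π` -/
noncomputable def mb (D : Set ℂ) (Λ : ℝ) (G : ℂ → ℝ≥0∞) (x : ℂ) : ℝ≥0∞ :=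
  (∫⁻ y in closedBall x (Λ * dl D x), G y) / ENNReal.ofReal ((Λ * dl D x) ^ 2)

theorem mb_mul {Λ : ℝ} (hΛ : 0 < Λ) (G : ℂ → ℝ≥0∞) {x : ℂ} (hx : 0 < dl D x) :
    ∫⁻ y in closedBall x (Λ * dl D x), G y = ENNReal.ofReal ((Λ * dl D x) ^ 2) * mb D Λ G x := by
  rw [mb, ENNReal.mul_div_cancel (ENNReal.ofReal_pos.2 (by positivity)).ne' ENNReal.ofReal_ne_top]

theorem meas_mb (Λ : ℝ) {G : ℂ → ℝ≥0∞} (hG : Measurable G) : Measurable (mb D Λ G) := by
  have hr : Measurable fun x => Λ * dl D x := (dl_cont D).measurable.const_mul Λ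
  exact (meas_ballInt hr hG).div (hr.pow_const 2).ennreal_ofReal

theorem key_point (h : Dom D) (r : RM D φ ψ) (hv : volume D ≠ ⊤) {ℓ : ℝ → Measure ℂ} {C : ℝ≥0}
    (hc : Coarea D ℓ C) {f : ℂ → ℝ≥0∞} (hf : Measurable f) (hfin : embSum D ℓ f ≠ ⊤)
    {lam R : ℝ} (hl : 1 ≤ lam) (hR : ∀ x, dl D x ≤ R) {a : ℂ} (ha : a ∈ ball (0 : ℂ) 1)
    (hfar : ∀ z ∈ D, a ∈ cone (ψ z) →
      z ∉ closedBall (φ a) ((3 * lam + 1) * dl D (φ a)) →
      ∀ t ∈ Ioo (rho D (φ a) + lam * dl D (φ a)) (rho D (φ a) + (lam + 1) * dl D (φ a)),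
        z ∈ Bt D t ∧ frontier (connectedComponentIn (Bt D t) z) ∩ D ⊆
          closedBall (φ a) ((3 * lam + 1) * dl D (φ a))) :
    Hs D ψ f a * ENNReal.ofReal (1 - ‖a‖)⁻¹ ≤
      (ENNReal.ofReal (2 * (3 * lam + 1) ^ 2 * R) * mb D (3 * lam + 1) (D.indicator f) (φ a) +
        ENNReal.ofReal (2 * (3 * lam + 1) ^ 2) * C * mb D (3 * lam + 1) (Gf D ℓ f) (φ a)) *
        ‖deriv φ a‖ₑ := by
  set x := φ a with hx
  set δ := dl D x with hδ
  set Λ := 3 * lam + 1 with hΛ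
  have hxD : x ∈ D := r.maps ha
  have hδ0 : 0 < δ := dl_pos h hxD
  have hΛ0 : 0 < Λ := by linarith
  have ha1 : 0 < 1 - ‖a‖ := by simpa using ha
  set F : Set ℂ := {z ∈ D | a ∈ cone (ψ z)} \ closedBall x (Λ * δ) with hF
  have h1 : Hs D ψ f a ≤ (∫⁻ y in closedBall x (Λ * δ), D.indicator f y) + ∫⁻ z in F, f z := by
    have hsub : {z ∈ D | a ∈ cone (ψ z)} ⊆ (D ∩ closedBall x (Λ * δ)) ∪ F := by
      intro z hz
      by_cases hb : z ∈ closedBall x (Λ * δ)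
      · exact Or.inl ⟨hz.1, hb⟩
      · exact Or.inr ⟨hz, hb⟩
    refine (lintegral_mono_set hsub).trans ((lintegral_union_le _ _ _).trans (le_of_eq ?_))
    rw [lintegral_indicator h.isOpen.measurableSet,
      Measure.restrict_restrict h.isOpen.measurableSet]
  have hα : dl D 0 ≤ rho D x + lam * δ := by
    have := dl_le D 0 x
    have h2 := norm_le_rho h hxD
    rw [zero_sub, norm_neg] at this
    nlinarith
  have h2 := far_le h hv hc hf hfin hα (β := rho D x + (lam + 1) * δ)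
    (B := closedBall x (Λ * δ)) (F := F) measurableSet_closedBall
    (fun z hz t ht => hfar z hz.1.1 hz.1.2 hz.2 t ht)
  rw [show rho D x + (lam + 1) * δ - (rho D x + lam * δ) = δ by ring,
    mb_mul hΛ0 _ hδ0] at h2
  rw [mb_mul hΛ0 _ hδ0] at h1
  set m1 := mb D Λ (D.indicator f) x
  set m2 := mb D Λ (Gf D ℓ f) x
  have hδne : ENNReal.ofReal δ ≠ 0 := by simpa using hδ0
  have h3 : ∫⁻ z in F, f z ≤ ENNReal.ofReal (Λ ^ 2 * δ) * C * m2 := by
    rw [← ENNReal.mul_le_mul_iff_right hδne ENNReal.ofReal_ne_top]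
    refine h2.trans (le_of_eq ?_)
    rw [show (Λ * δ) ^ 2 = δ * (Λ ^ 2 * δ) by ring, ENNReal.ofReal_mul hδ0.le]
    ring
  have h4 : ENNReal.ofReal (1 - ‖a‖)⁻¹ ≤ ENNReal.ofReal (2 / δ) * ‖deriv φ a‖ₑ := by
    rw [← ofReal_norm, ← ENNReal.ofReal_mul (by positivity)]
    refine ENNReal.ofReal_le_ofReal ?_
    have := r.upper a ha
    rw [inv_eq_one_div, div_mul_eq_mul_div, div_le_div_iff₀ ha1 hδ0]
    linarith
  have h5 : ENNReal.ofReal ((Λ * δ) ^ 2) * ENNReal.ofReal (2 / δ) ≤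
      ENNReal.ofReal (2 * Λ ^ 2 * R) := by
    rw [← ENNReal.ofReal_mul (by positivity)]
    refine ENNReal.ofReal_le_ofReal ?_
    have : (Λ * δ) ^ 2 * (2 / δ) = 2 * Λ ^ 2 * δ := by field_simp
    rw [this]
    exact mul_le_mul_of_nonneg_left (hR x) (by positivity)
  have h6 : ENNReal.ofReal (Λ ^ 2 * δ) * ENNReal.ofReal (2 / δ) = ENNReal.ofReal (2 * Λ ^ 2) := by
    rw [← ENNReal.ofReal_mul (by positivity)]
    congr 1
    field_simp
  calc Hs D ψ f a * ENNReal.ofReal (1 - ‖a‖)⁻¹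
      ≤ (ENNReal.ofReal ((Λ * δ) ^ 2) * m1 + ENNReal.ofReal (Λ ^ 2 * δ) * C * m2) *
          (ENNReal.ofReal (2 / δ) * ‖deriv φ a‖ₑ) :=
        mul_le_mul' (h1.trans (add_le_add le_rfl h3)) h4
    _ = (ENNReal.ofReal ((Λ * δ) ^ 2) * ENNReal.ofReal (2 / δ) * m1 +
          ENNReal.ofReal (Λ ^ 2 * δ) * ENNReal.ofReal (2 / δ) * C * m2) * ‖deriv φ a‖ₑ := by ring
    _ ≤ _ := by
        rw [h6]
        gcongr

theorem key (h : Dom D) (r : RM D φ ψ) (hv : volume D ≠ ⊤) {ℓ : ℝ → Measure ℂ} {C : ℝ≥0}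
    (hc : Coarea D ℓ C) (hT : TreeC D ℓ) : ∃ K : ℝ≥0, ∀ f : ℂ → ℝ≥0∞, Measurable f →
      ∫⁻ a in ball (0 : ℂ) 1, (Hs D ψ f a * ENNReal.ofReal (1 - ‖a‖)⁻¹) ^ 2 ≤
        K * ∫⁻ z in D, f z ^ 2 := by
  obtain ⟨σ₀, lam, hσ, hl, hfar⟩ := far_front h r
  obtain ⟨R, hR0, hR⟩ := dl_bdd hv
  obtain ⟨Cm, hm⟩ := maximal
  obtain ⟨K₁, hK₁⟩ := embedding h hv hc hT
  set Λ := 3 * lam + 1 with hΛ
  have hΛ0 : 0 < Λ := by linarith
  set c₀ : ℝ≥0∞ := ENNReal.ofReal σ₀⁻¹ ^ 2 * volume D with hc₀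
  set c₁ : ℝ≥0∞ := ENNReal.ofReal (2 * Λ ^ 2 * R) with hc₁
  set c₂ : ℝ≥0∞ := ENNReal.ofReal (2 * Λ ^ 2) * C with hc₂
  set K : ℝ≥0∞ := c₀ * volume (ball (0 : ℂ) 1) + 2 * c₁ ^ 2 * Cm + 2 * c₂ ^ 2 * (Cm * (C * K₁)) + 1
    with hK
  have hKt : K ≠ ⊤ := by
    have e0 : c₀ ≠ ⊤ := ENNReal.mul_ne_top (ENNReal.pow_ne_top ENNReal.ofReal_ne_top) hv
    have e1 : c₁ ≠ ⊤ := ENNReal.ofReal_ne_top
    have e2 : c₂ ≠ ⊤ := ENNReal.mul_ne_top ENNReal.ofReal_ne_top ENNReal.coe_ne_top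
    have e3 : volume (ball (0 : ℂ) 1) ≠ ⊤ := measure_ball_lt_top.ne
    rw [hK]
    finiteness
  refine ⟨K.toNNReal, fun f hf => ?_⟩
  rw [ENNReal.coe_toNNReal hKt]
  set I := ∫⁻ z in D, f z ^ 2 with hI
  rcases eq_or_ne I ⊤ with hIt | hIt
  · rw [hIt, ENNReal.mul_top (by rw [hK]; simp)]
    exact le_top
  have hfin : embSum D ℓ f ≠ ⊤ :=
    ne_top_of_le_ne_top (ENNReal.mul_ne_top ENNReal.coe_ne_top hIt) (hK₁ f hf)
  have hf' : Measurable (D.indicator f) := hf.indicator h.isOpen.measurableSet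
  have hG := meas_Gf h hc hf
  have hr : Measurable fun x => Λ * dl D x := (dl_cont D).measurable.const_mul Λ
  have hrb : ∀ x ∈ D, 0 < Λ * dl D x ∧ Λ * dl D x ≤ Λ * R := fun x hx =>
    ⟨mul_pos hΛ0 (dl_pos h hx), mul_le_mul_of_nonneg_left (hR x) hΛ0.le⟩
  have hM1 : ∫⁻ x in D, mb D Λ (D.indicator f) x ^ 2 ≤ Cm * I := by
    refine (hm D _ (Λ * R) _ h.isOpen.measurableSet hr hrb hf').trans (le_of_eq ?_)
    rw [hI, ← lintegral_indicator h.isOpen.measurableSet]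
    congr 1
    refine lintegral_congr fun y => ?_
    by_cases hy : y ∈ D <;> simp [hy]
  have hM2 : ∫⁻ x in D, mb D Λ (Gf D ℓ f) x ^ 2 ≤ Cm * (C * K₁) * I := by
    refine (hm D _ (Λ * R) _ h.isOpen.measurableSet hr hrb hG).trans ?_
    rw [mul_assoc, mul_assoc]
    exact mul_le_mul_right ((Gf_sq h hc hf).trans (mul_le_mul_right (hK₁ f hf) _)) _
  set W : ℂ → ℝ≥0∞ := fun x => 2 * c₁ ^ 2 * mb D Λ (D.indicator f) x ^ 2 +
    2 * c₂ ^ 2 * mb D Λ (Gf D ℓ f) x ^ 2 with hW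
  have hpt : ∀ a ∈ ball (0 : ℂ) 1, (Hs D ψ f a * ENNReal.ofReal (1 - ‖a‖)⁻¹) ^ 2 ≤
      c₀ * I + W (φ a) * ‖deriv φ a‖ₑ ^ 2 := by
    intro a ha
    rcases lt_or_ge (1 - ‖a‖) σ₀ with hs | hs
    · refine le_add_left ?_
      refine (pow_le_pow_left' (key_point h r hv hc hf hfin hl hR ha (hfar a ha hs)) 2).trans ?_
      rw [mul_pow]
      refine mul_le_mul_left ((add_sq_le _ _).trans (le_of_eq ?_)) _
      simp only [hW]
      ring
    · refine le_add_right ?_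
      have e1 : Hs D ψ f a ≤ ∫⁻ z in D, f z := lintegral_mono_set fun z hz => hz.1
      have e2 : (∫⁻ z in D, f z) ^ 2 ≤ volume D * I := by
        simpa using lint_cs_one (volume.restrict D) hf.aemeasurable
      have e3 : ENNReal.ofReal (1 - ‖a‖)⁻¹ ≤ ENNReal.ofReal σ₀⁻¹ :=
        ENNReal.ofReal_le_ofReal (inv_anti₀ hσ hs)
      calc _ ≤ ((∫⁻ z in D, f z) * ENNReal.ofReal σ₀⁻¹) ^ 2 := by gcongr
        _ ≤ volume D * I * ENNReal.ofReal σ₀⁻¹ ^ 2 := by rw [mul_pow]; gcongr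
        _ = c₀ * I := by rw [hc₀]; ring
  have hWI : ∫⁻ x in D, W x ≤ 2 * c₁ ^ 2 * (Cm * I) + 2 * c₂ ^ 2 * (Cm * (C * K₁) * I) := by
    simp only [hW]
    rw [lintegral_add_left (((meas_mb Λ hf').pow_const 2).const_mul _),
      lintegral_const_mul _ ((meas_mb Λ hf').pow_const 2),
      lintegral_const_mul _ ((meas_mb Λ hG).pow_const 2)]
    gcongr
  calc _ ≤ ∫⁻ a in ball (0 : ℂ) 1, (c₀ * I + W (φ a) * ‖deriv φ a‖ₑ ^ 2) :=
        setLIntegral_mono' measurableSet_ball hpt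
    _ = c₀ * I * volume (ball (0 : ℂ) 1) + ∫⁻ x in D, W x := by
        rw [lintegral_add_left measurable_const, r.cv W, setLIntegral_const]
    _ ≤ c₀ * I * volume (ball (0 : ℂ) 1) +
        (2 * c₁ ^ 2 * (Cm * I) + 2 * c₂ ^ 2 * (Cm * (C * K₁) * I)) + I :=
        le_add_right (add_le_add le_rfl hWI)
    _ = K * I := by rw [hK]; ring

theorem meas_shadow (r : RM D φ ψ) : MeasurableSet {p : ℂ × ℂ | p.2 ∈ cone (ψ p.1)} :=
  (measurable_snd.prodMk (r.mψ.comp measurable_fst)) cone_open.measurableSet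

theorem meas_Hs (h : Dom D) (r : RM D φ ψ) {f : ℂ → ℝ≥0∞} (hf : Measurable f) :
    Measurable (Hs D ψ f) := by
  have e : Hs D ψ f = fun a => ∫⁻ z in D,
      {p : ℂ × ℂ | p.2 ∈ cone (ψ p.1)}.indicator (fun p => f p.1) (z, a) := by
    funext a
    have hm : MeasurableSet {z : ℂ | a ∈ cone (ψ z)} := measurable_prodMk_right (meas_shadow r)
    rw [Hs, show {z ∈ D | a ∈ cone (ψ z)} = {z : ℂ | a ∈ cone (ψ z)} ∩ D from
      Set.ext fun z => and_comm, ← Measure.restrict_restrict hm, ← lintegral_indicator hm]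
    rfl
  rw [e]
  exact ((hf.comp measurable_fst).indicator (meas_shadow r)).lintegral_prod_left'

theorem dual_eq (h : Dom D) (r : RM D φ ψ) {f g : ℂ → ℝ≥0∞} (hf : Measurable f)
    (hg : Measurable g) : ∫⁻ z in D, T g (ψ z) * f z =
      ∫⁻ a in ball (0 : ℂ) 1, g a * (Hs D ψ f a * ENNReal.ofReal (1 - ‖a‖)⁻¹) := by
  have hw : Measurable fun a : ℂ => g a * ENNReal.ofReal (1 - ‖a‖)⁻¹ := by fun_prop
  set H : ℂ × ℂ → ℝ≥0∞ := {p : ℂ × ℂ | p.2 ∈ cone (ψ p.1)}.indicator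
    (fun p => g p.2 * ENNReal.ofReal (1 - ‖p.2‖)⁻¹ * f p.1) with hH
  have hHm : Measurable H :=
    ((hw.comp measurable_snd).mul (hf.comp measurable_fst)).indicator (meas_shadow r)
  have e1 : ∫⁻ z in D, T g (ψ z) * f z = ∫⁻ z in D, ∫⁻ a in ball (0 : ℂ) 1, H (z, a) := by
    refine setLIntegral_congr_fun h.isOpen.measurableSet fun z hz => ?_
    have hs := cone_subset (r.maps' hz)
    beta_reduce
    rw [T, ← lintegral_mul_const _ hw, ← inter_eq_left.2 hs,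
      ← Measure.restrict_restrict (cone_meas _), ← lintegral_indicator (cone_meas _)]
    rfl
  rw [e1, lintegral_lintegral_swap (f := fun z a => H (z, a)) hHm.aemeasurable]
  refine lintegral_congr fun a => ?_
  have hm : MeasurableSet {z : ℂ | a ∈ cone (ψ z)} := measurable_prodMk_right (meas_shadow r)
  rw [mul_comm (Hs D ψ f a), ← mul_assoc, Hs, ← lintegral_const_mul _ hf,
    show {z ∈ D | a ∈ cone (ψ z)} = {z : ℂ | a ∈ cone (ψ z)} ∩ D from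
      Set.ext fun z => and_comm, ← Measure.restrict_restrict hm, ← lintegral_indicator hm]
  rfl

theorem TB_of_tree (h : Dom D) (r : RM D φ ψ) (hv : volume D ≠ ⊤) {ℓ : ℝ → Measure ℂ} {C : ℝ≥0}
    (hc : Coarea D ℓ C) (hT : TreeC D ℓ) : TB D ψ := by
  obtain ⟨K, hK⟩ := key h r hv hc hT
  refine ⟨K, fun g hg => ?_⟩
  have hu : Measurable fun z => T g (ψ z) := (meas_T hg).comp r.mψ
  have hn : ∀ n : ℕ, Measurable fun z => min (T g (ψ z)) n := fun n => hu.min measurable_const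
  have e : ∫⁻ z in D, T g (ψ z) ^ 2 = ⨆ n : ℕ, ∫⁻ z in D, min (T g (ψ z)) n ^ 2 := by
    rw [← lintegral_iSup (fun n => (hn n).pow_const 2)
      (fun n m hnm z => pow_le_pow_left' (min_le_min_left _ (by exact_mod_cast hnm)) 2)]
    refine lintegral_congr fun z => le_antisymm ?_
      (iSup_le fun n => pow_le_pow_left' (min_le_left _ _) 2)
    rcases eq_or_ne (T g (ψ z)) ⊤ with ht | ht
    · rw [ht]
      refine le_of_forall_lt fun b hb => ?_
      obtain ⟨n, hn⟩ := ENNReal.exists_nat_gt (hb.trans_le le_top).ne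
      refine lt_iSup_iff.2 ⟨n + 1, hn.trans_le ?_⟩
      rw [min_eq_right le_top]
      have : n ≤ (n + 1) ^ 2 := by nlinarith
      exact_mod_cast this
    · obtain ⟨n, hn⟩ := ENNReal.exists_nat_gt ht
      exact le_iSup_of_le n (by rw [min_eq_left hn.le])
  rw [e]
  refine iSup_le fun n => le_of_sq_le ?_ ?_
  · refine ne_top_of_le_ne_top (b := ∫⁻ _ in D, (n : ℝ≥0∞) ^ 2) ?_
      (lintegral_mono fun z => pow_le_pow_left' (min_le_right _ _) 2)
    rw [setLIntegral_const]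
    finiteness
  · have e1 : ∫⁻ z in D, min (T g (ψ z)) n ^ 2 ≤ ∫⁻ z in D, T g (ψ z) * min (T g (ψ z)) n :=
      lintegral_mono fun z => by
        rw [sq]
        exact mul_le_mul_left (min_le_left _ _) _
    rw [dual_eq h r (hn n) hg] at e1
    have hw : Measurable fun a : ℂ =>
        Hs D ψ (fun z => min (T g (ψ z)) n) a * ENNReal.ofReal (1 - ‖a‖)⁻¹ :=
      (meas_Hs h r (hn n)).mul (by fun_prop)
    refine (pow_le_pow_left' e1 2).trans ((lint_cs _ hg.aemeasurable hw.aemeasurable).trans ?_)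
    refine (mul_le_mul_right (hK _ (hn n)) _).trans (le_of_eq ?_)
    ring

end Pool.Agent.P.MP_6c0067_an
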