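import Pool.Agent.P.MP_6c0067_an.UG
import Pool.Agent.P.MP_6c0067_an.Avg
import Pool.Agent.P.MP_6c0067_an.CS

/-! The Hardy operator bound implies the front condition. -/

open Set MeasureTheory Metric
open scoped ENNReal NNReal

namespace Pool.Agent.P.MP_6c0067_an

open Classical

variable {D : Set ℂ} {φ ψ : ℂ → ℂ}

theorem iSup_sq_le (a : ℕ → ℝ≥0∞) : (⨆ m, a m) ^ 2 ≤ ∑' m, a m ^ 2 := by
  rw [sq, ENNReal.iSup_mul]
  refine iSup_le fun i => ?_
  rw [ENNReal.mul_iSup]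
  refine iSup_le fun j => ?_
  rcases le_total (a i) (a j) with hij | hij
  · exact (mul_le_mul_left hij _).trans (by rw [← sq]; exact ENNReal.le_tsum j)
  · exact (mul_le_mul_right hij _).trans (by rw [← sq]; exact ENNReal.le_tsum i)

theorem tsum_iSup_mono {b : ℕ → ℕ → ℝ≥0∞} (hb : Monotone b) :
    ∑' m, ⨆ N, b N m = ⨆ N, ∑' m, b N m := by
  simp only [← lintegral_count]
  exact lintegral_iSup (fun N => measurable_of_countable _) hb

/-- densities carried by the pieces inside a fixed piece -/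
structure Adm (D : Set ℂ) (ℓ : ℝ → Measure ℂ) (n : ℕ) (t₀ : ℝ) (g : ℕ → ℝ → ℝ≥0∞) : Prop where
  meas : ∀ m, Measurable (g m)
  supp : ∀ m t, g m t ≠ 0 → First D m t ∧ q m ∈ Un D n t₀ ∧ t₀ < t
  le : ∀ m t, g m t * ℓ t (Rn D m) ≤ volume (Un D m t)

variable {ℓ : ℝ → Measure ℂ} {C : ℝ≥0} {n : ℕ} {t₀ : ℝ} {g : ℕ → ℝ → ℝ≥0∞}

theorem Adm.sub (hg : Adm D ℓ n t₀ g) {m : ℕ} {t : ℝ} (h0 : g m t ≠ 0) :
    Un D m t ⊆ Un D n t₀ := by
  obtain ⟨-, h2, h3⟩ := hg.supp m t h0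
  rw [← Un_eq_of_mem h2]
  exact Un_anti D m h3.le

theorem Adm.int_uf (h : Dom D) (hg : Adm D ℓ n t₀ g) :
    ∫⁻ t, ∑' m, g m t * volume (Un D m t) ≤ ∫⁻ z in Un D n t₀, uf D g z := by
  have hm : ∀ m, Measurable fun p : ℂ × ℝ =>
      if First D m p.2 ∧ p.1 ∈ Un D m p.2 then g m p.2 else 0 := fun m =>
    Measurable.ite ((measurable_snd (meas_First h m)).inter (measurable_swap (meas_Un h m)))
      ((hg.meas m).comp measurable_snd) measurable_const
  unfold uf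
  rw [lintegral_lintegral_swap (f := fun z t => ∑' m,
    if First D m t ∧ z ∈ Un D m t then g m t else 0) (Measurable.tsum hm).aemeasurable]
  refine lintegral_mono fun t => ?_
  rw [lintegral_tsum (f := fun m z => if First D m t ∧ z ∈ Un D m t then g m t else 0)
    fun m => ((hm m).comp measurable_prodMk_right).aemeasurable]
  refine ENNReal.tsum_le_tsum fun m => ?_
  rcases eq_or_ne (g m t) 0 with h0 | h0
  · simp [h0]
  · refine le_trans (le_of_eq ?_) (lintegral_mono_set (hg.sub h0))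
    rw [← setLIntegral_const]
    refine setLIntegral_congr_fun (Un_open h m t).measurableSet fun z hz => ?_
    simp [(hg.supp m t h0).1, hz]

theorem Adm.int_Gu (h : Dom D) (hc : Coarea D ℓ C) (hg : Adm D ℓ n t₀ g) :
    ∫⁻ y in D, Gu D g y ^ 2 ≤ C * ∫⁻ t, ∑' m, g m t * volume (Un D m t) := by
  refine (hc.vol_le _ ((meas_Gu h hg.meas).pow_const 2)).trans
    (mul_le_mul_right (lintegral_mono fun t => ?_) _)
  have h1 : ∀ᵐ y ∂ℓ t, Gu D g y ^ 2 ≤ ∑' m, (Rn D m).indicator (fun _ => g m t ^ 2) y := by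
    have : ∀ᵐ y ∂ℓ t, y ∈ Lv D t := hc.supp t
    filter_upwards [this] with y hy
    refine (iSup_sq_le _).trans (ENNReal.tsum_le_tsum fun m => ?_)
    rw [hy.2]
    split_ifs with hm
    · rw [indicator_of_mem hm.2]
    · simp
  refine (lintegral_mono_ae h1).trans ?_
  rw [lintegral_tsum fun m => (measurable_const.indicator (meas_Rn h m)).aemeasurable]
  refine ENNReal.tsum_le_tsum fun m => ?_
  rw [lintegral_indicator_const (meas_Rn h m), sq, mul_assoc]
  exact mul_le_mul_right (hg.le m t) _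

theorem Adm.Gu_supp (h : Dom D) (hg : Adm D ℓ n t₀ g) {y : ℂ} (hy : y ∉ Un D n t₀) :
    Gu D g y = 0 := by
  refine le_antisymm (iSup_le fun m => ?_) zero_le
  split_ifs with hm
  · by_contra h0
    have h1 : g m (rho D y) ≠ 0 := fun e => h0 e.le
    exact hy (closure_Un h ⟨hm.2.1, (hg.supp m _ h1).2.2⟩
      (closure_mono (hg.sub h1) (frontier_subset_closure hm.2.2)))
  · exact le_rfl

theorem Adm.uf_zero (h : Dom D) (hg : Adm D ℓ n t₀ g) (ht : dl D 0 ≤ t₀) {z : ℂ}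
    (hz : z ∈ ball (0 : ℂ) (dl D 0)) : uf D g z = 0 := by
  have h1 : rho D z ≤ ‖z‖ := by
    have := rho_seg h (y := 0) (z := z) (((convex_ball (0 : ℂ) (dl D 0)).segment_subset
      (mem_ball_self (dl_pos h h.zero)) hz).trans (ball_dl D 0))
    simpa [rho_zero h] using this
  have h2 : ‖z‖ < dl D 0 := by simpa using hz
  have : ∀ t m, (if First D m t ∧ z ∈ Un D m t then g m t else 0) = 0 := by
    intro t m
    split_ifs with hm
    · by_contra h0
      have h3 := (hg.supp m t h0).2.2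
      have h4 := (Un_subset D m t hm.2).2
      linarith
    · rfl
  simp [uf, this]

theorem ug_seg (h : Dom D) (r : RM D φ ψ) (hg : ∀ m, Measurable (g m)) {ζ ζ' : ℂ}
    (h1 : ζ ∈ ball (0 : ℂ) 1) (h2 : ζ' ∈ ball (0 : ℂ) 1) : uf D g (φ ζ') ≤ uf D g (φ ζ) +
      ∫⁻ s in Icc (0 : ℝ) 1, Gu D g (φ (ζ + s * (ζ' - ζ))) *
        ENNReal.ofReal (‖deriv φ (ζ + s * (ζ' - ζ))‖ * ‖ζ' - ζ‖) := by
  have hm : MapsTo (fun s : ℝ => ζ + s * (ζ' - ζ)) (Icc 0 1) (ball (0 : ℂ) 1) := fun s hs => by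
    have := (convex_ball (0 : ℂ) 1).add_smul_sub_mem h1 h2 hs
    simpa using this
  have hs : Continuous fun s : ℝ => ζ + s * (ζ' - ζ) := by fun_prop
  have := upper_gradient h hg (c := fun s => φ (ζ + s * (ζ' - ζ)))
    (v := fun s => ‖deriv φ (ζ + s * (ζ' - ζ))‖ * ‖ζ' - ζ‖)
    (r.dφ.continuousOn.comp hs.continuousOn hm) (r.maps.comp hm)
    ((r.deriv_contOn.comp hs.continuousOn hm).norm.mul continuousOn_const)
    (fun s _ => by positivity) (fun s s' a b c => r.rho_seg h h1 h2 a b c)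
  simpa using this

theorem exists_kappa (h : Dom D) (r : RM D φ ψ) :
    ∃ κ : ℝ, 0 < κ ∧ κ ≤ 1 / 2 ∧ ∀ ξ ∈ ball (0 : ℂ) κ, φ ξ ∈ ball (0 : ℂ) (dl D 0) := by
  have hc : ContinuousAt φ 0 := (r.hasDerivAt (mem_ball_self one_pos)).continuousAt
  obtain ⟨κ, h0, hκ⟩ := Metric.continuousAt_iff.1 hc _ (dl_pos h h.zero)
  refine ⟨min κ (1 / 2), by positivity, min_le_right _ _, fun ξ hξ => ?_⟩
  have := hκ (ball_subset_ball (min_le_left _ _) hξ)
  rwa [r.zero] at this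

theorem adm_bound (h : Dom D) (r : RM D φ ψ) (hv : volume D ≠ ⊤) (hc : Coarea D ℓ C)
    (hT : TB D ψ) : ∃ K : ℝ≥0, ∀ n t₀ g, dl D 0 ≤ t₀ → Adm D ℓ n t₀ g →
      ∫⁻ t, ∑' m, g m t * volume (Un D m t) ≠ ⊤ →
      ∫⁻ t, ∑' m, g m t * volume (Un D m t) ≤ K * volume (Un D n t₀) := by
  obtain ⟨κ, k0, k1, hκ⟩ := exists_kappa h r
  obtain ⟨C₁, hC₁⟩ := averaging h r hv k0 k1
  obtain ⟨K, hK⟩ := hT
  refine ⟨2 * C₁ ^ 2 * (K * C) + 2 * C₁ ^ 2 * C, fun n t₀ g ht hg hA => le_of_sq_le hA ?_⟩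
  set A := ∫⁻ t, ∑' m, g m t * volume (Un D m t)
  set U := Un D n t₀ with hU
  have hUm : MeasurableSet U := (Un_open h n t₀).measurableSet
  have hUD : U ⊆ D := fun z hz => (Un_subset D n t₀ hz).1
  have hG := meas_Gu h hg.meas
  have hg' : Measurable fun a => Gu D g (φ a) * ‖deriv φ a‖ₑ :=
    (hG.comp r.mφ).mul (measurable_deriv φ).enorm
  have h1 := (hg.int_uf h).trans (hC₁ _ _ (meas_uf h hg.meas) hG
    (fun ξ hξ => hg.uf_zero h ht (hκ ξ hξ)) (fun ζ h1 ζ' h2 => ug_seg h r hg.meas h1 h2) U hUm hUD)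
  have h2 := hg.int_Gu h hc
  have h3 : (∫⁻ z in U, T (fun a => Gu D g (φ a) * ‖deriv φ a‖ₑ) (ψ z)) ^ 2 ≤
      volume U * (K * (C * A)) := by
    have := lint_cs_one (volume.restrict U) ((meas_T hg').comp r.mψ).aemeasurable
    rw [Measure.restrict_apply_univ] at this
    refine this.trans (mul_le_mul_right ((lintegral_mono_set hUD).trans ((hK _ hg').trans
      (mul_le_mul_right (le_trans (le_of_eq ?_) h2) _))) _)
    rw [r.cv]
    simp only [mul_pow]
  have h4 : (∫⁻ y in D, Gu D g y) ^ 2 ≤ volume U * (C * A) := by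
    have e : ∫⁻ y in D, Gu D g y ≤ ∫⁻ y in U, Gu D g y := by
      rw [← lintegral_indicator hUm]
      refine (setLIntegral_le_lintegral _ _).trans (lintegral_mono fun y => ?_)
      by_cases hy : y ∈ U
      · rw [indicator_of_mem hy]
      · rw [hg.Gu_supp h hy]
        exact zero_le
    have := lint_cs_one (volume.restrict U) hG.aemeasurable
    rw [Measure.restrict_apply_univ] at this
    exact (pow_le_pow_left' e 2).trans
      (this.trans (mul_le_mul_right ((lintegral_mono_set hUD).trans h2) _))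
  refine (pow_le_pow_left' h1 2).trans ((add_sq_le _ _).trans ?_)
  rw [mul_pow, mul_pow]
  refine (add_le_add (mul_le_mul_right (mul_le_mul_right h3 _) _)
    (mul_le_mul_right (mul_le_mul_right h4 _) _)).trans (le_of_eq ?_)
  push_cast
  ring

/-- the truncated extremal densities -/
noncomputable def gN (D : Set ℂ) (ℓ : ℝ → Measure ℂ) (n : ℕ) (t₀ : ℝ) (N m : ℕ) (t : ℝ) : ℝ≥0∞ :=
  if First D m t ∧ q m ∈ Un D n t₀ ∧ t ∈ Ioc t₀ (t₀ + N) ∧ m < N then
    min (volume (Un D m t) / ℓ t (Rn D m)) N else 0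

theorem gN_adm (h : Dom D) (hc : Coarea D ℓ C) (n : ℕ) (t₀ : ℝ) (N : ℕ) :
    Adm D ℓ n t₀ (gN D ℓ n t₀ N) where
  meas m := Measurable.ite ((meas_First h m).inter ((MeasurableSet.const _).inter
      (measurableSet_Ioc.inter (MeasurableSet.const _))))
    (((meas_vol_Un h m).div (hc.meas_set (meas_Rn h m))).min measurable_const) measurable_const
  supp m t h0 := by
    unfold gN at h0
    split_ifs at h0 with hm
    · exact ⟨hm.1, hm.2.1, hm.2.2.1.1⟩
    · exact absurd rfl h0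
  le m t := by
    unfold gN
    split_ifs
    · refine (mul_le_mul_left (min_le_left _ _) _).trans ?_
      rw [mul_comm]
      exact ENNReal.mul_div_le
    · simp

theorem gN_mono (n : ℕ) (t₀ : ℝ) (m : ℕ) (t : ℝ) : Monotone fun N => gN D ℓ n t₀ N m t := by
  intro N M hNM
  have hc : (N : ℝ) ≤ M := by exact_mod_cast hNM
  simp only [gN]
  split_ifs with h1 h2
  · exact min_le_min_left _ (by exact_mod_cast hNM)
  · exact absurd ⟨h1.1, h1.2.1, ⟨h1.2.2.1.1, by linarith [h1.2.2.1.2]⟩, h1.2.2.2.trans_le hNM⟩ h2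
  · exact zero_le
  · exact le_rfl

theorem gN_fin (hv : volume D ≠ ⊤) (n : ℕ) (t₀ : ℝ) (N : ℕ) :
    ∫⁻ t, ∑' m, gN D ℓ n t₀ N m t * volume (Un D m t) ≠ ⊤ := by
  have h1 : ∀ t, ∑' m, gN D ℓ n t₀ N m t * volume (Un D m t) ≤
      (Ioc t₀ (t₀ + N)).indicator (fun _ => ∑ _m ∈ Finset.range N, (N : ℝ≥0∞) * volume D) t := by
    intro t
    by_cases ht : t ∈ Ioc t₀ (t₀ + N)
    · rw [indicator_of_mem ht, tsum_eq_sum (s := Finset.range N)
        (fun m hm => by simp [gN, show ¬ m < N by simpa using hm])]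
      refine Finset.sum_le_sum fun m _ => mul_le_mul' ?_
        (measure_mono fun z hz => (Un_subset D m t hz).1)
      unfold gN
      split_ifs
      · exact min_le_right _ _
      · exact zero_le
    · have : ∀ m, gN D ℓ n t₀ N m t = 0 := fun m => if_neg fun hm => ht hm.2.2.1
      simp [this]
  refine ne_top_of_le_ne_top ?_ (lintegral_mono h1)
  rw [lintegral_indicator_const measurableSet_Ioc]
  refine ENNReal.mul_ne_top ?_ measure_Ioc_lt_top.ne
  rw [Finset.sum_const, nsmul_eq_mul]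
  finiteness

theorem le_iSup_gN {m : ℕ} {t : ℝ} (h1 : First D m t) (h2 : q m ∈ Un D n t₀) (ht : t₀ < t) :
    volume (Un D m t) / ℓ t (Rn D m) ≤ ⨆ N, gN D ℓ n t₀ N m t := by
  refine le_of_forall_lt fun b hb => ?_
  obtain ⟨k, hk⟩ := ENNReal.exists_nat_gt (hb.trans_le le_top).ne
  obtain ⟨j, hj⟩ := exists_nat_ge (t - t₀)
  refine lt_iSup_iff.2 ⟨k + j + m + 1, ?_⟩
  have e : t ≤ t₀ + ((k + j + m + 1 : ℕ) : ℝ) := by
    push_cast
    have : (0 : ℝ) ≤ k := by positivity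
    have : (0 : ℝ) ≤ m := by positivity
    linarith
  rw [gN, if_pos ⟨h1, h2, ⟨ht, e⟩, by omega⟩]
  exact lt_min hb (hk.trans_le (by exact_mod_cast (by omega)))

theorem tree_of_TB (h : Dom D) (r : RM D φ ψ) (hv : volume D ≠ ⊤) {ℓ : ℝ → Measure ℂ} {C : ℝ≥0}
    (hc : Coarea D ℓ C) (hT : TB D ψ) : TreeC D ℓ := by
  obtain ⟨K, hK⟩ := adm_bound h r hv hc hT
  refine ⟨K, fun t₀ ht n _ => ?_⟩
  have hb : ∀ t, Monotone fun N m => gN D ℓ n t₀ N m t * volume (Un D m t) :=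
    fun t N M hNM m => mul_le_mul_left (gN_mono n t₀ m t hNM) _
  calc _ ≤ ∫⁻ t in Ioi t₀, ⨆ N, ∑' m, gN D ℓ n t₀ N m t * volume (Un D m t) := by
        refine setLIntegral_mono' measurableSet_Ioi fun t ht => ?_
        rw [← tsum_iSup_mono (hb t)]
        refine ENNReal.tsum_le_tsum fun m => ?_
        split_ifs with hm
        · rw [← ENNReal.iSup_mul, sq, ENNReal.mul_div_right_comm]
          exact mul_le_mul_left (le_iSup_gN hm.1 hm.2 ht) _
        · exact zero_le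
    _ ≤ ∫⁻ t, ⨆ N, ∑' m, gN D ℓ n t₀ N m t * volume (Un D m t) := setLIntegral_le_lintegral _ _
    _ = ⨆ N, ∫⁻ t, ∑' m, gN D ℓ n t₀ N m t * volume (Un D m t) :=
        lintegral_iSup (fun N => Measurable.tsum fun m =>
          ((gN_adm h hc n t₀ N).meas m).mul (meas_vol_Un h m))
          fun N M hNM t => ENNReal.tsum_le_tsum (hb t hNM)
    _ ≤ _ := iSup_le fun N => hK n t₀ _ ht (gN_adm h hc n t₀ N) (gN_fin hv n t₀ N)

end Pool.Agent.P.MP_6c0067_an
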