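import Pool.Agent.P.MP_6c0067_an.Rho
import Pool.Agent.P.MP_677d31_pr.Riemann

/-! Existence of the Riemann map with the Koebe bounds. Follow the proof of
`MP_677d31_pr.riemann`: `HasLogs D` is `Complex.exists_continuousOn_eqOn_exp_comp`; a first member
of `RM.Fam D 0` comes from a square root of `w - e`, `e ∉ D`, and an
inversion; `RM.exists_max` and `RM.improve` give a member `f` which is onto the disc, and
`RM.koebe` gives `1 - ‖f z‖ ≤ 64 * dl z * ‖deriv f z‖`. Careful: we need the bound for the inverse,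
`deriv φ (f z) * deriv f z = 1`, so `lower` is this inequality divided by `‖deriv f z‖`.
Put `ψ = D.indicator f` and `φ = (ball 0 1).indicator (Function.invFunOn f D)`; `φ` is
differentiable by the inverse function theorem (`HasStrictDerivAt.localInverse`, or continuity
from the open mapping theorem and `HasDerivAt.of_local_left_inverse`); both maps are continuous
on an open set and zero outside, hence measurable. `upper`: the Schwarz lemma
(`Complex.norm_deriv_le_div_of_mapsTo_ball`) for `RM.mob (f z) ∘ f` on `ball z (dl z)` gives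
`dl z * ‖deriv f z‖ ≤ 1 - ‖f z‖ ^ 2 ≤ 2 * (1 - ‖f z‖)`. -/

open Set MeasureTheory Metric
open scoped ENNReal NNReal

namespace Pool.Agent.P.MP_6c0067_an

open Classical

variable {D : Set ℂ} {φ ψ : ℂ → ℂ}

theorem RMex_strict (ho : IsOpen D) {f : ℂ → ℂ} (hf : DifferentiableOn ℂ f D) {z : ℂ}
    (hz : z ∈ D) : HasStrictDerivAt f (deriv f z) z :=
  (hf.analyticAt (ho.mem_nhds hz)).hasStrictDerivAt

theorem RMex_first (h : Dom D) (hl : MP_677d31_pr.HasLogs D) :
    ∃ f, MP_677d31_pr.RM.Fam D 0 f := by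
  obtain ⟨e, he⟩ := h.ne
  obtain ⟨s, hs⟩ := MP_677d31_pr.RM.exists_sqrt h.isOpen hl (F := fun w => w - e)
    (differentiableOn_id.sub_const e) fun w hw h0 => he (sub_eq_zero.1 h0 ▸ hw)
  have hd : ∀ w ∈ D, HasDerivAt s (1 / (2 * s w)) w := fun w hw => by
    have := (hs w hw).2.2
    rwa [((hasDerivAt_id' w).sub_const e).deriv] at this
  have hd0 : ∀ w ∈ D, 1 / (2 * s w) ≠ 0 := fun w hw =>
    one_div_ne_zero (mul_ne_zero two_ne_zero (hs w hw).2.1)
  have hsq : ∀ u ∈ D, ∀ w ∈ D, s u ^ 2 = s w ^ 2 → u = w := fun u hu w hw e => by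
    rw [(hs u hu).1, (hs w hw).1] at e
    exact sub_left_injective e
  have h1 := (RMex_strict h.isOpen
    (fun w hw => (hd w hw).differentiableAt.differentiableWithinAt) h.zero).map_nhds_eq
      (by rw [(hd 0 h.zero).deriv]; exact hd0 0 h.zero)
  obtain ⟨r, hr, hb⟩ := Metric.mem_nhds_iff.1
    (h1 ▸ Filter.image_mem_map (h.isOpen.mem_nhds h.zero) : s '' D ∈ nhds (s 0))
  have h2 : ∀ w ∈ D, r ≤ ‖s w + s 0‖ := fun w hw => by
    by_contra hlt
    obtain ⟨u, hu, e⟩ := hb (show -s w ∈ ball (s 0) r by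
      rw [mem_ball_iff_norm, ← neg_add', norm_neg]
      exact not_le.1 hlt)
    have e1 := hsq u hu w hw (by rw [e, neg_sq])
    rw [e1] at e
    exact (hs w hw).2.1 (by linear_combination e / 2)
  have h3 : ∀ w ∈ D, s w + s 0 ≠ 0 := fun w hw => norm_pos_iff.1 (hr.trans_le (h2 w hw))
  have hr' : ((r / 4 : ℝ) : ℂ) ≠ 0 := Complex.ofReal_ne_zero.2 (by positivity)
  have h4 : ∀ w ∈ D, HasDerivAt (fun w => ((r / 4 : ℝ) : ℂ) * ((s w + s 0)⁻¹ - (s 0 + s 0)⁻¹))
      (((r / 4 : ℝ) : ℂ) * (-(1 / (2 * s w)) / (s w + s 0) ^ 2)) w := fun w hw =>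
    ((((hd w hw).add_const (s 0)).inv (h3 w hw)).sub_const _).const_mul _
  refine ⟨_, fun w hw => (h4 w hw).differentiableAt.differentiableWithinAt, fun u hu w hw e => ?_,
    fun w hw => ?_, by simp, fun w hw => ?_⟩
  · have e1 := add_right_cancel (inv_injective (sub_left_injective (mul_left_cancel₀ hr' e)))
    exact hsq u hu w hw (by rw [e1])
  · have e1 : ∀ w ∈ D, ‖(s w + s 0)⁻¹‖ ≤ r⁻¹ := fun w hw => by
      rw [norm_inv]
      exact inv_anti₀ hr (h2 w hw)
    rw [norm_mul, Complex.norm_real, Real.norm_of_nonneg (by positivity)]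
    refine (mul_le_mul_of_nonneg_left ((norm_sub_le _ _).trans
      (add_le_add (e1 w hw) (e1 0 h.zero))) (by positivity)).trans_lt ?_
    have : r / 4 * (r⁻¹ + r⁻¹) = 1 / 2 := by field_simp; norm_num
    rw [this]
    norm_num
  · rw [(h4 w hw).deriv]
    exact mul_ne_zero hr' (div_ne_zero (neg_ne_zero.2 (hd0 w hw)) (pow_ne_zero _ (h3 w hw)))

theorem RMex_upper (h : Dom D) {f : ℂ → ℂ} (hf : MP_677d31_pr.RM.Fam D 0 f) {z : ℂ} (hz : z ∈ D) :
    dl D z * ‖deriv f z‖ ≤ 2 * (1 - ‖f z‖) := by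
  have ha := hf.maps z hz
  have hd : ∀ w ∈ D, HasDerivAt (fun w => MP_677d31_pr.RM.mob (f z) (f w))
      ((1 - (starRingEnd ℂ) (f z) * f z) / (1 - (starRingEnd ℂ) (f z) * f w) ^ 2 * deriv f w) w :=
    fun w hw => (MP_677d31_pr.RM.mob_deriv ha (hf.maps w hw)).comp w
      (hf.diff.differentiableAt (h.isOpen.mem_nhds hw)).hasDerivAt
  have h1 := Complex.norm_deriv_le_div_of_mapsTo_ball (c := z) (R₁ := dl D z) (R₂ := 1)
    (f := fun w => MP_677d31_pr.RM.mob (f z) (f w))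
    (fun w hw => (hd w (ball_dl D z hw)).differentiableAt.differentiableWithinAt)
    (fun w hw => by
      have e : MP_677d31_pr.RM.mob (f z) (f z) = 0 := by simp [MP_677d31_pr.RM.mob]
      rw [e, mem_closedBall_zero_iff]
      exact (MP_677d31_pr.RM.mob_lt ha (hf.maps w (ball_dl D z hw))).le) (dl_pos h hz)
  have h2 : 0 < 1 - ‖f z‖ ^ 2 := by nlinarith [norm_nonneg (f z)]
  rw [(hd z hz).deriv, norm_mul, norm_div, norm_pow, MP_677d31_pr.RM.norm_den ha,
    le_div_iff₀ (dl_pos h hz), sq (1 - ‖f z‖ ^ 2), div_mul_cancel_right₀ h2.ne', mul_assoc,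
    inv_mul_le_iff₀ h2] at h1
  nlinarith [sq_nonneg (1 - ‖f z‖)]

theorem exists_RM (h : Dom D) (hs : IsSimplyConnected D) : ∃ φ ψ, RM D φ ψ := by
  have hl : MP_677d31_pr.HasLogs D := fun F hF h0 =>
    Complex.exists_continuousOn_eqOn_exp_comp hs h.isOpen hF fun ⟨w, hw, e⟩ => h0 w hw e
  obtain ⟨f₀, h₀⟩ := RMex_first h hl
  obtain ⟨f, hf, hmax⟩ := MP_677d31_pr.RM.exists_max h.isOpen h.conn h.zero h₀
  have hon : ∀ a : ℂ, ‖a‖ < 1 → ∃ w ∈ D, f w = a := fun a ha => by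
    by_contra hc
    push Not at hc
    obtain ⟨g, hg, hlt⟩ := MP_677d31_pr.RM.improve h.isOpen hl h.zero hf ha hc
    exact absurd (hmax g hg) (not_le.2 hlt)
  obtain ⟨φ, hφ⟩ : ∃ φ, φ = (ball (0 : ℂ) 1).indicator (Function.invFunOn f D) := ⟨_, rfl⟩
  have h1 : ∀ z ∈ D, φ (f z) = z := fun z hz => by
    rw [hφ, indicator_of_mem (mem_ball_zero_iff.2 (hf.maps z hz))]
    exact hf.inj.leftInvOn_invFunOn hz
  have h2 : ∀ z ∈ D, HasDerivAt φ (deriv f z)⁻¹ (f z) := fun z hz =>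
    ((RMex_strict h.isOpen hf.diff hz).to_local_left_inverse (hf.der z hz)
      (Filter.eventually_of_mem (h.isOpen.mem_nhds hz) h1)).hasDerivAt
  have h3 : ∀ {P : ℂ → Prop}, (∀ z ∈ D, P (f z)) → ∀ w ∈ ball (0 : ℂ) 1, P w := fun hP w hw => by
    obtain ⟨z, hz, rfl⟩ := hon w (mem_ball_zero_iff.1 hw)
    exact hP z hz
  have h4 : DifferentiableOn ℂ φ (ball 0 1) :=
    h3 fun z hz => (h2 z hz).differentiableAt.differentiableWithinAt
  have h5 : ∀ {g : ℂ → ℂ} {U : Set ℂ}, IsOpen U → ContinuousOn g U → Measurable (U.indicator g) :=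
    fun hU hg => hg.measurable_piecewise continuousOn_const hU.measurableSet
  have h6 : EqOn (D.indicator f) f D := fun z hz => indicator_of_mem hz f
  refine ⟨φ, D.indicator f, h4, hf.diff.congr h6, ?_, h5 h.isOpen hf.diff.continuousOn,
    h3 fun z hz => ?_, fun z hz => ?_, h3 fun z hz => ?_, fun z hz => ?_, ?_, h3 fun z hz => ?_,
    h3 fun z hz => ?_⟩
  · have e : φ = (ball (0 : ℂ) 1).indicator φ := by rw [hφ, indicator_indicator, inter_self]
    rw [e]
    exact h5 isOpen_ball h4.continuousOn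
  · rw [h1 z hz]
    exact hz
  · rw [h6 hz]
    exact mem_ball_zero_iff.2 (hf.maps z hz)
  · rw [h1 z hz, h6 hz]
  · rw [h6 hz, h1 z hz]
  · have := h1 0 h.zero
    rwa [hf.zero] at this
  · rw [h1 z hz, (h2 z hz).deriv, norm_inv, ← div_eq_mul_inv,
      div_le_iff₀ (norm_pos_iff.2 (hf.der z hz))]
    exact MP_677d31_pr.RM.koebe h.isOpen hl h.ne hf hon hz
  · rw [h1 z hz, (h2 z hz).deriv, norm_inv, ← div_eq_mul_inv,
      le_div_iff₀ (norm_pos_iff.2 (hf.der z hz))]
    exact RMex_upper h hf hz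

end Pool.Agent.P.MP_6c0067_an
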