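import Pool.Agent.P.MP_6c0067_an.Node

/-! The two forms of the front condition. For `t > t₀ ≥ dl D 0 > 0` one has `beyond = Bt`, the
pieces of level `t₀` are the sets `Un n t₀` with `q n ∈ Bt t₀` (`exists_first`, `Un_eq_comp`), and
`m ↦ Un m t` is a bijection from `{m | First m t ∧ q m ∈ Un n t₀}` onto the pieces of level `t`
inside `Un n t₀` (`first_unique`, `Un_anti`, `Un_eq_of_mem`); reindex with `Equiv.tsum_eq` and
`tsum_subtype`, or `ENNReal.tsum_comp_le_tsum_of_injective` and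
`ENNReal.tsum_le_tsum_comp_of_surjective`. By `front_eq`, `le_haus`, `haus_le` the two
denominators are comparable; `a / x ≤ C * (a / y)` if `y ≤ C * x`, `C ≠ 0`, `C ≠ ⊤`.
No measurability is needed: `setLIntegral_mono'` and `lintegral_const_mul'`. -/

open Set MeasureTheory Metric
open scoped ENNReal NNReal

namespace Pool.Agent.P.MP_6c0067_an

open Classical

variable {D : Set ℂ}

theorem Reidx_div {a x y : ℝ≥0∞} {C : ℝ≥0} (hC : (C : ℝ≥0∞) ≠ 0) (h : y ≤ C * x) :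
    a / x ≤ C * (a / y) := by
  have h1 : ((C : ℝ≥0∞) * x)⁻¹ ≤ y⁻¹ := ENNReal.inv_le_inv.mpr h
  rw [ENNReal.mul_inv (Or.inl hC) (Or.inl ENNReal.coe_ne_top)] at h1
  have h2 : x⁻¹ ≤ C * y⁻¹ := by
    refine le_trans (le_of_eq ?_) (mul_le_mul_right h1 (C : ℝ≥0∞))
    rw [← mul_assoc, ENNReal.mul_inv_cancel hC ENNReal.coe_ne_top, one_mul]
  rw [div_eq_mul_inv, div_eq_mul_inv, mul_left_comm]
  exact mul_le_mul_right h2 a

theorem Reidx_sum (h : Dom D) {t₀ t : ℝ} (h0 : 0 ≤ t₀) (ht : t₀ ≤ t) (n : ℕ)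
    (G : Set ℂ → ℝ≥0∞) :
    ∑' U : {U : Set ℂ // U ∈ pieces D t ∧ U ⊆ Un D n t₀}, G U.1 =
      ∑' m, if First D m t ∧ q m ∈ Un D n t₀ then G (Un D m t) else 0 := by
  have hp : pieces D t = connectedComponentIn (Bt D t) '' Bt D t := by
    rw [pieces, beyond_eq h (h0.trans ht)]
  let e : {m | First D m t ∧ q m ∈ Un D n t₀} → {U : Set ℂ // U ∈ pieces D t ∧ U ⊆ Un D n t₀} :=
    fun m => ⟨Un D m t, hp ▸ ⟨q m, m.2.1.1, rfl⟩,
      (Un_anti D m ht).trans (Un_eq_of_mem m.2.2).subset⟩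
  have he : Function.Bijective e := by
    refine ⟨fun m m' hm => Subtype.ext ?_, fun U => ?_⟩
    · have e1 : Un D m t = Un D m' t := congrArg Subtype.val hm
      have e2 := q_mem_Un.mpr m.2.1.1
      exact first_unique m.2.1 m'.2.1 e2 (e1 ▸ e2)
    · obtain ⟨U, hU, hU'⟩ := U
      rw [hp] at hU
      obtain ⟨z, hz, rfl⟩ := hU
      obtain ⟨m, hm, hzm⟩ := exists_first h hz
      have e1 := Un_eq_comp hzm
      exact ⟨⟨m, hm, hU' (e1 ▸ q_mem_Un.mpr hm.1)⟩, Subtype.ext e1⟩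
  rw [← (Equiv.ofBijective e he).tsum_eq]
  refine (tsum_subtype {m | First D m t ∧ q m ∈ Un D n t₀} fun m => G (Un D m t)).trans ?_
  refine tsum_congr fun m => ?_
  rw [indicator_apply]
  rfl

theorem front_iff_tree (h : Dom D) {ℓ : ℝ → Measure ℂ} {C : ℝ≥0} (hc : Coarea D ℓ C) :
    FrontCondition D ↔ TreeC D ℓ := by
  have hC : (C : ℝ≥0∞) ≠ 0 := by
    have := hc.one_le
    exact_mod_cast (zero_lt_one.trans_le this).ne'
  have h0 := dl_pos h h.zero
  constructor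
  · rintro ⟨K, hK⟩
    refine ⟨C * K, fun t₀ ht n hn => ?_⟩
    have ht0 : 0 ≤ t₀ := h0.le.trans ht
    have h1 := hK t₀ ht (Un D n t₀) (by
      rw [pieces, beyond_eq h ht0]
      exact ⟨q n, hn, rfl⟩)
    rw [ENNReal.coe_mul, mul_assoc]
    refine le_trans ?_ (mul_le_mul_right h1 _)
    rw [← lintegral_const_mul' _ _ ENNReal.coe_ne_top]
    refine setLIntegral_mono' measurableSet_Ioi fun t ht' => ?_
    rw [Reidx_sum h ht0 (le_of_lt ht') n fun U => volume U ^ 2 / μH[1] (frontier U ∩ D),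
      ← ENNReal.tsum_mul_left]
    refine ENNReal.tsum_le_tsum fun m => ?_
    split_ifs
    · rw [front_eq h]
      exact Reidx_div hC (hc.haus_le t (ht0.trans_lt ht') _ (meas_Rn h m))
    · exact zero_le
  · rintro ⟨K, hK⟩
    refine ⟨C * K, fun t₀ ht U₀ hU => ?_⟩
    have ht0 : 0 ≤ t₀ := h0.le.trans ht
    rw [pieces, beyond_eq h ht0] at hU
    obtain ⟨z, hz, rfl⟩ := hU
    obtain ⟨n, hn, hzn⟩ := exists_first h hz
    rw [← Un_eq_comp hzn, ENNReal.coe_mul, mul_assoc]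
    refine le_trans ?_ (mul_le_mul_right (hK t₀ ht n hn.1) _)
    rw [← lintegral_const_mul' _ _ ENNReal.coe_ne_top]
    refine setLIntegral_mono' measurableSet_Ioi fun t ht' => ?_
    rw [Reidx_sum h ht0 (le_of_lt ht') n fun U => volume U ^ 2 / μH[1] (frontier U ∩ D),
      ← ENNReal.tsum_mul_left]
    refine ENNReal.tsum_le_tsum fun m => ?_
    split_ifs
    · rw [front_eq h]
      exact Reidx_div hC (hc.le_haus t (ht0.trans_lt ht') _ (meas_Rn h m))
    · exact zero_le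

end Pool.Agent.P.MP_6c0067_an
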