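import Pool.Agent.P.MP_6c0067_an.Key
import Pool.Agent.P.MP_6c0067_an.Nec
import Pool.Agent.P.MP_6c0067_an.Berg
import Pool.Agent.P.MP_6c0067_an.Coarea
import Pool.Agent.P.MP_6c0067_an.Reidx
import Pool.Agent.P.MP_6c0067_an.RMex

/-! The front criterion. -/

open Set MeasureTheory

namespace Pool.Agent.P.MP_6c0067_an

theorem main (D : Set ℂ) (ho : IsOpen D) (hs : IsSimplyConnected D) (h0 : (0 : ℂ) ∈ D) :
    Poincare D ↔ D = univ ∨ (volume D < ⊤ ∧ FrontCondition D) := by
  by_cases hu : D = univ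
  · subst hu
    exact iff_of_true poincare_univ (Or.inl rfl)
  have h : Dom D := ⟨ho, hs.isPathConnected.isConnected.isPreconnected, h0, nonempty_compl.2 hu⟩
  obtain ⟨φ, ψ, r⟩ := exists_RM h hs
  obtain ⟨ℓ, C, hc⟩ := exists_coarea h
  constructor
  · intro hP
    have hv := vol_ne_top h r hP
    exact Or.inr ⟨hv.lt_top,
      (front_iff_tree h hc).2 (tree_of_TB h r hv hc (TB_of_poincare h r hv hP))⟩
  · rintro (rfl | ⟨hv, hF⟩)
    · exact absurd rfl hu
    · exact poincare_of_TB h r (TB_of_tree h r hv.ne hc ((front_iff_tree h hc).1 hF))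

end Pool.Agent.P.MP_6c0067_an
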