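import Pool.Agent.P.MP_6c0067_an.Defs

/-! Basic properties of the inner distance. Key lemma (prove it first): if `c` is continuous on
`Icc a b` with values in `D` then `innerDist D (c b) ≤ innerDist D (c a) + eVariationOn c (Icc a b)`
(concatenate a path to `c a`, run on `[0,1/2]`, with `c` run on `[1/2,1]`; use
`eVariationOn.Icc_add_Icc`, `eVariationOn.comp_eq_of_monotoneOn` or the `le` versions). A segment
has variation at most its length (`LipschitzOnWith.comp_eVariationOn_le` or directly).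
`innerDist_ne_top`: the set of points of `D` with finite inner distance and its complement in `D`
are open (segments in small balls), `D` is preconnected. `rho_split`: take a path of variation
at most `rho z + ε` and split the variation at `s` (`eVariationOn.edist_le`).
`rho_curve`: by `rho_seg` the function `rho` is 1-Lipschitz on small balls, so `± rho ∘ c` has
upper right slopes at most the norm of `c' s`; use
`image_le_of_liminf_slope_right_le_deriv_boundary`; or bound the variation of `c` by the integral.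
`rho_meas`: `rho` vanishes off `D` (empty infimum) and is continuous on the open set `D`. -/

open Set MeasureTheory Metric
open scoped ENNReal NNReal

namespace Pool.Agent.P.MP_6c0067_an

open Classical

variable {D : Set ℂ}

private theorem start_le {c : ℝ → ℂ} {a b : ℝ} (hab : a ≤ b) (hc : ContinuousOn c (Icc a b))
    (hD : MapsTo c (Icc a b) D) (h0 : c a = 0) : innerDist D (c b) ≤ eVariationOn c (Icc a b) := by
  have hm : MapsTo (fun s : ℝ => a + s * (b - a)) (Icc 0 1) (Icc a b) := fun s hs =>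
    ⟨by nlinarith [hs.1], by nlinarith [hs.2]⟩
  have h1 := eVariationOn.comp_le_of_monotoneOn c (fun s : ℝ => a + s * (b - a))
    (fun s _ t _ h => add_le_add le_rfl (mul_le_mul_of_nonneg_right h (sub_nonneg.2 hab))) hm
  unfold innerDist
  exact iInf_le_of_le ⟨c ∘ fun s : ℝ => a + s * (b - a), hc.comp (by fun_prop) hm, hD.comp hm,
    by simpa using h0, by simp⟩ h1

private theorem key_le {c : ℝ → ℂ} {a b : ℝ} (hab : a ≤ b) (hc : ContinuousOn c (Icc a b))
    (hD : MapsTo c (Icc a b) D) :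
    innerDist D (c b) ≤ innerDist D (c a) + eVariationOn c (Icc a b) := by
  rw [innerDist, innerDist, ENNReal.iInf_add]
  refine le_iInf fun ⟨γ, h1, h2, h3, h4⟩ => ?_
  let g : ℝ → ℂ := fun s => γ (min s a - a + 1) + (c (max s a) - c a)
  have e1 : EqOn g (γ ∘ fun s => s - a + 1) (Icc (a - 1) a) := fun s hs => by
    simp only [g, min_eq_left hs.2, max_eq_right hs.2, sub_self, add_zero, Function.comp]
  have e2 : EqOn g c (Icc a b) := fun s hs => by
    simp only [g, min_eq_right hs.1, max_eq_left hs.1, sub_self, zero_add, h4, add_sub_cancel]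
  have m1 : MapsTo (fun s => s - a + 1) (Icc (a - 1) a) (Icc (0 : ℝ) 1) := fun s hs =>
    ⟨by linarith [hs.1], by linarith [hs.2]⟩
  have hg : ContinuousOn g (Icc (a - 1) b) :=
    (h1.comp (by fun_prop) fun s hs => m1 ⟨le_min hs.1 (by linarith), min_le_right _ _⟩).add
      ((hc.comp (by fun_prop) fun s hs => ⟨le_max_right _ _, max_le hs.2 hab⟩).sub
        continuousOn_const)
  have hgD : MapsTo g (Icc (a - 1) b) D := fun s hs => by
    rcases le_total s a with h | h
    · rw [e1 ⟨hs.1, h⟩]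
      exact h2 (m1 ⟨hs.1, h⟩)
    · rw [e2 ⟨h, hs.2⟩]
      exact hD ⟨h, hs.2⟩
  have h5 := start_le (by linarith) hg hgD
    ((e1 ⟨le_rfl, by linarith⟩).trans (by simpa using h3))
  have h6 := eVariationOn.Icc_add_Icc g (s := univ) (show a - 1 ≤ a by linarith) hab (mem_univ _)
  rw [univ_inter, univ_inter, univ_inter, eVariationOn.eq_of_eqOn e1,
    eVariationOn.eq_of_eqOn e2] at h6
  rw [e2 ⟨hab, le_rfl⟩, ← h6] at h5
  exact h5.trans (add_le_add (eVariationOn.comp_le_of_monotoneOn γ _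
    (fun s _ t _ h => by simpa using h) m1) le_rfl)

private theorem seg_le {y z : ℂ} (hs : segment ℝ y z ⊆ D) :
    innerDist D z ≤ innerDist D y + edist y z := by
  have h1 := key_le (D := D) (c := AffineMap.lineMap y z) zero_le_one
    AffineMap.lineMap_continuous.continuousOn
    (fun s h => hs (by rw [segment_eq_image_lineMap]; exact mem_image_of_mem _ h))
  rw [AffineMap.lineMap_apply_one, AffineMap.lineMap_apply_zero] at h1
  have h2 := (lipschitzWith_lineMap (𝕜 := ℝ) y z).lipschitzOnWith.comp_eVariationOn_le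
    (g := id) (s := Icc (0 : ℝ) 1) (mapsTo_univ _ _)
  have h3 := (monotoneOn_id (s := (univ : Set ℝ))).eVariationOn_le (mem_univ 0) (mem_univ 1)
  rw [univ_inter] at h3
  refine h1.trans (add_le_add le_rfl (h2.trans ((mul_le_mul_right h3 _).trans_eq ?_)))
  rw [id, id, sub_zero, ENNReal.ofReal_one, mul_one, edist_nndist]

private theorem inner_zero (h : Dom D) : innerDist D 0 = 0 :=
  le_antisymm ((start_le (c := fun _ => 0) zero_le_one continuousOn_const (fun _ _ => h.zero)
    rfl).trans_eq (eVariationOn.constant_on (by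
      rintro _ ⟨_, _, rfl⟩ _ ⟨_, _, rfl⟩
      rfl))) zero_le

private theorem var_le {c c' : ℝ → ℂ} {a b : ℝ} (hab : a ≤ b)
    (hc : ∀ s ∈ Icc a b, HasDerivAt c (c' s) s) (hc' : ContinuousOn c' (Icc a b)) :
    eVariationOn c (Icc a b) ≤ ENNReal.ofReal (∫ s in a..b, ‖c' s‖) := by
  have hi : ∀ x ∈ Icc a b, ∀ y ∈ Icc a b, IntervalIntegrable c' volume x y := fun x hx y hy =>
    (hc'.mono (uIcc_subset_Icc hx hy)).intervalIntegrable
  have ha : a ∈ Icc a b := left_mem_Icc.2 hab
  let B : ℝ → ℝ := fun x => ∫ s in a..x, ‖c' s‖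
  have h1 : ∀ x ∈ Icc a b, ∀ y ∈ Icc a b, x ≤ y → ‖c y - c x‖ ≤ B y - B x := fun x hx y hy hxy => by
    rw [← intervalIntegral.integral_eq_sub_of_hasDerivAt
      (fun s hs => hc s (uIcc_subset_Icc hx hy hs)) (hi x hx y hy),
      intervalIntegral.integral_interval_sub_left (hi a ha y hy).norm (hi a ha x hx).norm]
    exact intervalIntegral.norm_integral_le_integral_norm hxy
  have h2 : MonotoneOn B (Icc a b) := fun x hx y hy hxy =>
    sub_nonneg.1 ((norm_nonneg _).trans (h1 x hx y hy hxy))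
  have h3 := h2.eVariationOn_le ha (right_mem_Icc.2 hab)
  rw [inter_self, show B a = 0 from intervalIntegral.integral_same, sub_zero] at h3
  refine le_trans (iSup_mono fun p => Finset.sum_le_sum fun i _ => ?_) h3
  rw [edist_dist, edist_dist, dist_eq_norm, Real.dist_eq]
  exact ENNReal.ofReal_le_ofReal
    ((h1 _ (p.2.2.2 i) _ (p.2.2.2 (i + 1)) (p.2.2.1 i.le_succ)).trans (le_abs_self _))

theorem dl_pos (h : Dom D) {x : ℂ} (hx : x ∈ D) : 0 < dl D x :=
  (h.isOpen.isClosed_compl.notMem_iff_infDist_pos h.ne).1 fun h' => h' hx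

theorem ball_dl (D : Set ℂ) (x : ℂ) : ball x (dl D x) ⊆ D := ball_infDist_compl_subset

theorem dl_cont (D : Set ℂ) : Continuous (dl D) := continuous_infDist_pt _

theorem dl_le (D : Set ℂ) (x y : ℂ) : dl D x ≤ dl D y + ‖x - y‖ :=
  dist_eq_norm x y ▸ infDist_le_infDist_add_dist

theorem exists_dl (h : Dom D) (x : ℂ) : ∃ b, b ∉ D ∧ ‖x - b‖ = dl D x := by
  obtain ⟨b, hb, e⟩ := h.isOpen.isClosed_compl.exists_infDist_eq_dist h.ne x
  exact ⟨b, hb, (dist_eq_norm x b).symm.trans e.symm⟩

theorem innerDist_ne_top (h : Dom D) {z : ℂ} (hz : z ∈ D) : innerDist D z ≠ ⊤ := by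
  have key : ∀ {y w : ℂ}, segment ℝ y w ⊆ D → innerDist D y ≠ ⊤ → innerDist D w ≠ ⊤ :=
    fun hs hy => ne_top_of_le_ne_top (ENNReal.add_ne_top.2 ⟨hy, edist_ne_top _ _⟩) (seg_le hs)
  refine h.conn.induction₂' (fun y w => innerDist D y ≠ ⊤ → innerDist D w ≠ ⊤) (fun x hx => ?_)
    (fun _ _ _ _ _ _ h1 h2 h3 => h2 (h1 h3)) h.zero hz (by rw [inner_zero h]; exact ENNReal.zero_ne_top)
  filter_upwards [mem_nhdsWithin_of_mem_nhds (ball_mem_nhds x (dl_pos h hx))] with y hy
  have hx' := mem_ball_self (x := x) (dl_pos h hx)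
  exact ⟨key (((convex_ball _ _).segment_subset hx' hy).trans (ball_dl D x)),
    key (((convex_ball _ _).segment_subset hy hx').trans (ball_dl D x))⟩

theorem rho_nonneg (D : Set ℂ) (z : ℂ) : 0 ≤ rho D z := ENNReal.toReal_nonneg

theorem rho_zero (h : Dom D) : rho D 0 = 0 := by
  rw [rho, inner_zero h, ENNReal.toReal_zero]

theorem norm_le_rho (h : Dom D) {z : ℂ} (hz : z ∈ D) : ‖z‖ ≤ rho D z := by
  have h1 : edist z 0 ≤ innerDist D z := le_iInf fun ⟨γ, _, _, h3, h4⟩ => by
    have := eVariationOn.edist_le γ (right_mem_Icc.2 zero_le_one) (left_mem_Icc.2 zero_le_one)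
    rwa [h3, h4] at this
  rw [← dist_zero_right, dist_edist]
  exact ENNReal.toReal_mono (innerDist_ne_top h hz) h1

theorem rho_seg (h : Dom D) {y z : ℂ} (hs : segment ℝ y z ⊆ D) :
    rho D z ≤ rho D y + ‖z - y‖ := by
  rw [← dist_eq_norm, dist_comm, dist_edist]
  exact ENNReal.toReal_le_add (seg_le hs) (innerDist_ne_top h (hs (left_mem_segment _ _ _)))
    (edist_ne_top _ _)

theorem rho_ball (h : Dom D) {c y z : ℂ} {r : ℝ} (hb : closedBall c r ⊆ D)
    (hy : y ∈ closedBall c r) (hz : z ∈ closedBall c r) :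
    |rho D z - rho D y| ≤ ‖z - y‖ := by
  have h1 := rho_seg h (((convex_closedBall c r).segment_subset hy hz).trans hb)
  have h2 := rho_seg h (((convex_closedBall c r).segment_subset hz hy).trans hb)
  rw [norm_sub_rev] at h2
  exact abs_sub_le_iff.2 ⟨by linarith, by linarith⟩

theorem rho_contOn (h : Dom D) : ContinuousOn (rho D) D := fun x hx => by
  obtain ⟨r, hr, hb⟩ := nhds_basis_closedBall.mem_iff.1 (h.isOpen.mem_nhds hx)
  have h1 : LipschitzOnWith 1 (rho D) (closedBall x r) :=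
    LipschitzOnWith.of_dist_le_mul fun z hz y hy => by
      rw [NNReal.coe_one, one_mul, dist_eq_norm z y]
      exact rho_ball h hb hy hz
  exact (h1.continuousOn.continuousAt (closedBall_mem_nhds x hr)).continuousWithinAt

theorem rho_meas (h : Dom D) : Measurable (rho D) := by
  have h1 : ContinuousOn (rho D) Dᶜ := (continuousOn_const (c := 0)).congr fun z hz => by
    have : innerDist D z = ⊤ := iInf_eq_top.2 fun ⟨γ, _, h2, _, h4⟩ =>
      absurd (h4 ▸ h2 (right_mem_Icc.2 zero_le_one)) hz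
    rw [rho, this, ENNReal.toReal_top]
  simpa only [piecewise_same] using
    (rho_contOn h).measurable_piecewise h1 h.isOpen.measurableSet

theorem rho_split (h : Dom D) {z : ℂ} (hz : z ∈ D) {ε : ℝ} (hε : 0 < ε) :
    ∃ γ : ℝ → ℂ, ContinuousOn γ (Icc 0 1) ∧ MapsTo γ (Icc 0 1) D ∧ γ 0 = 0 ∧ γ 1 = z ∧
      ∀ s ∈ Icc (0 : ℝ) 1, rho D (γ s) + ‖z - γ s‖ ≤ rho D z + ε := by
  have h0 := innerDist_ne_top h hz
  obtain ⟨⟨γ, h1, h2, h3, h4⟩, h5⟩ :=
    iInf_lt_iff.1 (ENNReal.lt_add_right h0 (ENNReal.ofReal_pos.2 hε).ne')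
  refine ⟨γ, h1, h2, h3, h4, fun s hs => ?_⟩
  have h6 := start_le hs.1 (h1.mono (Icc_subset_Icc_right hs.2))
    (h2.mono_left (Icc_subset_Icc_right hs.2)) h3
  have h7 := eVariationOn.edist_le γ (right_mem_Icc.2 hs.2) (left_mem_Icc.2 hs.2)
  have h8 := eVariationOn.Icc_add_Icc γ (s := univ) hs.1 hs.2 (mem_univ _)
  rw [univ_inter, univ_inter, univ_inter] at h8
  have h9 := ENNReal.toReal_mono (ENNReal.add_ne_top.2 ⟨h0, ENNReal.ofReal_ne_top⟩)
    (((add_le_add h6 h7).trans_eq h8).trans h5.le)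
  rwa [ENNReal.toReal_add (innerDist_ne_top h (h2 hs)) (edist_ne_top _ _),
    ENNReal.toReal_add h0 ENNReal.ofReal_ne_top, ENNReal.toReal_ofReal hε.le, h4, ← dist_edist,
    dist_eq_norm] at h9

theorem rho_curve (h : Dom D) {c c' : ℝ → ℂ} {a b : ℝ} (hab : a ≤ b)
    (hc : ∀ s ∈ Icc a b, HasDerivAt c (c' s) s) (hc' : ContinuousOn c' (Icc a b))
    (hD : MapsTo c (Icc a b) D) :
    |rho D (c b) - rho D (c a)| ≤ ∫ s in a..b, ‖c' s‖ := by
  have h0 : ContinuousOn c (Icc a b) := fun s hs => (hc s hs).continuousAt.continuousWithinAt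
  have h1 := var_le hab hc hc'
  have hm : MapsTo (fun s : ℝ => -s) (Icc (-b) (-a)) (Icc a b) := fun s hs =>
    ⟨le_neg.1 hs.2, neg_le.1 hs.1⟩
  have h2 := (key_le hab h0 hD).trans (add_le_add le_rfl h1)
  have h3 := (key_le (neg_le_neg hab) (h0.comp continuousOn_neg hm) (hD.comp hm)).trans
    (add_le_add le_rfl ((eVariationOn.comp_le_of_antitoneOn c _
      (fun _ _ _ _ h => neg_le_neg h) hm).trans h1))
  simp only [Function.comp, neg_neg] at h3
  have h4 := ENNReal.toReal_le_add h2 (innerDist_ne_top h (hD (left_mem_Icc.2 hab)))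
    ENNReal.ofReal_ne_top
  have h5 := ENNReal.toReal_le_add h3 (innerDist_ne_top h (hD (right_mem_Icc.2 hab)))
    ENNReal.ofReal_ne_top
  rw [ENNReal.toReal_ofReal
    (intervalIntegral.integral_nonneg hab fun _ _ => norm_nonneg _)] at h4 h5
  exact abs_sub_le_iff.2 ⟨sub_le_iff_le_add'.2 h4, sub_le_iff_le_add'.2 h5⟩

theorem beyond_eq (h : Dom D) {t : ℝ} (ht : 0 ≤ t) : beyond D t = Bt D t :=
  Set.ext fun _ => and_congr_right fun hz =>
    ENNReal.ofReal_lt_iff_lt_toReal ht (innerDist_ne_top h hz)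

theorem Bt_open (h : Dom D) (t : ℝ) : IsOpen (Bt D t) :=
  (rho_contOn h).isOpen_inter_preimage h.isOpen (isOpen_Ioi (a := t))

theorem Lv_meas (h : Dom D) (t : ℝ) : MeasurableSet (Lv D t) :=
  h.isOpen.measurableSet.inter (rho_meas h (measurableSet_singleton t))

end Pool.Agent.P.MP_6c0067_an
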