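import Mathlib

/-! The notions used in the statement: the analytic Poincaré inequality and the fronts of the
inner distance. -/

open Set MeasureTheory Metric
open scoped ENNReal NNReal

namespace Pool.Agent.P.MP_6c0067_an

/-- `D` supports the analytic Poincaré inequality. -/
def Poincare (D : Set ℂ) : Prop :=
  ∃ K : ℝ≥0, ∀ f : ℂ → ℂ, DifferentiableOn ℂ f D → f 0 = 0 →
    ∫⁻ z in D, ‖f z‖ₑ ^ 2 ≤ K * ∫⁻ z in D, ‖deriv f z‖ₑ ^ 2

/-- The inner distance from `0` to `z`: the infimum of the lengths of the paths in `D` which join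
`0` to `z`. -/
noncomputable def innerDist (D : Set ℂ) (z : ℂ) : ℝ≥0∞ :=
  ⨅ γ : {γ : ℝ → ℂ // ContinuousOn γ (Icc 0 1) ∧ MapsTo γ (Icc 0 1) D ∧ γ 0 = 0 ∧ γ 1 = z},
    eVariationOn γ.1 (Icc 0 1)

/-- The points of `D` at inner distance more than `t` from `0`. -/
def beyond (D : Set ℂ) (t : ℝ) : Set ℂ := {z ∈ D | ENNReal.ofReal t < innerDist D z}

/-- The connected components of `beyond D t`. -/
def pieces (D : Set ℂ) (t : ℝ) : Set (Set ℂ) := connectedComponentIn (beyond D t) '' beyond D t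

/-- The front condition: for every piece `U₀` of level `t₀ ≥ dist(0, ∂D)`, the integral over
`t > t₀` of the sum of `area(U)² / length(∂U ∩ D)` over the pieces `U ⊆ U₀` of level `t` is at
most `K · area(U₀)`. -/
def FrontCondition (D : Set ℂ) : Prop :=
  ∃ K : ℝ≥0, ∀ t₀ : ℝ, infDist 0 Dᶜ ≤ t₀ → ∀ U₀ ∈ pieces D t₀,
    ∫⁻ t in Ioi t₀, ∑' U : {U : Set ℂ // U ∈ pieces D t ∧ U ⊆ U₀},
      volume U.1 ^ 2 / μH[1] (frontier U.1 ∩ D) ≤ K * volume U₀

end Pool.Agent.P.MP_6c0067_an
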