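import Pool.Agent.P.MP_6c0067_an.Node

/-! The upper gradient inequality. `layer`: both integrals are integrals over `l > 0` of the
measures of the sets where the function exceeds `ofReal l` (Tonelli, the integral over `l > 0` of
the indicator of `ofReal l < a` is `a`); for the weighted side use `withDensity`.
`image_le`: let `σ s` be the integral of `v` over `[0, s]`; `|p s - p s'| ≤ |σ s - σ s'|`, so `p`
factors as `k ∘ σ` on `[0,1]` with `k` 1-Lipschitz on the range; then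
`LipschitzOnWith.hausdorffMeasure_image_le`, `hausdorffMeasure_real` and
`addHaar_image_le_lintegral_abs_det_fderiv` (or `lintegral_image_eq_lintegral_abs_deriv_mul`).
`upper_gradient`: put `γ t = ∑ m, if First m t ∧ c 1 ∈ Un m t ∧ c 0 ∉ Un m t then g m t else 0`;
then `uf (c 1) ≤ uf (c 0) + ∫ γ`; at most one term is nonzero (`first_unique`); if
`c 1 ∈ Un m t` and `c 0 ∉ Un m t` the curve meets the frontier of the open set `Un m t` at a point
`c s ∈ Rn m ∩ Lv t` (`front_eq`), where `g m t ≤ Gu (c s)`. So `{l < γ}` is contained in the image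
under `rho ∘ c` of `{s | l < Gu (c s)}`. -/

open Set MeasureTheory Metric
open scoped ENNReal NNReal

namespace Pool.Agent.P.MP_6c0067_an

open Classical

variable {D : Set ℂ} {φ ψ : ℂ → ℂ}

theorem UG_vol (a : ℝ≥0∞) : volume.restrict (Ioi (0 : ℝ)) {l | ENNReal.ofReal l < a} = a := by
  rw [Measure.restrict_apply' measurableSet_Ioi]
  rcases eq_or_ne a ⊤ with rfl | ha
  · rw [show {l : ℝ | ENNReal.ofReal l < ⊤} = univ from
      eq_univ_of_forall fun _ => ENNReal.ofReal_lt_top, univ_inter, Real.volume_Ioi]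
  · have e : {l : ℝ | ENNReal.ofReal l < a} ∩ Ioi 0 = Ioo 0 a.toReal := by
      ext l
      constructor
      · rintro ⟨h1, h2⟩
        exact ⟨h2, (ENNReal.ofReal_lt_iff_lt_toReal (le_of_lt h2) ha).1 h1⟩
      · rintro ⟨h1, h2⟩
        exact ⟨(ENNReal.ofReal_lt_iff_lt_toReal h1.le ha).2 h2, h1⟩
    rw [e, Real.volume_Ioo, sub_zero, ENNReal.ofReal_toReal ha]

theorem UG_cake {X : Type*} [MeasurableSpace X] (μ : Measure X) [SFinite μ] {f : X → ℝ≥0∞}
    (hf : Measurable f) :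
    ∫⁻ x, f x ∂μ = ∫⁻ l in Ioi (0 : ℝ), μ {x | ENNReal.ofReal l < f x} := by
  have hS : MeasurableSet {p : X × ℝ | ENNReal.ofReal p.2 < f p.1} :=
    measurableSet_lt measurable_snd.ennreal_ofReal (hf.comp measurable_fst)
  have h1 := Measure.prod_apply (μ := μ) (ν := volume.restrict (Ioi (0 : ℝ))) hS
  rw [Measure.prod_apply_symm hS] at h1
  exact (lintegral_congr fun x => (UG_vol (f x)).symm).trans h1.symm

theorem layer {X Y : Type*} [MeasurableSpace X] [MeasurableSpace Y] (μ : Measure X) [SFinite μ]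
    (ν : Measure Y) [SFinite ν] {f : X → ℝ≥0∞} {g : Y → ℝ≥0∞} (hf : Measurable f)
    (hg : AEMeasurable g ν)
    (hw : ∀ l : ℝ, 0 < l → μ {x | ENNReal.ofReal l < f x} ≤ ν {y | ENNReal.ofReal l < g y}) :
    ∫⁻ x, f x ∂μ ≤ ∫⁻ y, g y ∂ν := by
  rw [UG_cake μ hf, lintegral_congr_ae hg.ae_eq_mk, UG_cake ν hg.measurable_mk]
  refine setLIntegral_mono' measurableSet_Ioi fun l hl => (hw l hl).trans (measure_mono_ae ?_)
  filter_upwards [hg.ae_eq_mk] with y hy h
  exact lt_of_lt_of_eq h hy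

theorem image_le {p v : ℝ → ℝ} (hv : ContinuousOn v (Icc 0 1)) (hv0 : ∀ s ∈ Icc (0 : ℝ) 1, 0 ≤ v s)
    (hp : ∀ s s' : ℝ, 0 ≤ s → s ≤ s' → s' ≤ 1 → |p s' - p s| ≤ ∫ x in s..s', v x) {S : Set ℝ}
    (hS : MeasurableSet S) (hS' : S ⊆ Icc 0 1) :
    volume (p '' S) ≤ ∫⁻ s in S, ENNReal.ofReal (v s) := by
  obtain ⟨w, hw, e⟩ : ∃ w : ℝ → ℝ, Continuous w ∧ EqOn v w (Icc 0 1) :=
    ⟨fun s => v (projIcc 0 1 zero_le_one s),
      hv.domRestrict.comp (continuous_projIcc (h := zero_le_one)),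
      fun s hs => by simp only [projIcc_of_mem _ hs]⟩
  obtain ⟨σ, hσ⟩ : ∃ σ : ℝ → ℝ, σ = fun s => ∫ x in (0 : ℝ)..s, w x := ⟨_, rfl⟩
  have h1 : ∀ s s' : ℝ, 0 ≤ s → s ≤ s' → s' ≤ 1 → |p s' - p s| ≤ |σ s' - σ s| := by
    intro s s' a b c
    refine (hp s s' a b c).trans (le_trans (le_of_eq ?_) (le_abs_self _))
    rw [hσ, intervalIntegral.integral_interval_sub_left (hw.intervalIntegrable _ _)
      (hw.intervalIntegrable _ _)]
    refine intervalIntegral.integral_congr (e.mono ?_)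
    rw [uIcc_of_le b]
    exact Icc_subset_Icc a c
  have h2 : ∀ s ∈ Icc (0 : ℝ) 1, ∀ s' ∈ Icc (0 : ℝ) 1, |p s' - p s| ≤ |σ s' - σ s| := by
    intro s hs s' hs'
    rcases le_total s s' with h | h
    · exact h1 s s' hs.1 h hs'.2
    · rw [abs_sub_comm, abs_sub_comm (σ s')]
      exact h1 s' s hs'.1 h hs.2
  have h3 : ∀ s ∈ Icc (0 : ℝ) 1, p (Function.invFunOn σ (Icc 0 1) (σ s)) = p s := fun s hs => by
    have := h2 s hs _ (Function.invFunOn_apply_mem (f := σ) hs)
    rwa [Function.invFunOn_apply_eq (f := σ) hs, sub_self, abs_zero, abs_nonpos_iff, sub_eq_zero] at this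
  have h4 : LipschitzOnWith 1 (fun y => p (Function.invFunOn σ (Icc 0 1) y)) (σ '' S) := by
    refine LipschitzOnWith.of_dist_le_mul ?_
    rintro _ ⟨s, hs, rfl⟩ _ ⟨s', hs', rfl⟩
    rw [h3 s (hS' hs), h3 s' (hS' hs'), NNReal.coe_one, one_mul, Real.dist_eq, Real.dist_eq]
    exact h2 s' (hS' hs') s (hS' hs)
  have h5 := h4.hausdorffMeasure_image_le (d := 1) zero_le_one
  rw [hausdorffMeasure_real, image_image, image_congr fun s hs => h3 s (hS' hs), ENNReal.coe_one,
    ENNReal.one_rpow, one_mul] at h5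
  refine h5.trans ((addHaar_image_le_lintegral_abs_det_fderiv volume hS
    (f' := fun s => ContinuousLinearMap.toSpanSingleton ℝ (w s)) fun s _ => ?_).trans
      (le_of_eq (setLIntegral_congr_fun hS fun s hs => ?_)))
  · rw [hσ]
    exact (hw.integral_hasStrictDerivAt 0 s).hasDerivAt.hasFDerivAt.hasFDerivWithinAt
  · simp only [ContinuousLinearMap.det_toSpanSingleton, ← e (hS' hs),
      abs_of_nonneg (hv0 s (hS' hs))]

theorem meas_uf (h : Dom D) {g : ℕ → ℝ → ℝ≥0∞} (hg : ∀ m, Measurable (g m)) :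
    Measurable (uf D g) :=
  Measurable.lintegral_prod_right' (f := fun p : ℂ × ℝ =>
    ∑' m, if First D m p.2 ∧ p.1 ∈ Un D m p.2 then g m p.2 else 0)
    (Measurable.tsum fun m => Measurable.ite
      ((measurable_snd (meas_First h m)).inter (measurable_swap (meas_Un h m)))
      ((hg m).comp measurable_snd) measurable_const)

theorem meas_Gu (h : Dom D) {g : ℕ → ℝ → ℝ≥0∞} (hg : ∀ m, Measurable (g m)) :
    Measurable (Gu D g) :=
  Measurable.iSup fun m => Measurable.ite ((rho_meas h (meas_First h m)).inter (meas_Rn h m))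
    ((hg m).comp (rho_meas h)) measurable_const

theorem UG_cross {U : Set ℂ} (hU : IsOpen U) {c : ℝ → ℂ} (hc : ContinuousOn c (Icc 0 1))
    (h1 : c 1 ∈ U) (h0 : c 0 ∉ U) : ∃ s ∈ Icc (0 : ℝ) 1, c s ∈ frontier U := by
  by_contra hn
  refine h0 ((isPreconnected_Icc.image c hc).subset_of_closure_inter_subset hU
    ⟨c 1, ⟨1, right_mem_Icc.2 zero_le_one, rfl⟩, h1⟩ ?_ ⟨0, left_mem_Icc.2 zero_le_one, rfl⟩)
  rintro _ ⟨h2, s, hs, rfl⟩
  by_contra h3
  exact hn ⟨s, hs, hU.frontier_eq ▸ ⟨h2, h3⟩⟩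

theorem upper_gradient (h : Dom D) {g : ℕ → ℝ → ℝ≥0∞} (hg : ∀ m, Measurable (g m))
    {c : ℝ → ℂ} {v : ℝ → ℝ} (hc : ContinuousOn c (Icc 0 1)) (hD : MapsTo c (Icc 0 1) D)
    (hv : ContinuousOn v (Icc 0 1)) (hv0 : ∀ s ∈ Icc (0 : ℝ) 1, 0 ≤ v s)
    (hp : ∀ s s' : ℝ, 0 ≤ s → s ≤ s' → s' ≤ 1 →
      |rho D (c s') - rho D (c s)| ≤ ∫ x in s..s', v x) :
    uf D g (c 1) ≤ uf D g (c 0) +
      ∫⁻ s in Icc (0 : ℝ) 1, Gu D g (c s) * ENNReal.ofReal (v s) := by
  obtain ⟨γ, hγ⟩ : ∃ γ : ℝ → ℝ≥0∞, γ = fun t =>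
    ∑' m, if First D m t ∧ c 1 ∈ Un D m t ∧ c 0 ∉ Un D m t then g m t else 0 := ⟨_, rfl⟩
  have mγ : Measurable γ := by
    rw [hγ]
    exact Measurable.tsum fun m => Measurable.ite ((meas_First h m).inter
      ((meas_mem_Un h m _).inter (meas_mem_Un h m _).compl)) (hg m) measurable_const
  have h1 : uf D g (c 1) ≤ uf D g (c 0) + ∫⁻ t, γ t := by
    rw [uf, uf, ← lintegral_add_right _ mγ]
    refine lintegral_mono fun t => ?_
    simp only [hγ, ← ENNReal.tsum_add]
    refine ENNReal.tsum_le_tsum fun m => ?_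
    split_ifs with a b b' b'
    · exact le_self_add
    · exact le_self_add
    · exact le_add_self
    · exact absurd ⟨a.1, a.2, fun h0 => b ⟨a.1, h0⟩⟩ b'
    all_goals exact zero_le
  refine h1.trans (add_le_add le_rfl ?_)
  obtain ⟨d, hd, e⟩ : ∃ d : ℝ → ℂ, Continuous d ∧ EqOn c d (Icc 0 1) :=
    ⟨fun s => c (projIcc 0 1 zero_le_one s),
      hc.domRestrict.comp (continuous_projIcc (h := zero_le_one)),
      fun s hs => by simp only [projIcc_of_mem _ hs]⟩
  have mG : Measurable fun s => Gu D g (d s) := (meas_Gu h hg).comp hd.measurable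
  have mv : AEMeasurable (fun s => ENNReal.ofReal (v s)) (volume.restrict (Icc (0 : ℝ) 1)) :=
    (hv.aemeasurable measurableSet_Icc).ennreal_ofReal
  refine (layer volume ((volume.restrict (Icc (0 : ℝ) 1)).withDensity
    fun s => ENNReal.ofReal (v s)) mγ mG.aemeasurable fun l _ => ?_).trans (le_of_eq ?_)
  · have hS : MeasurableSet {s | ENNReal.ofReal l < Gu D g (d s)} :=
      measurableSet_lt measurable_const mG
    rw [withDensity_apply _ hS, Measure.restrict_restrict hS]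
    refine le_trans (measure_mono fun t ht => ?_) (image_le (p := fun s => rho D (c s)) hv hv0 hp
      (hS.inter measurableSet_Icc) inter_subset_right)
    have h2 : ENNReal.ofReal l < γ t := ht
    obtain ⟨m, hm⟩ : ∃ m, First D m t ∧ c 1 ∈ Un D m t ∧ c 0 ∉ Un D m t := by
      by_contra hn
      refine not_lt_zero (h2.trans_eq ?_)
      rw [hγ]
      exact ENNReal.tsum_eq_zero.2 fun m => if_neg (not_exists.1 hn m)
    have h3 : γ t = g m t := by
      rw [hγ]
      exact (tsum_eq_single m fun n hn => if_neg fun h4 =>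
        hn (first_unique h4.1 hm.1 h4.2.1 hm.2.1)).trans (if_pos hm)
    obtain ⟨s, hs, hf⟩ := UG_cross (Un_open h m t) hc hm.2.1 hm.2.2
    have h4 : c s ∈ Rn D m ∩ Lv D t := front_eq h m t ▸ ⟨hf, hD hs⟩
    have h5 : rho D (c s) = t := h4.2.2
    refine ⟨s, ⟨h2.trans_le ?_, hs⟩, h5⟩
    rw [← e hs, h3]
    refine le_iSup_of_le m ?_
    rw [h5, if_pos ⟨hm.1, h4.1⟩]
  · rw [lintegral_withDensity_eq_lintegral_mul₀ mv mG.aemeasurable]
    refine setLIntegral_congr_fun measurableSet_Icc fun s hs => ?_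
    simp only [Pi.mul_apply, e hs, mul_comm]

end Pool.Agent.P.MP_6c0067_an
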