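import Pool.Agent.P.MP_6c0067_an.Desc
import Pool.Agent.P.MP_6c0067_an.Node

/-! Almost every point lies on at most one front. By Rademacher
(`LipschitzOnWith.ae_differentiableWithinAt_of_mem`, on countably many closed balls, `rho_ball`)
`rho` is real differentiable at almost every point of `D`. Let `y ≠ 0` be such a point, `t = rho y`,
`τ = min (dl y) ‖y‖ / 4`. A descending direction `e` at `y` (`descend`) has
`rho (y + s e) = rho y - s` for `0 ≤ s ≤ τ` (`rho_ball` twice), so the derivative `L` has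
`L e = -1`; two such unit vectors `e`, `e'` coincide, because `|L k| ≤ ‖k‖` gives
`2 = |L (e + e')| ≤ ‖e + e'‖`. By compactness (a sequence of descending directions at points
`y_k → y` has a subsequence which converges to a descending direction at `y`) there is
`0 < r ≤ τ / 8` such that all descending directions (length `τ`) at points of `closedBall y r` are
within `1 / 4` of `e`. By `semiconcave` at the point `y' - s e`: if `y'` and `y' - s e` lie in this
ball, `s ≥ 0`, then `rho (y' - s e) ≥ rho y' + s / 2`. So every `y' ∈ Bt t` with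
`‖y' - y‖ < r / 8` is joined inside `Bt t` by a segment to `y' - (r / 2) e`, which lies in the
ball of radius `r / 8` about `y - (r / 2) e`; on this ball `rho ≥ t + r / 4 - r / 8 > t`. Hence all
such `y'` lie in one component of `Bt t`; finish with `first_unique`. -/

open Set MeasureTheory Metric
open scoped ENNReal NNReal

namespace Pool.Agent.P.MP_6c0067_an

open Classical

variable {D : Set ℂ}

theorem Uniq_norm {s : ℝ} (hs : 0 ≤ s) {e : ℂ} (he : ‖e‖ = 1) : ‖(s : ℂ) * e‖ = s := by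
  rw [norm_mul, he, mul_one, Complex.norm_real, Real.norm_of_nonneg hs]

/-- Descending directions near a point of differentiability almost minimise the derivative. -/
theorem Uniq_dir (h : Dom D) {y : ℂ} {τ : ℝ} (hτ : 0 < τ) (hb : closedBall y (2 * τ) ⊆ D)
    {L : ℂ →L[ℝ] ℝ} (hL : HasFDerivAt (rho D) L y) (h1 : ∀ k, |L k| ≤ ‖k‖) :
    ∃ r, 0 < r ∧ r ≤ τ / 64 ∧ ∀ z e : ℂ, ‖z - y‖ ≤ r → ‖e‖ = 1 →
      rho D (z + τ * e) = rho D z - τ → L e ≤ -1 + 1 / 16 := by
  obtain ⟨δ, hδ, hk⟩ := Metric.eventually_nhds_iff.1 (Asymptotics.isLittleO_iff.1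
    (hasFDerivAt_iff_isLittleO_nhds_zero.1 hL) (show (0 : ℝ) < 1 / 64 by norm_num))
  obtain ⟨s, hs, hsδ, hsτ⟩ : ∃ s, 0 < s ∧ s ≤ δ / 4 ∧ s ≤ τ :=
    ⟨min (δ / 4) τ, lt_min (by linarith) hτ, min_le_left _ _, min_le_right _ _⟩
  refine ⟨s / 64, by linarith, by linarith, fun z e hz he hd => ?_⟩
  have n1 : ∀ u : ℝ, 0 ≤ u → ‖z - y + u * e‖ ≤ s / 64 + u := fun u hu =>
    (norm_add_le _ _).trans (by rw [Uniq_norm hu he]; linarith)
  have m1 : ∀ u : ℝ, 0 ≤ u → u ≤ τ → z + u * e ∈ closedBall y (2 * τ) := fun u hu hu' => by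
    rw [mem_closedBall_iff_norm, add_sub_right_comm]
    linarith [n1 u hu]
  have k1 := (abs_le.1 (rho_ball h hb (m1 τ hτ.le le_rfl) (m1 s hs.le hsτ))).2
  have e1 : z + s * e - (z + τ * e) = -(((τ - s : ℝ) : ℂ) * e) := by push_cast; ring
  rw [e1, norm_neg, Uniq_norm (by linarith) he] at k1
  have k2 := (abs_le.1 (rho_ball h hb (mem_closedBall_self (by linarith))
    (show z ∈ closedBall y (2 * τ) from mem_closedBall_iff_norm.2 (by linarith)))).2
  have k3 := hk (y := z - y + s * e) (by rw [dist_zero_right]; linarith [n1 s hs.le])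
  have e2 : y + (z - y + s * e) = z + s * e := by ring
  have e3 : L (z - y + s * e) = L (z - y) + s * L e := by
    rw [map_add, ← Complex.real_smul, map_smul, smul_eq_mul]
  rw [e2, e3, Real.norm_eq_abs] at k3
  have k4 := (abs_le.1 k3).1
  have k5 := (abs_le.1 (h1 (z - y))).1
  refine le_of_mul_le_mul_left ?_ hs
  linarith [n1 s hs.le]

theorem Uniq_inner {e e' : ℂ} (he : ‖e‖ = 1) (he' : ‖e'‖ = 1) (h : 15 / 8 ≤ ‖e + e'‖) :
    3 / 4 ≤ ((starRingEnd ℂ) e' * e).re := by
  have h1 : ‖e + e'‖ ^ 2 = 2 + 2 * ((starRingEnd ℂ) e' * e).re := by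
    rw [Complex.sq_norm, Complex.normSq_add, ← Complex.sq_norm, ← Complex.sq_norm, he, he',
      mul_comm e]
    ring
  nlinarith only [h, h1]

/-- The inner distance grows in the direction opposite to the descending one. -/
theorem Uniq_grow (h : Dom D) {y : ℂ} (hy : y ∈ D) (h0 : y ≠ 0)
    (hd : DifferentiableAt ℝ (rho D) y) : ∃ (r : ℝ) (e : ℂ), 0 < r ∧ ‖e‖ = 1 ∧
      closedBall y r ⊆ D ∧ ∀ (z : ℂ) (s : ℝ), 0 ≤ s → s ≤ r → ‖z - y‖ ≤ r →
        ‖z - s * e - y‖ ≤ r → rho D z + s / 2 ≤ rho D (z - s * e) := by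
  obtain ⟨τ, hτ, t1, t2⟩ : ∃ τ, 0 < τ ∧ τ ≤ dl D y / 4 ∧ τ ≤ ‖y‖ / 4 :=
    ⟨min (dl D y / 4) (‖y‖ / 4), lt_min (by linarith [dl_pos h hy])
      (by linarith [norm_pos_iff.2 h0]), min_le_left _ _, min_le_right _ _⟩
  have hb : closedBall y (2 * τ) ⊆ D := (closedBall_subset_ball (by linarith)).trans (ball_dl D y)
  have hL : ‖fderiv ℝ (rho D) y‖ ≤ 1 := by
    refine hd.hasFDerivAt.le_of_lip' zero_le_one ?_
    filter_upwards [closedBall_mem_nhds y (show 0 < 2 * τ by linarith)] with x hx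
    rw [one_mul]
    exact rho_ball h hb (mem_closedBall_self (by linarith)) hx
  have h1 : ∀ k, |fderiv ℝ (rho D) y k| ≤ ‖k‖ := fun k =>
    ((fderiv ℝ (rho D) y).le_of_opNorm_le hL k).trans_eq (one_mul _)
  obtain ⟨r, hr, hrτ, hdir⟩ := Uniq_dir h hτ hb hd.hasFDerivAt h1
  obtain ⟨e, he, hde⟩ := descend h hτ ((closedBall_subset_closedBall (by linarith)).trans hb)
    (show τ ≤ ‖y‖ by linarith)
  have l1 := hdir y e (by rw [sub_self, norm_zero]; exact hr.le) he hde
  refine ⟨r, e, hr, he, (closedBall_subset_closedBall (by linarith)).trans hb,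
    fun z s hs hsr hz hw => ?_⟩
  obtain ⟨e', he', hde'⟩ := descend h (y := z - s * e) hτ
    ((closedBall_subset_closedBall' (by rw [dist_eq_norm]; linarith)).trans hb)
    (by linarith [norm_sub_norm_le y (z - s * e), norm_sub_rev y (z - s * e)])
  have l2 := hdir _ e' hw he' hde'
  have l3 := (abs_le.1 (h1 (e + e'))).1
  rw [map_add] at l3
  have l4 := Uniq_inner he he' (by linarith)
  have m1 : z - s * e + τ * e' ∈ closedBall y (2 * τ) := by
    rw [mem_closedBall_iff_norm, add_sub_right_comm]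
    refine (norm_add_le _ _).trans ?_
    rw [Uniq_norm hτ.le he']
    linarith
  have l5 := semiconcave h (y' := z) hτ he' hde' (((convex_closedBall y _).segment_subset m1
    (mem_closedBall_iff_norm.2 (by linarith))).trans hb)
  have e1 : ((starRingEnd ℂ) e' * (s * e)).re = s * ((starRingEnd ℂ) e' * e).re := by
    rw [mul_left_comm, Complex.re_ofReal_mul]
  rw [sub_sub_cancel, e1, Uniq_norm hs he] at l5
  have l6 : s ^ 2 / (2 * τ) ≤ s / 4 := by
    rw [div_le_iff₀ (by linarith)]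
    nlinarith only [hs, hsr, hrτ, hτ]
  nlinarith only [l4, l5, l6, hs]

theorem unique_of_diff (h : Dom D) {y : ℂ} (hy : y ∈ D) (h0 : y ≠ 0)
    (hd : DifferentiableAt ℝ (rho D) y) {n m : ℕ} (hn : First D n (rho D y))
    (hm : First D m (rho D y)) (hyn : y ∈ Rn D n) (hym : y ∈ Rn D m) : n = m := by
  obtain ⟨r, e, hr, he, hb, hg⟩ := Uniq_grow h hy h0 hd
  have n1 : ∀ (z : ℂ) (s : ℝ), 0 ≤ s → ‖z - s * e - y‖ ≤ ‖z - y‖ + s := fun z s hs => by
    rw [sub_right_comm]
    exact (norm_sub_le _ _).trans_eq (by rw [Uniq_norm hs he])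
  have c1 : ‖y - ((r / 2 : ℝ) : ℂ) * e - y‖ ≤ r / 2 := by
    simpa only [sub_self, norm_zero, zero_add] using n1 y (r / 2) (by linarith)
  have c2 := hg y (r / 2) (by linarith) (by linarith) (by rw [sub_self, norm_zero]; exact hr.le)
    (by linarith)
  have hC : ball (y - ((r / 2 : ℝ) : ℂ) * e) (r / 8) ⊆ Bt D (rho D y) := by
    intro w hw
    rw [mem_ball_iff_norm] at hw
    have hw' : w ∈ closedBall y r := mem_closedBall_iff_norm.2 (by
      linarith [norm_sub_le_norm_sub_add_norm_sub w (y - ((r / 2 : ℝ) : ℂ) * e) y])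
    have := (abs_le.1 (rho_ball h hb (y := y - ((r / 2 : ℝ) : ℂ) * e)
      (mem_closedBall_iff_norm.2 (by linarith)) hw')).1
    exact ⟨hb hw', by linarith⟩
  have key : ∀ k, y ∈ Rn D k → y - ((r / 2 : ℝ) : ℂ) * e ∈ Un D k (rho D y) := by
    intro k hk
    obtain ⟨z, hz, hzy⟩ := Metric.mem_closure_iff.1 (frontier_subset_closure hk.2) (r / 8)
      (by linarith)
    rw [dist_comm, dist_eq_norm] at hzy
    have hz' := (Un_subset D k _ hz).2
    have hS : (fun s : ℝ => z - s * e) '' Icc 0 (r / 2) ⊆ Bt D (rho D y) := by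
      rintro _ ⟨s, hs, rfl⟩
      have q1 : ‖z - s * e - y‖ ≤ r := by linarith [n1 z s hs.1, hs.2]
      have q2 := hg z s hs.1 (by linarith [hs.2]) (by linarith) q1
      exact ⟨hb (mem_closedBall_iff_norm.2 q1), by linarith [hs.1]⟩
    have hP : IsPreconnected ((fun s : ℝ => z - s * e) '' Icc 0 (r / 2) ∪
        ball (y - ((r / 2 : ℝ) : ℂ) * e) (r / 8)) :=
      IsPreconnected.union (z - ((r / 2 : ℝ) : ℂ) * e) ⟨r / 2, ⟨by linarith, le_rfl⟩, rfl⟩
        (by rwa [mem_ball_iff_norm, sub_sub_sub_cancel_right])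
        (isPreconnected_Icc.image _ (by fun_prop)) (convex_ball _ _).isPreconnected
    rw [Un_eq_comp hz]
    exact hP.subset_connectedComponentIn (.inl ⟨0, ⟨le_rfl, by linarith⟩, by simp⟩)
      (union_subset hS hC) (.inr (mem_ball_self (by linarith)))
  exact first_unique hn hm (key n hyn) (key m hym)

theorem ae_unique (h : Dom D) : ∀ᵐ y ∂(volume.restrict D), ∀ n m, First D n (rho D y) →
    First D m (rho D y) → y ∈ Rn D n → y ∈ Rn D m → n = m := by
  have h1 : volume {y | y ∈ D ∧ ¬ DifferentiableAt ℝ (rho D) y} = 0 := by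
    refine measure_null_of_locally_null _ fun x hx => ?_
    have hx0 := dl_pos h hx.1
    have hb : closedBall x (dl D x / 2) ⊆ D :=
      (closedBall_subset_ball (by linarith)).trans (ball_dl D x)
    have hl : LipschitzOnWith 1 (rho D) (ball x (dl D x / 2)) :=
      LipschitzOnWith.mk_one fun a ha b hb' => by
        rw [Real.dist_eq, dist_eq_norm]
        exact rho_ball h hb (ball_subset_closedBall hb') (ball_subset_closedBall ha)
    refine ⟨_, inter_mem_nhdsWithin _ (ball_mem_nhds x (half_pos hx0)),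
      measure_mono_null ?_ (ae_iff.1 (hl.ae_differentiableWithinAt_of_mem (μ := volume)))⟩
    rintro a ⟨ha, ha'⟩ hc
    exact ha.2 ((hc ha').differentiableAt (isOpen_ball.mem_nhds ha'))
  rw [ae_restrict_iff' h.isOpen.measurableSet]
  filter_upwards [measure_eq_zero_iff_ae_notMem.1 h1,
    measure_eq_zero_iff_ae_notMem.1 (measure_singleton (0 : ℂ))] with y k1 k2 hy n m hn hm hyn hym
  exact unique_of_diff h hy k2 (by_contra fun hc => k1 ⟨hy, hc⟩) hn hm hyn hym

end Pool.Agent.P.MP_6c0067_an
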